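import Mathlib

set_option autoImplicit false

open Complex Set Filter Topology Real Polynomial

namespace Pool.Agent.MP_12a475_nt.H58

lemma circle_poly_inv (T : ℂ[X]) (m : ℕ) (R : ℝ) (hR : 0 < R) :
    CircleIntegrable (fun z => T.eval z⁻¹ * z ^ m) 0 R ∧
    (∮ z in C(0, R), T.eval z⁻¹ * z ^ m) = 2 * π * I * T.coeff (m + 1) := by
  have hne : ∀ z ∈ Metric.sphere (0 : ℂ) R, z ≠ 0 := by
    intro z hz h0
    rw [h0] at hz
    simp at hz
    exact hR.ne' hz.symm
  have hint : ∀ T : ℂ[X], CircleIntegrable (fun z => T.eval z⁻¹ * z ^ m) 0 R := by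
    intro T
    refine ContinuousOn.circleIntegrable hR.le ?_
    exact (T.continuous.comp_continuousOn (continuousOn_id.inv₀ hne)).mul (by fun_prop)
  refine ⟨hint T, ?_⟩
  induction T using Polynomial.induction_on' with
  | add p q hp hq =>
    simp only [eval_add, add_mul, coeff_add]
    rw [circleIntegral.integral_add (hint p) (hint q), hp, hq]; ring
  | monomial k a =>
    have h1 : (∮ z in C(0, R), (monomial k a).eval z⁻¹ * z ^ m)
        = ∮ z in C(0, R), a * (z - 0) ^ ((m : ℤ) - k) := by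
      refine circleIntegral.integral_congr hR.le fun z hz => ?_
      have := hne z hz
      simp only [eval_monomial, sub_zero]
      rw [zpow_sub₀ this]
      simp only [zpow_natCast, inv_pow]
      ring
    rw [h1, circleIntegral.integral_const_mul, coeff_monomial]
    split_ifs with hk
    · rw [show (m : ℤ) - k = -1 by omega]
      simp only [zpow_neg_one]
      rw [circleIntegral.integral_sub_center_inv _ hR.ne']; ring
    · rw [circleIntegral.integral_sub_zpow_of_ne (by omega)]; simp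

/-- Laurent coefficients at infinity of a branch of `sqrt (S (1/z))`. -/
theorem circle_coeff (f : ℂ → ℂ) (R : ℝ) (hR : 0 < R)
    (hf : ∀ z : ℂ, R ≤ ‖z‖ → DifferentiableAt ℂ f z)
    (hlim : Tendsto f (Bornology.cobounded ℂ) (𝓝 1))
    (S : ℂ[X]) (hS : ∀ z : ℂ, R ≤ ‖z‖ → f z ^ 2 = S.eval z⁻¹)
    (g : PowerSeries ℂ) (hg0 : PowerSeries.constantCoeff g = 1) (hg : g ^ 2 = S) (m : ℕ) :
    (∮ z in C(0, R), f z * z ^ m) = 2 * π * I * PowerSeries.coeff (m + 1) g := by
  set T : ℂ[X] := PowerSeries.trunc (m + 2) g with hT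
  have hT1 : T.coeff (m + 1) = PowerSeries.coeff (m + 1) g := by
    rw [hT, PowerSeries.coeff_trunc, if_pos (by omega)]
  have hT0 : T.eval 0 = 1 := by
    rw [← coeff_zero_eq_eval_zero, hT, PowerSeries.coeff_trunc, if_pos (by omega)]
    simpa using hg0
  obtain ⟨V, hV⟩ : (X : ℂ[X]) ^ (m + 2) ∣ S - T ^ 2 := by
    have h1 : (PowerSeries.X : PowerSeries ℂ) ^ (m + 2) ∣ g - T := by
      rw [PowerSeries.X_pow_dvd_iff]
      intro k hk
      rw [map_sub, Polynomial.coeff_coe, hT, PowerSeries.coeff_trunc, if_pos hk, sub_self]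
    have h2 : (PowerSeries.X : PowerSeries ℂ) ^ (m + 2) ∣ ((S - T ^ 2 : ℂ[X]) : PowerSeries ℂ) := by
      have := h1.mul_right (g + T)
      convert this using 1
      push_cast
      rw [← hg]; ring
    rw [Polynomial.X_pow_dvd_iff]
    intro k hk
    have := PowerSeries.X_pow_dvd_iff.mp h2 k hk
    rwa [Polynomial.coeff_coe] at this
  have hinv : Tendsto (fun z : ℂ => z⁻¹) (Bornology.cobounded ℂ) (𝓝 0) := tendsto_inv₀_cobounded
  have hTlim : Tendsto (fun z : ℂ => T.eval z⁻¹) (Bornology.cobounded ℂ) (𝓝 1) := by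
    rw [← hT0]; exact (T.continuous.tendsto 0).comp hinv
  have hq : Tendsto (fun z : ℂ => V.eval z⁻¹ / (f z + T.eval z⁻¹)) (Bornology.cobounded ℂ)
      (𝓝 (V.eval 0 / (1 + 1))) :=
    ((V.continuous.tendsto 0).comp hinv).div (hlim.add hTlim) (by norm_num)
  set C : ℝ := ‖V.eval 0 / (1 + 1)‖ + 1 with hC
  have hev : ∀ᶠ z in Bornology.cobounded ℂ,
      ‖V.eval z⁻¹ / (f z + T.eval z⁻¹)‖ ≤ C ∧ f z + T.eval z⁻¹ ≠ 0 :=
    (hq.norm.eventually (ge_mem_nhds (by rw [hC]; linarith))).and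
      ((hlim.add hTlim).eventually_ne (by norm_num))
  obtain ⟨R1, -, hR1⟩ := (Metric.hasBasis_cobounded_compl_closedBall (0 : ℂ)).eventually_iff.mp hev
  have hbound : ∀ ρ : ℝ, R ≤ ρ → R1 < ρ →
      ‖(∮ z in C(0, R), f z * z ^ m) - 2 * π * I * PowerSeries.coeff (m + 1) g‖
        ≤ 2 * π * C * ρ⁻¹ := by
    intro ρ hρ hρ1
    have hρ0 : 0 < ρ := hR.trans_le hρ
    have hd : ∀ z : ℂ, R ≤ ‖z‖ → DifferentiableAt ℂ (fun z => f z * z ^ m) z := fun z hz =>
      (hf z hz).mul (by fun_prop)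
    have e1 : (∮ z in C(0, ρ), f z * z ^ m) = ∮ z in C(0, R), f z * z ^ m := by
      refine circleIntegral_eq_of_differentiable_on_annulus_off_countable hR hρ countable_empty
        (fun z hz => (hd z ?_).continuousAt.continuousWithinAt) fun z hz => hd z ?_
      · simpa using hz.2
      · have := hz.1.2
        simp at this
        exact this.le
    obtain ⟨i1, i2⟩ := circle_poly_inv T m ρ hρ0
    have i3 : CircleIntegrable (fun z => f z * z ^ m) 0 ρ := by
      refine ContinuousOn.circleIntegrable hρ0.le fun z hz => (hd z ?_).continuousAt.continuousWithinAt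
      rw [mem_sphere_zero_iff_norm.mp hz]; exact hρ
    rw [← e1, ← hT1, ← i2, ← circleIntegral.integral_sub i3 i1]
    refine (circleIntegral.norm_integral_le_of_norm_le_const (C := C * ρ⁻¹ ^ 2) hρ0.le
      fun z hz => ?_).trans (le_of_eq (by field_simp))
    have hz' : ‖z‖ = ρ := mem_sphere_zero_iff_norm.mp hz
    have hz0 : z ≠ 0 := by
      intro h0; rw [h0, norm_zero] at hz'; exact hρ0.ne hz'
    obtain ⟨b1, b2⟩ := hR1 (x := z) (by simp [hz', hρ1])
    have e2 : f z * z ^ m - T.eval z⁻¹ * z ^ m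
        = V.eval z⁻¹ / (f z + T.eval z⁻¹) * z⁻¹ ^ 2 := by
      have h1 := congrArg (Polynomial.eval z⁻¹) hV
      simp only [eval_sub, eval_pow, eval_mul, eval_X] at h1
      rw [← hS z (by rw [hz']; exact hρ)] at h1
      have h2 : z⁻¹ ^ m * z ^ m = 1 := by rw [← mul_pow, inv_mul_cancel₀ hz0, one_pow]
      rw [div_mul_eq_mul_div, eq_div_iff b2]
      linear_combination z ^ m * h1 + z⁻¹ ^ 2 * V.eval z⁻¹ * h2
    rw [e2, norm_mul, norm_pow, norm_inv, hz']
    gcongr
  have hlim0 : Tendsto (fun ρ : ℝ => 2 * π * C * ρ⁻¹) atTop (𝓝 0) := by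
    simpa using tendsto_inv_atTop_zero.const_mul (2 * π * C)
  have := ge_of_tendsto hlim0 (by
    filter_upwards [eventually_ge_atTop R, eventually_gt_atTop R1] with ρ h1 h2
    exact hbound ρ h1 h2)
  exact sub_eq_zero.mp (norm_le_zero_iff.mp this)

end Pool.Agent.MP_12a475_nt.H58
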