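import Mathlib

set_option autoImplicit false

open Polynomial Filter Topology

namespace Pool.Agent.MP_12a475_nt.H58

lemma prod_lt_one_of_tendsto (a : ℕ → ℝ) (ha0 : ∀ i, 0 ≤ a i) (ha : Tendsto a atTop (𝓝 0)) :
    ∃ L0, ∀ L, L0 ≤ L → ∏ i ∈ Finset.range L, a i < 1 := by
  obtain ⟨N, hN⟩ := eventually_atTop.mp (ha.eventually (ge_mem_nhds (show (0 : ℝ) < 1 / 2 by norm_num)))
  have h1 : ∀ k, ∏ i ∈ Finset.range (N + k), a i ≤ (∏ i ∈ Finset.range N, a i) * (1 / 2) ^ k := by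
    intro k
    induction k with
    | zero => simp
    | succ k ih =>
      rw [← add_assoc, Finset.prod_range_succ, pow_succ, ← mul_assoc]
      exact mul_le_mul ih (hN _ (by omega)) (ha0 _)
        (mul_nonneg (Finset.prod_nonneg fun i _ => ha0 i) (by positivity))
  have h2 : Tendsto (fun k : ℕ => (∏ i ∈ Finset.range N, a i) * (1 / 2 : ℝ) ^ k) atTop (𝓝 0) := by
    simpa using (tendsto_pow_atTop_nhds_zero_of_lt_one (show (0 : ℝ) ≤ 1 / 2 by norm_num)
      (by norm_num)).const_mul (∏ i ∈ Finset.range N, a i)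
  obtain ⟨K, hK⟩ := eventually_atTop.mp (h2.eventually (gt_mem_nhds (show (0 : ℝ) < 1 by norm_num)))
  refine ⟨N + K, fun L hL => ?_⟩
  obtain ⟨k, rfl⟩ : ∃ k, L = N + k := ⟨L - N, by omega⟩
  exact (h1 k).trans_lt (hK k (by omega))

lemma norm_det_le {L : ℕ} (A : Matrix (Fin L) (Fin L) ℂ) (b : ℕ → ℝ)
    (h : ∀ i j, ‖A i j‖ ≤ b j) : ‖A.det‖ ≤ ∏ i ∈ Finset.range L, ((i + 1 : ℕ) * b i) := by
  rw [Matrix.det_apply, Finset.prod_mul_distrib, ← Nat.cast_prod, Finset.prod_range_add_one_eq_factorial]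
  refine (norm_sum_le _ _).trans ?_
  have : ∀ σ : Equiv.Perm (Fin L), ‖Equiv.Perm.sign σ • ∏ i, A (σ i) i‖ ≤ ∏ i ∈ Finset.range L, b i := by
    intro σ
    have h1 : ‖Equiv.Perm.sign σ • ∏ i, A (σ i) i‖ = ‖∏ i, A (σ i) i‖ := by
      rcases Int.units_eq_one_or (Equiv.Perm.sign σ) with h | h <;> simp [h]
    rw [h1, norm_prod, ← Fin.prod_univ_eq_prod_range]
    exact Finset.prod_le_prod (fun i _ => norm_nonneg _) fun i _ => h _ _
  refine (Finset.sum_le_sum fun σ _ => this σ).trans ?_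
  simp [Fintype.card_perm]

/-- Pólya–Carlson style vanishing of Hankel determinants. -/
theorem det_eventually_zero (Λ : ℂ[X] →ₗ[ℂ] ℂ) (g : ℕ → ℤ) (hg : ∀ m, Λ (X ^ m) = g m)
    (B : ℂ[X]) (hB : B.Monic) (hD : 0 < B.natDegree) (θ M : ℝ) (hθ : 0 ≤ θ) (hθ1 : θ < 1)
    (hΛ : ∀ k c, c < 2 * B.natDegree → ‖Λ (B ^ k * X ^ c)‖ ≤ M * θ ^ k) :
    ∃ L0, ∀ L, L0 ≤ L → (Matrix.of fun i j : Fin L => g (i + j)).det = 0 := by
  set D := B.natDegree with hDdef
  have hM : 0 ≤ M := by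
    have := hΛ 0 0 (by omega)
    simpa using (norm_nonneg _).trans this
  set b : ℕ → ℝ := fun i => M * θ ^ (i / D) with hb
  have hb0 : ∀ i, 0 ≤ b i := fun i => by positivity
  have hlim : Tendsto (fun i : ℕ => ((i + 1 : ℕ) : ℝ) * b i) atTop (𝓝 0) := by
    have h1 : Tendsto (fun k : ℕ => (D * M) * ((k : ℝ) * θ ^ k + θ ^ k)) atTop (𝓝 0) := by
      simpa using ((tendsto_self_mul_const_pow_of_lt_one hθ hθ1).add
        (tendsto_pow_atTop_nhds_zero_of_lt_one hθ hθ1)).const_mul ((D : ℝ) * M)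
    have h2 := h1.comp (Nat.tendsto_div_const_atTop hD.ne')
    refine squeeze_zero (fun i => mul_nonneg (by positivity) (hb0 i)) (fun i => ?_) h2
    have h3 : ((i + 1 : ℕ) : ℝ) ≤ D * (((i / D : ℕ) : ℝ) + 1) := by
      have := Nat.lt_mul_div_succ i hD
      exact_mod_cast this
    simp only [hb, Function.comp]
    calc ((i + 1 : ℕ) : ℝ) * (M * θ ^ (i / D))
        ≤ D * (((i / D : ℕ) : ℝ) + 1) * (M * θ ^ (i / D)) := by gcongr
      _ = _ := by ring
  obtain ⟨L0, hL0⟩ := prod_lt_one_of_tendsto _ (fun i => mul_nonneg (by positivity) (hb0 i)) hlim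
  refine ⟨L0, fun L hL => ?_⟩
  set p : Fin L → ℂ[X] := fun i => B ^ ((i : ℕ) / D) * X ^ ((i : ℕ) % D) with hp
  have hmon : ∀ i, (p i).Monic := fun i => (hB.pow _).mul (monic_X_pow _)
  have hdeg : ∀ i, (p i).natDegree = i := by
    intro i
    simp only [hp]
    rw [(hB.pow _).natDegree_mul (monic_X_pow _), hB.natDegree_pow, natDegree_X_pow, ← hDdef,
      Nat.div_add_mod']
  set T : Matrix (Fin L) (Fin L) ℂ := Matrix.of fun i j : Fin L => (p j).coeff i with hT
  have hTdet : T.det = 1 := Matrix.det_matrixOfPolynomials p hdeg hmon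
  set H : Matrix (Fin L) (Fin L) ℂ := Matrix.of fun i j : Fin L => (g (i + j) : ℂ) with hH
  have hsum : ∀ i, p i = ∑ a : Fin L, (p i).coeff a • (X : ℂ[X]) ^ (a : ℕ) := by
    intro i
    conv_lhs => rw [(p i).as_sum_range' L (by rw [hdeg]; exact i.2)]
    rw [← Fin.sum_univ_eq_sum_range (fun a => monomial a ((p i).coeff a))]
    simp [smul_X_eq_monomial]
  have hA : T.transpose * H * T = Matrix.of fun i j : Fin L => Λ (p i * p j) := by
    ext i j
    simp only [Matrix.mul_apply, Matrix.transpose_apply, hT, hH, Matrix.of_apply]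
    conv_rhs => rw [hsum i, hsum j]
    simp only [Finset.sum_mul, Finset.mul_sum, map_sum, smul_mul_smul_comm, map_smul, ← pow_add, hg,
      smul_eq_mul]
    refine Finset.sum_congr rfl fun a _ => Finset.sum_congr rfl fun c _ => by ring
  have hdet : H.det = (Matrix.of fun i j : Fin L => Λ (p i * p j)).det := by
    rw [← hA, Matrix.det_mul, Matrix.det_mul, Matrix.det_transpose, hTdet, one_mul, mul_one]
  have hbound : ‖H.det‖ < 1 := by
    rw [hdet]
    refine lt_of_le_of_lt (norm_det_le _ b fun i j => ?_) (hL0 L hL)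
    have h1 : p i * p j = B ^ ((i : ℕ) / D + (j : ℕ) / D) * X ^ ((i : ℕ) % D + (j : ℕ) % D) := by
      simp only [hp]; ring
    rw [Matrix.of_apply, h1]
    have h2 := Nat.mod_lt (i : ℕ) hD
    have h3 := Nat.mod_lt (j : ℕ) hD
    refine (hΛ _ _ (by omega)).trans ?_
    simp only [hb]
    exact mul_le_mul_of_nonneg_left (pow_le_pow_of_le_one hθ hθ1.le (Nat.le_add_left _ _)) hM
  have hcast : H.det = (((Matrix.of fun i j : Fin L => g (i + j)).det : ℤ) : ℂ) := by
    rw [Int.cast_det]; rfl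
  rw [hcast, Complex.norm_intCast] at hbound
  have : |(Matrix.of fun i j : Fin L => g (i + j)).det| < 1 := by exact_mod_cast hbound
  exact Int.abs_lt_one_iff.mp this

end Pool.Agent.MP_12a475_nt.H58
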