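import Mathlib

set_option autoImplicit false

open Complex Set Filter Topology Real
open scoped Manifold ContDiff

namespace Pool.Agent.MP_12a475_nt.H58

/-- smooth modification of a function holomorphic off `K` -/
lemma exists_cutoff (K U : Set ℂ) (hK : IsClosed K) (hU : IsOpen U) (hKU : K ⊆ U)
    (f : ℂ → ℂ) (hf : DifferentiableOn ℂ f Kᶜ) :
    ∃ h : ℂ → ℂ, ContDiff ℝ 1 h ∧ (∀ z ∈ K, h =ᶠ[𝓝 z] 0) ∧ (∀ z, z ∉ U → h =ᶠ[𝓝 z] f) := by
  obtain ⟨χ, h0, h1, -⟩ := exists_contMDiffMap_zero_one_nhds_of_isClosed (n := 1) 𝓘(ℝ, ℂ) hK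
    hU.isClosed_compl (disjoint_compl_right_iff_subset.mpr hKU)
  have hχ : ContDiff ℝ 1 χ := χ.contMDiff.contDiff
  have hz : ∀ z ∈ K, (fun x => (χ x : ℂ) * f x) =ᶠ[𝓝 z] 0 := by
    intro z hz
    filter_upwards [h0.filter_mono (nhds_le_nhdsSet hz)] with x hx
    simp [hx]
  refine ⟨fun x => (χ x : ℂ) * f x, ?_, hz, ?_⟩
  · rw [contDiff_iff_contDiffAt]
    intro z
    by_cases hzK : z ∈ K
    · exact (contDiffAt_const (c := (0 : ℂ))).congr_of_eventuallyEq (hz z hzK)
    · have h2 : ContDiffAt ℝ 1 f z :=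
        ((hf.analyticAt (hK.isOpen_compl.mem_nhds hzK)).contDiffAt (n := 1)).restrict_scalars ℝ
      exact ((ofRealCLM.contDiff.comp hχ).contDiffAt).mul h2
  · intro z hzU
    filter_upwards [h1.filter_mono (nhds_le_nhdsSet (show z ∈ Uᶜ from hzU))] with x hx
    simp [hx]

/-- Contour integrals of `f * q` around `K` are controlled by the size of `q` near `K`. -/
theorem green_bound (K U : Set ℂ) (hK : IsClosed K) (hU : IsOpen U) (hKU : K ⊆ U) (h0 : (0 : ℂ) ∈ K)
    (f : ℂ → ℂ) (hf : DifferentiableOn ℂ f Kᶜ) (R : ℝ) (hR : 0 < R)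
    (hUR : ∀ z ∈ U, ‖z‖ < R) :
    ∃ M : ℝ, ∀ q : ℂ → ℂ, Differentiable ℂ q → ∀ S : ℝ, 0 ≤ S → (∀ z ∈ U, ‖q z‖ ≤ S) →
      ‖∮ z in C(0, R), f z * q z‖ ≤ M * S := by
  obtain ⟨h, hh, hh0, hh1⟩ := exists_cutoff K U hK hU hKU f hf
  obtain ⟨r, hr, hrz⟩ : ∃ r > 0, ∀ z : ℂ, ‖z‖ = r → h z = 0 := by
    obtain ⟨ε, hε, h2⟩ := Metric.eventually_nhds_iff.mp (hh0 0 h0)
    refine ⟨ε / 2, by positivity, fun z hz => h2 ?_⟩
    rw [dist_zero_right, hz]; linarith
  obtain ⟨a, rfl⟩ : ∃ a, Real.exp a = r := ⟨Real.log r, Real.exp_log hr⟩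
  obtain ⟨b, rfl⟩ : ∃ b, Real.exp b = R := ⟨Real.log R, Real.exp_log hR⟩
  set H : ℂ → ℂ := fun s => h (cexp s) * cexp s with hH
  have hexp : ContDiff ℝ 1 cexp := Complex.contDiff_exp
  have hHc : ContDiff ℝ 1 H := (hh.comp hexp).mul hexp
  have hHd : Differentiable ℝ H := hHc.differentiable (by norm_num)
  set Ψ : ℂ → ℂ := fun s => I • fderiv ℝ H s 1 - fderiv ℝ H s I with hΨ
  have hΨc : Continuous Ψ := by
    have := hHc.continuous_fderiv (by norm_num)
    exact ((this.clm_apply continuous_const).const_smul I).sub (this.clm_apply continuous_const)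
  have hΨ0 : ∀ s, cexp s ∉ U → Ψ s = 0 := by
    intro s hs
    have h1 : DifferentiableAt ℂ f (cexp s) :=
      hf.differentiableAt (hK.isOpen_compl.mem_nhds fun h => hs (hKU h))
    have h2 : DifferentiableAt ℂ h (cexp s) := h1.congr_of_eventuallyEq (hh1 _ hs)
    have h3 : DifferentiableAt ℂ H s :=
      (h2.comp s Complex.differentiableAt_exp).mul Complex.differentiableAt_exp
    simp only [hΨ]
    rw [h3.fderiv_restrictScalars ℝ]
    simp
  have hcpt : IsCompact ((uIcc a b) ×ℂ (uIcc (0 : ℝ) (2 * π))) :=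
    IsCompact.reProdIm isCompact_uIcc isCompact_uIcc
  obtain ⟨C, hC⟩ := hcpt.exists_bound_of_continuousOn hΨc.continuousOn
  refine ⟨|b - a| * (|2 * π - 0| * C), fun q hq S hS hqS => ?_⟩
  set G : ℂ → ℂ := fun s => H s * q (cexp s) with hG
  have hQ : Differentiable ℂ fun s => q (cexp s) := hq.comp Complex.differentiable_exp
  have hQ' : Differentiable ℝ fun s => q (cexp s) := hQ.restrictScalars ℝ
  have hGd : Differentiable ℝ G := hHd.mul hQ'
  have hG' : ∀ s, I • fderiv ℝ G s 1 - fderiv ℝ G s I = Ψ s * q (cexp s) := by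
    intro s
    simp only [hG, hΨ]
    rw [fderiv_fun_mul (hHd s) (hQ' s), (hQ s).fderiv_restrictScalars ℝ]
    simp
    ring
  have key := integral_boundary_rect_of_differentiableOn_real G ⟨a, 0⟩ ⟨b, 2 * π⟩
    hGd.differentiableOn (by
      simp only [hG']
      exact (hΨc.mul hQ.continuous).continuousOn.integrableOn_compact hcpt)
  simp only [hG'] at key
  have e1 : ∀ x : ℝ, G (x + ((2 * π : ℝ) : ℂ) * I) = G (x + ((0 : ℝ) : ℂ) * I) := by
    intro x
    have : cexp (x + ((2 * π : ℝ) : ℂ) * I) = cexp (x + ((0 : ℝ) : ℂ) * I) := by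
      push_cast
      rw [Complex.exp_periodic]; simp
    simp only [hG, hH, this]
  have e2 : ∀ y : ℝ, G (a + y * I) = 0 := by
    intro y
    have : h (cexp (a + y * I)) = 0 := hrz _ (by simp [Complex.norm_exp])
    simp [hG, hH, this]
  have e3 : (∮ z in C(0, Real.exp b), f z * q z) = I • ∫ y : ℝ in (0 : ℝ)..(2 * π), G (b + y * I) := by
    rw [circleIntegral, ← intervalIntegral.integral_smul]
    refine intervalIntegral.integral_congr fun y _ => ?_
    have h1 : circleMap 0 (Real.exp b) y = cexp (b + y * I) := by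
      simp [circleMap, Complex.exp_add]
    have h2 : h (cexp (b + y * I)) = f (cexp (b + y * I)) := by
      refine (hh1 _ fun hu => ?_).eq_of_nhds
      have := hUR _ hu
      simp [Complex.norm_exp] at this
    simp only [deriv_circleMap, h1, hG, hH, h2, smul_eq_mul]
    ring
  simp only [e1, e2, sub_self, zero_add, intervalIntegral.integral_zero, smul_zero, sub_zero] at key
  rw [e3, key]
  have hC0 : 0 ≤ C := (norm_nonneg _).trans (hC ⟨a, 0⟩ ⟨left_mem_uIcc, left_mem_uIcc⟩)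
  have b1 : ∀ x ∈ uIoc a b, ‖∫ y : ℝ in (0 : ℝ)..(2 * π), Ψ (x + y * I) * q (cexp (x + y * I))‖
      ≤ (C * S) * |2 * π - 0| := by
    intro x hx
    refine intervalIntegral.norm_integral_le_of_norm_le_const fun y hy => ?_
    by_cases hu : cexp (x + y * I) ∈ U
    · rw [norm_mul]
      refine mul_le_mul (hC _ ⟨?_, ?_⟩) (hqS _ hu) (norm_nonneg _) hC0
      · simpa using uIoc_subset_uIcc hx
      · simpa using uIoc_subset_uIcc hy
    · rw [hΨ0 _ hu]; simp; positivity
  refine (intervalIntegral.norm_integral_le_of_norm_le_const b1).trans (le_of_eq ?_)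
  ring

end Pool.Agent.MP_12a475_nt.H58
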