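import Mathlib

set_option autoImplicit false

open Polynomial

namespace Pool.Agent.MP_12a475_nt.H58

variable {K : Type*} [Field K]

/-- a vanishing Hankel determinant gives a Padé approximant -/
lemma pade_of_det (g : PowerSeries K) (L : ℕ)
    (h : (Matrix.of fun i j : Fin L => PowerSeries.coeff ((i : ℕ) + j + 1) g).det = 0) :
    ∃ p q : K[X], q ≠ 0 ∧ q.degree < L ∧ p.degree < L ∧
      (PowerSeries.X : PowerSeries K) ^ (2 * L) ∣ (q : PowerSeries K) * g - p := by
  obtain ⟨c, hc0, hc⟩ := Matrix.exists_mulVec_eq_zero_iff.mpr h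
  set q : K[X] := ∑ j : Fin L, monomial (L - 1 - j) (c j) with hq
  have hqc : ∀ j : Fin L, q.coeff (L - 1 - j) = c j := by
    intro j
    rw [hq, finsetSum_coeff, Finset.sum_eq_single j]
    · simp
    · intro b _ hb
      rw [coeff_monomial, if_neg]
      intro h1
      apply hb
      ext
      have := b.2
      have := j.2
      omega
    · simp
  refine ⟨PowerSeries.trunc L ((q : PowerSeries K) * g), q, ?_, ?_, PowerSeries.degree_trunc_lt _ _, ?_⟩
  · intro h0
    apply hc0
    funext j
    rw [← hqc j, h0]; simp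
  · rw [hq]
    refine lt_of_le_of_lt (degree_sum_le _ _) ?_
    refine (Finset.sup_lt_iff (WithBot.bot_lt_coe L)).mpr ?_
    intro j _
    refine lt_of_le_of_lt (degree_monomial_le _ _) ?_
    have := j.2
    exact WithBot.coe_lt_coe.mpr (by omega : L - 1 - j < L)
  · rw [PowerSeries.X_pow_dvd_iff]
    intro m hm
    rw [map_sub, Polynomial.coeff_coe, PowerSeries.coeff_trunc]
    split_ifs with h1
    · simp
    · have h2 := congrFun hc ⟨m - L, by omega⟩
      simp only [Matrix.mulVec, dotProduct, Matrix.of_apply, Pi.zero_apply] at h2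
      rw [sub_zero, ← h2, hq]
      have : ((∑ j : Fin L, monomial (L - 1 - j) (c j) : K[X]) : PowerSeries K)
          = ∑ j : Fin L, PowerSeries.monomial (L - 1 - j) (c j) := by
        rw [← Polynomial.coeToPowerSeries.ringHom_apply, map_sum]
        simp [Polynomial.coe_monomial]
      rw [this, Finset.sum_mul, map_sum]
      refine Finset.sum_congr rfl fun j _ => ?_
      have hj := j.2
      rw [PowerSeries.monomial_eq_C_mul_X_pow, mul_assoc, PowerSeries.coeff_C_mul,
        PowerSeries.coeff_X_pow_mul', if_pos (by omega), mul_comm,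
        show m - (L - 1 - (j : ℕ)) = m - L + j + 1 by omega]

lemma poly_eq_zero_of_dvd (p : K[X]) (n : ℕ) (hd : p.degree < n)
    (h : (PowerSeries.X : PowerSeries K) ^ n ∣ (p : PowerSeries K)) : p = 0 := by
  ext m
  rcases lt_or_ge m n with hm | hm
  · have := PowerSeries.X_pow_dvd_iff.mp h m hm
    simpa [Polynomial.coeff_coe] using this
  · exact coeff_eq_zero_of_degree_lt (lt_of_lt_of_le hd (by exact_mod_cast hm))

lemma degree_mul_lt_of (a b : K[X]) (m n : ℕ) (ha : a.degree < m) (hb : b.degree < (n + 1 : ℕ)) :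
    (a * b).degree < (m + n : ℕ) := by
  rcases eq_or_ne a 0 with rfl | ha0
  · simp
  rcases eq_or_ne b 0 with rfl | hb0
  · simp
  rw [degree_eq_natDegree ha0] at ha
  rw [degree_eq_natDegree hb0] at hb
  rw [degree_eq_natDegree (mul_ne_zero ha0 hb0), natDegree_mul ha0 hb0]
  have h1 : a.natDegree < m := by exact_mod_cast ha
  have h2 : b.natDegree < n + 1 := by exact_mod_cast hb
  exact_mod_cast (by omega : a.natDegree + b.natDegree < m + n)

/-- Kronecker's rationality criterion. -/
theorem kronecker (g : PowerSeries K) (L0 : ℕ)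
    (h : ∀ L, L0 ≤ L →
      (Matrix.of fun i j : Fin L => PowerSeries.coeff ((i : ℕ) + j + 1) g).det = 0) :
    ∃ p q : K[X], q ≠ 0 ∧ (q : PowerSeries K) * g = p := by
  choose! p q hq0 hqd hpd hdv using fun L hL => pade_of_det g L (h L hL)
  have step : ∀ L, L0 ≤ L → q (L + 1) * p L = q L * p (L + 1) := by
    intro L hL
    rw [← sub_eq_zero]
    apply poly_eq_zero_of_dvd _ (2 * L)
    · refine lt_of_le_of_lt (degree_sub_le _ _) (max_lt ?_ ?_)
      · rw [mul_comm, two_mul]
        exact degree_mul_lt_of _ _ L L (hpd L hL) (hqd (L + 1) (by omega))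
      · rw [two_mul]
        exact degree_mul_lt_of _ _ L L (hqd L hL) (hpd (L + 1) (by omega))
    · have h1 := hdv L hL
      have h2 := (pow_dvd_pow PowerSeries.X (by omega : 2 * L ≤ 2 * (L + 1))).trans
        (hdv (L + 1) (by omega))
      have := (h2.mul_left (q L : PowerSeries K)).sub (h1.mul_left (q (L + 1) : PowerSeries K))
      convert this using 1
      push_cast
      ring
  have chain : ∀ L, L0 ≤ L → q L * p L0 = q L0 * p L := by
    intro L hL
    induction L, hL using Nat.le_induction with
    | base => rfl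
    | succ L hL ih =>
      apply mul_left_cancel₀ (hq0 L hL)
      linear_combination q (L + 1) * ih + q L0 * step L hL
  refine ⟨p L0, q L0, hq0 L0 le_rfl, ?_⟩
  rw [← sub_eq_zero]
  set D : PowerSeries K := (q L0 : PowerSeries K) * g - p L0 with hD
  by_contra hne
  have hfin : D.order < ⊤ := PowerSeries.order_finite_iff_ne_zero.mpr hne
  obtain ⟨k, hk⟩ := ENat.ne_top_iff_exists.mp hfin.ne
  set L := L0 + k with hL
  have h1 : (PowerSeries.X : PowerSeries K) ^ (2 * L) ∣ (q L : PowerSeries K) * D := by
    have := (hdv L (by omega)).mul_left (q L0 : PowerSeries K)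
    convert this using 1
    have h3 := congrArg (fun x : K[X] => (x : PowerSeries K)) (chain L (by omega))
    simp only [Polynomial.coe_mul] at h3
    rw [hD]
    linear_combination -h3
  have h2 : ((2 * L : ℕ) : ℕ∞) ≤ ((q L : PowerSeries K) * D).order :=
    PowerSeries.nat_le_order _ _ (PowerSeries.X_pow_dvd_iff.mp h1)
  rw [PowerSeries.order_mul, ← hk] at h2
  have h3 : (q L : PowerSeries K).order ≤ ((q L).natDegree : ℕ∞) := by
    apply PowerSeries.order_le
    rw [Polynomial.coeff_coe]
    exact mt leadingCoeff_eq_zero.mp (hq0 L (by omega))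
  have h4 : (q L).natDegree < L := by
    have := hqd L (by omega)
    rw [degree_eq_natDegree (hq0 L (by omega))] at this
    exact_mod_cast this
  have h5 : ((2 * L : ℕ) : ℕ∞) ≤ (((q L).natDegree + k : ℕ) : ℕ∞) := by
    refine h2.trans ?_
    push_cast
    gcongr
  have h6 : 2 * L ≤ (q L).natDegree + k := by exact_mod_cast h5
  omega

end Pool.Agent.MP_12a475_nt.H58
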