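import Mathlib
import Pool.Agent.Lib.MP_12a475_nt.H58Kron
import Pool.Agent.Lib.MP_12a475_nt.H58Det
import Pool.Agent.Lib.MP_12a475_nt.H58Green
import Pool.Agent.Lib.MP_12a475_nt.H58Coeff

set_option autoImplicit false

open Complex Set Filter Topology Real Polynomial

namespace Pool.Agent.MP_12a475_nt.H58

/-- branch of `sqrt ((1 - b/x)(1 - b'/x))` off the segment `[b', b]` and `0`. -/
noncomputable def br (p : ℂ × ℂ) (x : ℂ) : ℂ :=
  cexp (Complex.log ((x - p.1) / (x - p.2)) / 2) * (1 - p.2 * x⁻¹)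

lemma ne_of_not_seg {b b' x : ℂ} (hx : x ∉ segment ℝ b' b) : x - b' ≠ 0 := by
  intro h
  apply hx
  rw [sub_eq_zero.mp h]
  exact left_mem_segment ℝ b' b

lemma slit {b b' x : ℂ} (hx : x ∉ segment ℝ b' b) : (x - b) / (x - b') ∈ slitPlane := by
  have h1 := ne_of_not_seg hx
  by_contra hs
  rw [mem_slitPlane_iff, not_or, not_lt, not_not] at hs
  obtain ⟨h2, h3⟩ := hs
  set t : ℝ := -((x - b) / (x - b')).re with ht
  have ht0 : 0 ≤ t := by rw [ht]; linarith
  have h4 : (x - b) / (x - b') = -(t : ℂ) := by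
    apply Complex.ext
    · simp [ht]
    · simp [h3]
  rw [div_eq_iff h1] at h4
  apply hx
  have h5 : (1 + t : ℝ) ≠ 0 := by positivity
  have h6 : (1 + t : ℂ) ≠ 0 := by exact_mod_cast h5
  refine ⟨t / (1 + t), 1 / (1 + t), by positivity, by positivity, by field_simp; ring, ?_⟩
  simp only [real_smul]
  push_cast
  field_simp
  linear_combination -h4

lemma br_diff (p : ℂ × ℂ) {x : ℂ} (hx : x ∉ segment ℝ p.2 p.1) (h0 : x ≠ 0) :
    DifferentiableAt ℂ (br p) x := by
  have h1 := ne_of_not_seg hx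
  have h2 : DifferentiableAt ℂ (fun x : ℂ => (x - p.1) / (x - p.2)) x := by fun_prop (disch := assumption)
  have h3 := (h2.clog (slit hx)).div_const 2
  exact h3.cexp.mul (by fun_prop (disch := assumption))

lemma br_sq (p : ℂ × ℂ) {x : ℂ} (hx : x ∉ segment ℝ p.2 p.1) (h0 : x ≠ 0) :
    br p x ^ 2 = (1 - p.1 * x⁻¹) * (1 - p.2 * x⁻¹) := by
  have h1 := ne_of_not_seg hx
  have h2 := slitPlane_ne_zero (slit hx)
  rw [br, mul_pow, ← Complex.exp_nat_mul]
  rw [show ((2 : ℕ) : ℂ) * (Complex.log ((x - p.1) / (x - p.2)) / 2)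
    = Complex.log ((x - p.1) / (x - p.2)) by push_cast; ring, Complex.exp_log h2]
  field_simp

lemma br_lim (p : ℂ × ℂ) : Tendsto (br p) (Bornology.cobounded ℂ) (𝓝 1) := by
  have hinv : Tendsto (fun z : ℂ => z⁻¹) (Bornology.cobounded ℂ) (𝓝 0) := tendsto_inv₀_cobounded
  have h1 : ∀ b : ℂ, Tendsto (fun z : ℂ => 1 - b * z⁻¹) (Bornology.cobounded ℂ) (𝓝 1) := by
    intro b
    simpa using (hinv.const_mul b).const_sub 1
  have h2 : Tendsto (fun z : ℂ => (z - p.1) / (z - p.2)) (Bornology.cobounded ℂ) (𝓝 1) := by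
    have h3 := (h1 p.1).div (h1 p.2) one_ne_zero
    rw [div_one] at h3
    refine h3.congr' ?_
    filter_upwards [Bornology.eventually_ne_cobounded (0 : ℂ)] with z hz
    simp only [Pi.div_apply]
    rw [show 1 - p.1 * z⁻¹ = (z - p.1) * z⁻¹ by field_simp,
      show 1 - p.2 * z⁻¹ = (z - p.2) * z⁻¹ by field_simp, mul_div_mul_right _ _ (inv_ne_zero hz)]
  have h4 := ((h2.clog (by simp)).div_const 2).cexp.mul (h1 p.2)
  simp only [Complex.log_one, zero_div, Complex.exp_zero, mul_one] at h4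
  exact h4

lemma diff_multiset_prod {ι : Type*} (Z : Multiset ι) (F : ι → ℂ → ℂ) (x : ℂ)
    (h : ∀ p ∈ Z, DifferentiableAt ℂ (F p) x) :
    DifferentiableAt ℂ (fun y => (Z.map fun p => F p y).prod) x := by
  induction Z using Multiset.induction_on with
  | empty => simp
  | cons a s ih =>
    simp only [Multiset.map_cons, Multiset.prod_cons]
    exact (h a (by simp)).mul (ih fun p hp => h p (by simp [hp]))

/-- Pólya–Carlson for `sqrt (∏ (1 - b w)(1 - b' w))`. -/
theorem rational_of_small (Z : Multiset (ℂ × ℂ)) (g : PowerSeries ℤ)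
    (hg0 : PowerSeries.constantCoeff g = 1)
    (hg : (PowerSeries.map (Int.castRingHom ℂ) g) ^ 2
      = (((Z.map fun p => (1 - C p.1 * X) * (1 - C p.2 * X)).prod : ℂ[X]) : PowerSeries ℂ))
    (B : ℂ[X]) (hB : B.Monic) (hD : 0 < B.natDegree) (θ : ℝ) (hθ1 : θ < 1)
    (h0 : ‖B.eval 0‖ ≤ θ) (hK : ∀ p ∈ Z, ∀ z ∈ segment ℝ p.2 p.1, ‖B.eval z‖ ≤ θ) :
    ∃ p q : ℂ[X], q ≠ 0 ∧ (q : PowerSeries ℂ) * PowerSeries.map (Int.castRingHom ℂ) g = p := by
  classical
  set G := PowerSeries.map (Int.castRingHom ℂ) g with hG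
  set K : Set ℂ := {0} ∪ ⋃ p ∈ Z.toFinset, segment ℝ p.2 p.1 with hKdef
  have hKc : IsCompact K := by
    refine isCompact_singleton.union (Z.toFinset.isCompact_biUnion fun p _ => ?_)
    rw [segment_eq_image]
    exact isCompact_Icc.image (by fun_prop)
  have hmem : ∀ x, x ∉ K → x ≠ 0 ∧ ∀ p ∈ Z, x ∉ segment ℝ p.2 p.1 := by
    intro x hx
    simp only [hKdef, mem_union, mem_singleton_iff, mem_iUnion, not_or, not_exists,
      Multiset.mem_toFinset] at hx
    exact hx
  obtain ⟨R0, hR0⟩ := hKc.isBounded.exists_norm_le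
  set R : ℝ := |R0| + 1 with hR
  have hR1 : 1 ≤ R := by rw [hR]; linarith [abs_nonneg R0]
  have hKR : ∀ z ∈ K, ‖z‖ < R := fun z hz => by linarith [hR0 z hz, le_abs_self R0]
  set θ' : ℝ := (θ + 1) / 2 with hθ'
  have hθ0 : 0 ≤ θ := (norm_nonneg _).trans h0
  set U : Set ℂ := {z | ‖B.eval z‖ < θ'} ∩ {z | ‖z‖ < R} with hU
  have hUo : IsOpen U :=
    (isOpen_lt B.continuous.norm continuous_const).inter (isOpen_lt continuous_norm continuous_const)
  have hKU : K ⊆ U := by
    intro z hz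
    refine ⟨?_, hKR z hz⟩
    have : ‖B.eval z‖ ≤ θ := by
      rcases hz with hz | hz
      · rw [mem_singleton_iff.mp hz]; exact h0
      · simp only [mem_iUnion, Multiset.mem_toFinset] at hz
        obtain ⟨p, hp, hz⟩ := hz
        exact hK p hp z hz
    show ‖B.eval z‖ < θ'
    rw [hθ']; linarith
  set f : ℂ → ℂ := fun x => (Z.map fun p => br p x).prod with hf
  have hfd : ∀ x, x ∉ K → DifferentiableAt ℂ f x := fun x hx =>
    diff_multiset_prod Z br x fun p hp => br_diff p ((hmem x hx).2 p hp) (hmem x hx).1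
  have hout : ∀ z : ℂ, R ≤ ‖z‖ → z ∉ K := fun z hz h => (hKR z h).not_ge hz
  have hlim : Tendsto f (Bornology.cobounded ℂ) (𝓝 1) := by
    have := tendsto_multiset_prod (x := Bornology.cobounded ℂ) (f := fun p x => br p x)
      (a := fun _ => (1 : ℂ)) Z fun p _ => br_lim p
    simpa using this
  have hsq : ∀ z : ℂ, R ≤ ‖z‖ →
      f z ^ 2 = ((Z.map fun p => (1 - C p.1 * X) * (1 - C p.2 * X)).prod : ℂ[X]).eval z⁻¹ := by
    intro z hz
    obtain ⟨a1, a2⟩ := hmem z (hout z hz)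
    rw [hf, eval_multiset_prod, ← Multiset.prod_map_pow, Multiset.map_map]
    congr 1
    refine Multiset.map_congr rfl fun p hp => ?_
    rw [br_sq p (a2 p hp) a1]
    simp
  have hR0' : 0 < R := by linarith
  obtain ⟨M, hM⟩ := green_bound K U hKc.isClosed hUo hKU (Or.inl rfl) f
    (fun x hx => (hfd x hx).differentiableWithinAt) R hR0' fun z hz => hz.2
  have hint : ∀ q : ℂ[X], CircleIntegrable (fun z => f z * q.eval z) 0 R := by
    intro q
    refine ContinuousOn.circleIntegrable hR0'.le fun z hz => ?_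
    exact ((hfd z (hout z (mem_sphere_zero_iff_norm.mp hz).ge)).continuousAt.mul
      q.continuous.continuousAt).continuousWithinAt
  let Λ : ℂ[X] →ₗ[ℂ] ℂ :=
    { toFun := fun q => (2 * π * I : ℂ)⁻¹ * ∮ z in C(0, R), f z * q.eval z
      map_add' := fun p q => by
        simp only [eval_add, mul_add]
        rw [circleIntegral.integral_add (hint p) (hint q), mul_add]
      map_smul' := fun a q => by
        simp only [eval_smul, smul_eq_mul, RingHom.id_apply, mul_left_comm _ a]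
        rw [circleIntegral.integral_const_mul]; ring }
  have hΛ : ∀ m, Λ (X ^ m) = ((PowerSeries.coeff (m + 1) g : ℤ) : ℂ) := by
    intro m
    have := circle_coeff f R hR0' (fun z hz => hfd z (hout z hz)) hlim _ hsq G
      (by rw [hG, ← PowerSeries.coeff_zero_eq_constantCoeff_apply, PowerSeries.coeff_map,
        PowerSeries.coeff_zero_eq_constantCoeff_apply, hg0]; simp) hg m
    show (2 * π * I : ℂ)⁻¹ * (∮ z in C(0, R), f z * (X ^ m : ℂ[X]).eval z) = _
    simp only [eval_pow, eval_X]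
    rw [this, inv_mul_cancel_left₀ Complex.two_pi_I_ne_zero, hG, PowerSeries.coeff_map]
    simp
  obtain ⟨L0, hL0⟩ := det_eventually_zero Λ (fun m => PowerSeries.coeff (m + 1) g) hΛ B hB hD θ'
    (‖(2 * π * I : ℂ)⁻¹‖ * (M * R ^ (2 * B.natDegree))) (by rw [hθ']; linarith)
    (by rw [hθ']; linarith) (by
      intro k c hc
      have h1 := hM (fun z => (B ^ k * X ^ c : ℂ[X]).eval z) (Polynomial.differentiable _)
        (θ' ^ k * R ^ (2 * B.natDegree)) (by positivity) (by
          intro z hz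
          simp only [eval_mul, eval_pow, eval_X, norm_mul, norm_pow]
          refine mul_le_mul (pow_le_pow_left₀ (norm_nonneg _) (le_of_lt hz.1) k) ?_
            (by positivity) (by positivity)
          exact (pow_le_pow_left₀ (norm_nonneg _) (le_of_lt hz.2) c).trans
            (pow_le_pow_right₀ hR1 hc.le))
      show ‖(2 * π * I : ℂ)⁻¹ * ∮ z in C(0, R), f z * (B ^ k * X ^ c : ℂ[X]).eval z‖ ≤ _
      rw [norm_mul]
      refine (mul_le_mul_of_nonneg_left h1 (norm_nonneg _)).trans (le_of_eq (by ring)))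
  refine kronecker G L0 fun L hL => ?_
  have h2 := congrArg (Int.cast : ℤ → ℂ) (hL0 L hL)
  rw [Int.cast_det, Int.cast_zero] at h2
  rw [← h2]
  congr 1

lemma not_square (u : ℂ) (hu : u ≠ 0) (S p q : ℂ[X]) (hS : S.eval u⁻¹ ≠ 0) (hq : q ≠ 0)
    (h : q ^ 2 * ((1 - C u * X) * S) = p ^ 2) : False := by
  have hS0 : S ≠ 0 := by rintro rfl; simp at hS
  have e : (1 - C u * X : ℂ[X]) = C (-u) * (X - C u⁻¹) := by
    rw [mul_sub, ← C_mul, neg_mul, mul_inv_cancel₀ hu]; simp; ring
  have h1 : (C (-u) : ℂ[X]) ≠ 0 := by simpa using hu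
  have h2 : (X - C u⁻¹ : ℂ[X]) ≠ 0 := X_sub_C_ne_zero _
  have h3 : q ^ 2 * ((1 - C u * X) * S) ≠ 0 := by
    rw [e]; exact mul_ne_zero (pow_ne_zero _ hq) (mul_ne_zero (mul_ne_zero h1 h2) hS0)
  have hp : p ≠ 0 := by rintro rfl; apply h3; rw [h]; simp
  have h4 := congrArg (rootMultiplicity u⁻¹) h
  rw [e, sq, sq, rootMultiplicity_mul (by rw [← sq, ← e]; exact h3),
    rootMultiplicity_mul (mul_ne_zero hq hq), rootMultiplicity_mul (mul_ne_zero hp hp),
    rootMultiplicity_mul (mul_ne_zero (mul_ne_zero h1 h2) hS0),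
    rootMultiplicity_mul (mul_ne_zero h1 h2), rootMultiplicity_C, rootMultiplicity_X_sub_C_self,
    rootMultiplicity_eq_zero hS] at h4
  omega

end Pool.Agent.MP_12a475_nt.H58
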