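import Mathlib

set_option autoImplicit false

open Polynomial

namespace Pool.Agent.MP_12a475_nt.H58

/-- even/odd decomposition -/
lemma exists_even_odd {R : Type*} [CommRing R] (p : R[X]) :
    ∃ E O : R[X], p = expand R 2 E + X * expand R 2 O := by
  induction p using Polynomial.induction_on' with
  | add p q hp hq =>
    obtain ⟨E, O, rfl⟩ := hp
    obtain ⟨E', O', rfl⟩ := hq
    exact ⟨E + E', O + O', by simp only [map_add]; ring⟩
  | monomial n a =>
    rcases Nat.even_or_odd' n with ⟨k, rfl | rfl⟩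
    · refine ⟨monomial k a, 0, ?_⟩
      simp [expand_monomial, mul_comm]
    · refine ⟨0, monomial k a, ?_⟩
      simp [expand_monomial, mul_comm k 2, X_mul, monomial_mul_X]

lemma sq_expand_mod_two (E : ℤ[X]) : ∃ t : ℤ[X], E ^ 2 = expand ℤ 2 E + 2 * t := by
  induction E using Polynomial.induction_on' with
  | add p q hp hq =>
    obtain ⟨t, ht⟩ := hp
    obtain ⟨s, hs⟩ := hq
    exact ⟨t + s + p * q, by rw [map_add]; linear_combination ht + hs⟩
  | monomial n a =>
    obtain ⟨k, hk⟩ : ∃ k : ℤ, a ^ 2 = a + 2 * k := by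
      obtain ⟨k, hk⟩ := Int.even_mul_pred_self a
      exact ⟨k, by linear_combination hk⟩
    refine ⟨monomial (n * 2) k, ?_⟩
    rw [expand_monomial, monomial_pow, hk, map_add]
    congr 1
    rw [show (2 : ℤ[X]) = C 2 from rfl, C_mul_monomial]

/-- `p(-X)`. -/
noncomputable abbrev neg' {R : Type*} [CommRing R] (p : R[X]) : R[X] := p.comp (-X)

lemma neg'_expand {R : Type*} [CommRing R] (E : R[X]) : neg' (expand R 2 E) = expand R 2 E := by
  simp [neg', expand_eq_comp_X_pow, comp_assoc]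

/-- Graeffe transform exists: `q(X^2) = p(X) p(-X)`, and for integer `p`, `q ≡ p (mod 2)`. -/
lemma exists_graeffe (p : ℤ[X]) :
    ∃ q t : ℤ[X], expand ℤ 2 q = p * neg' p ∧ q = p + 2 * t := by
  obtain ⟨E, O, hp⟩ := exists_even_odd p
  obtain ⟨t, ht⟩ := sq_expand_mod_two E
  obtain ⟨s, hs⟩ := sq_expand_mod_two O
  refine ⟨E ^ 2 - X * O ^ 2, t - X * s - X * expand ℤ 2 O, ?_, ?_⟩
  · have h1 : neg' p = expand ℤ 2 E - X * expand ℤ 2 O := by
      have h2 := neg'_expand E
      have h3 := neg'_expand O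
      simp only [neg'] at h2 h3 ⊢
      rw [hp, add_comp, mul_comp, h2, h3, X_comp]; ring
    rw [h1]
    conv_rhs => rw [hp]
    simp only [map_sub, map_mul, map_pow, expand_X]; ring
  · rw [ht, hs]; conv_rhs => rw [hp]
    ring

/-- Dimitrov's congruence: the second Graeffe transform is congruent to the first mod 4. -/
lemma exists_graeffe_two (p : ℤ[X]) :
    ∃ q r v : ℤ[X], expand ℤ 2 q = p * neg' p ∧ expand ℤ 2 r = q * neg' q ∧ r = q + 4 * v := by
  obtain ⟨q, t, hq, hqt⟩ := exists_graeffe p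
  obtain ⟨r, -, hr, -⟩ := exists_graeffe q
  obtain ⟨E, O, hs⟩ := exists_even_odd (t * neg' p)
  obtain ⟨u, -, hu, -⟩ := exists_graeffe t
  refine ⟨q, r, E + u, hq, hr, ?_⟩
  apply expand_injective (show 0 < 2 by norm_num)
  have h1 : neg' t * p = expand ℤ 2 E - X * expand ℤ 2 O := by
    have h2 := neg'_expand E
    have h3 := neg'_expand O
    have h4 := congrArg neg' hs
    simp only [neg'] at h2 h3 h4 ⊢
    rw [add_comp, mul_comp, mul_comp, h2, h3, X_comp, comp_assoc] at h4
    simp only [neg_comp, X_comp, neg_neg, comp_X] at h4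
    rw [h4]; ring
  have h5 : neg' q = neg' p + 2 * neg' t := by
    simp only [neg']; rw [hqt]; simp
  have h4 : expand ℤ 2 (4 : ℤ[X]) = 4 := by
    rw [show (4 : ℤ[X]) = C 4 from rfl, expand_C]
  rw [hr, map_add, map_mul, map_add, hq, hu, h4, h5]
  conv_lhs => rw [hqt]
  linear_combination 2 * hs + 2 * h1

/-- `y + y^2 = u` is solvable in integer power series when `u(0) = 0`. -/
lemma exists_quad (u : PowerSeries ℤ) (hu : PowerSeries.constantCoeff u = 0) :
    ∃ y : PowerSeries ℤ, PowerSeries.constantCoeff y = 0 ∧ y + y ^ 2 = u := by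
  have hs : PowerSeries.HasSubst (-u) := PowerSeries.HasSubst.of_constantCoeff_zero' (by simp [hu])
  set c : PowerSeries ℤ := PowerSeries.map (Nat.castRingHom ℤ) PowerSeries.catalanSeries with hc
  have h1 : c ^ 2 * PowerSeries.X + 1 = c := by
    have := congrArg (PowerSeries.map (Nat.castRingHom ℤ))
      PowerSeries.catalanSeries_sq_mul_X_add_one
    simpa [hc] using this
  set d : PowerSeries ℤ := PowerSeries.substAlgHom hs c with hd
  have h2 : d ^ 2 * (-u) + 1 = d := by
    have := congrArg (PowerSeries.substAlgHom (R := ℤ) hs) h1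
    simpa [hd, PowerSeries.substAlgHom_X] using this
  refine ⟨u * d, by simp [hu], ?_⟩
  linear_combination (-u) * h2

/-- integral square root of `q * r` when `r ≡ q (mod 4)` and `q(0) = r(0) = 1`. -/
lemma exists_sqrt (q v : ℤ[X]) (hq : q.coeff 0 = 1) (hv : v.coeff 0 = 0) :
    ∃ g : PowerSeries ℤ, PowerSeries.constantCoeff g = 1 ∧
      g ^ 2 = ((q * (q + 4 * v) : ℤ[X]) : PowerSeries ℤ) := by
  have hq' : PowerSeries.constantCoeff (q : PowerSeries ℤ) = ((1 : ℤˣ) : ℤ) := by
    rw [Polynomial.constantCoeff_coe]; simpa using hq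
  have hinv := PowerSeries.mul_invOfUnit (q : PowerSeries ℤ) 1 hq'
  obtain ⟨y, hy0, hy⟩ := exists_quad ((v : PowerSeries ℤ) * PowerSeries.invOfUnit (q : PowerSeries ℤ) 1)
    (by rw [map_mul, Polynomial.constantCoeff_coe, hv, zero_mul])
  refine ⟨(q : PowerSeries ℤ) * (1 + 2 * y), ?_, ?_⟩
  · simp [hq', hy0]
  · have h4 : ((4 : ℤ[X]) : PowerSeries ℤ) = 4 := by
      rw [show (4 : ℤ[X]) = C 4 from rfl, Polynomial.coe_C]; rfl
    push_cast
    rw [h4]
    linear_combination 4 * (q : PowerSeries ℤ) ^ 2 * hy + 4 * (q : PowerSeries ℤ) * v * hinv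

end Pool.Agent.MP_12a475_nt.H58
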