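import Mathlib

set_option autoImplicit false

open Polynomial Finset

namespace Pool.Agent.MP_12a475_nt.H58

lemma prim (L : ℕ) (hL : 0 < L) : ∃ ζ : ℂ, IsPrimitiveRoot ζ L :=
  ⟨_, Complex.isPrimitiveRoot_exp L hL.ne'⟩

lemma norm_root {L : ℕ} (hL : 0 < L) {w : ℂ} (hw : w ∈ nthRootsFinset L (1 : ℂ)) : ‖w‖ = 1 :=
  Complex.norm_eq_one_of_pow_eq_one ((mem_nthRootsFinset hL 1).mp hw) hL.ne'

lemma sum_inv_roots (L : ℕ) (hL : 0 < L) (z : ℂ) (hz : z ^ L ≠ 1) :
    ∑ w ∈ nthRootsFinset L (1 : ℂ), w / (w - z) = L / (1 - z ^ L) := by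
  obtain ⟨ζ, hζ⟩ := prim L hL
  have hne : ∀ w ∈ nthRootsFinset L (1 : ℂ), z - w ≠ 0 := by
    intro w hw h
    apply hz
    rw [sub_eq_zero.mp h]
    exact (mem_nthRootsFinset hL 1).mp hw
  have h1 : (fun x : ℂ => ∏ w ∈ nthRootsFinset L (1 : ℂ), (x - w)) = fun x => x ^ L - 1 := by
    funext x
    have := congrArg (Polynomial.eval x) (X_pow_sub_one_eq_prod hL hζ)
    simpa [eval_prod] using this.symm
  have h2 := logDeriv_prod (s := nthRootsFinset L (1 : ℂ)) (f := fun w x : ℂ => x - w) (x := z) hne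
    (fun w _ => by fun_prop)
  rw [h1] at h2
  have h3 : logDeriv (fun x : ℂ => x ^ L - 1) z = L * z ^ (L - 1) / (z ^ L - 1) := by
    rw [logDeriv_apply]; simp
  have h4 : ∀ w : ℂ, logDeriv (fun x : ℂ => x - w) z = 1 / (z - w) := by
    intro w; rw [logDeriv_apply]; simp
  simp only [h3, h4] at h2
  have h5 : ∀ w ∈ nthRootsFinset L (1 : ℂ), w / (w - z) = 1 - z * (1 / (z - w)) := by
    intro w hw
    have := hne w hw
    have h' : w - z ≠ 0 := fun h => this (by linear_combination -h)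
    field_simp
    ring
  rw [Finset.sum_congr rfl h5, Finset.sum_sub_distrib, ← Finset.mul_sum, ← h2]
  simp only [Finset.sum_const, hζ.card_nthRootsFinset, nsmul_eq_mul, mul_one]
  have h6 : z ^ L - 1 ≠ 0 := sub_ne_zero.mpr hz
  have h7 : 1 - z ^ L ≠ 0 := sub_ne_zero.mpr hz.symm
  have h8 : z * z ^ (L - 1) = z ^ L := by rw [← pow_succ']; congr 1; omega
  field_simp
  linear_combination (L : ℂ) * (z ^ L - 1) * h8

lemma poisson_pt (w z : ℂ) (hw : ‖w‖ = 1) (hne : w - z ≠ 0) :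
    (1 - ‖z‖ ^ 2) / ‖z - w‖ ^ 2 = 2 * (w / (w - z)).re - 1 := by
  have h1 : Complex.normSq (w - z) ≠ 0 := by simpa using hne
  have h2 : Complex.normSq w = 1 := by rw [Complex.normSq_eq_norm_sq, hw]; norm_num
  rw [norm_sub_rev, ← Complex.normSq_eq_norm_sq, ← Complex.normSq_eq_norm_sq, Complex.div_re]
  field_simp
  simp only [Complex.normSq_apply, Complex.sub_re, Complex.sub_im] at *
  linear_combination -h2

/-- Poisson-kernel bound for the sum over roots of unity. -/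
lemma poisson_sum (L : ℕ) (hL : 0 < L) (s : ℝ) (hs : 0 < s) (_hs1 : s ≤ 1)
    (hsL : (1 - s) ^ L ≤ 1 / 2) (z : ℂ) (hz : ‖z‖ ≤ 1 - s) :
    ∑ w ∈ nthRootsFinset L (1 : ℂ), 1 / ‖z - w‖ ^ 2 ≤ 3 * L / s := by
  obtain ⟨ζ, hζ⟩ := prim L hL
  have hzL : ‖z ^ L‖ ≤ 1 / 2 := by
    rw [norm_pow]; exact (pow_le_pow_left₀ (norm_nonneg _) hz L).trans hsL
  have hz1 : z ^ L ≠ 1 := by
    intro h; rw [h, norm_one] at hzL; norm_num at hzL
  have hne : ∀ w ∈ nthRootsFinset L (1 : ℂ), w - z ≠ 0 := by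
    intro w hw h
    have := norm_root hL hw
    rw [sub_eq_zero.mp h] at this
    linarith
  have h1 : ∑ w ∈ nthRootsFinset L (1 : ℂ), (1 - ‖z‖ ^ 2) / ‖z - w‖ ^ 2
      = 2 * ((L : ℂ) / (1 - z ^ L)).re - L := by
    rw [Finset.sum_congr rfl fun w hw => poisson_pt w z (norm_root hL hw) (hne w hw),
      Finset.sum_sub_distrib, ← Finset.mul_sum, ← Complex.re_sum, sum_inv_roots L hL z hz1]
    simp [hζ.card_nthRootsFinset]
  have h2 : ((L : ℂ) / (1 - z ^ L)).re ≤ 2 * L := by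
    refine (Complex.re_le_norm _).trans ?_
    have h3 : 1 / 2 ≤ ‖1 - z ^ L‖ := by
      have := norm_sub_norm_le (1 : ℂ) (z ^ L)
      rw [norm_one] at this
      linarith
    rw [norm_div, Complex.norm_natCast, div_le_iff₀ (by linarith)]
    have : (0 : ℝ) ≤ L := Nat.cast_nonneg L
    nlinarith
  have h4 : s ≤ 1 - ‖z‖ ^ 2 := by
    have := norm_nonneg z
    nlinarith
  rw [le_div_iff₀ hs, Finset.sum_mul]
  refine le_trans (Finset.sum_le_sum fun w _ => ?_) (h1.le.trans (by linarith))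
  rw [div_mul_eq_mul_div, one_mul]
  gcongr

lemma move_root (w z : ℂ) (h : ℝ) (hh : 0 ≤ h) (hw : ‖w‖ = 1) (hz : ‖z‖ ≤ 1) (hne : z - w ≠ 0) :
    ‖z - (1 - h : ℝ) * w‖ ^ 2 ≤ ‖z - w‖ ^ 2 * Real.exp (-h + h ^ 2 * (1 / ‖z - w‖ ^ 2)) := by
  have h0 : 0 < ‖z - w‖ ^ 2 := by positivity
  have h1 := Real.add_one_le_exp (-h + h ^ 2 * (1 / ‖z - w‖ ^ 2))
  refine le_trans ?_ (mul_le_mul_of_nonneg_left h1 h0.le)
  have h2 : ‖z - w‖ ^ 2 * (-h + h ^ 2 * (1 / ‖z - w‖ ^ 2) + 1)
      = ‖z - w‖ ^ 2 * (1 - h) + h ^ 2 := by field_simp; ring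
  rw [h2]
  have h3 : Complex.normSq w = 1 := by rw [Complex.normSq_eq_norm_sq, hw]; norm_num
  have h4 : Complex.normSq z ≤ 1 := by
    rw [Complex.normSq_eq_norm_sq]; have := norm_nonneg z; nlinarith
  rw [← Complex.normSq_eq_norm_sq, ← Complex.normSq_eq_norm_sq]
  simp only [Complex.normSq_apply, Complex.sub_re, Complex.sub_im, Complex.mul_re, Complex.mul_im,
    Complex.ofReal_re, Complex.ofReal_im] at *
  have h5 : 0 ≤ h * (1 - (z.re * z.re + z.im * z.im)) := mul_nonneg hh (by linarith)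
  nlinarith

/-- A monic polynomial of degree `O(N)` that is small on a hedgehog with `N` spikes in the
closed unit disc. -/
theorem hedgehog (T : Finset ℂ) (N : ℕ) (hN : 1 ≤ N) (hT : T.card ≤ N) (h1 : ∀ c ∈ T, ‖c‖ ≤ 1) :
    ∃ B : ℂ[X], B.Monic ∧ B.natDegree = 31104 * N ∧
      (∀ (z : ℂ) (ρ : ℝ), ‖z‖ ≤ ρ → ‖B.eval z‖ ≤ (ρ + 1) ^ (31104 * N)) ∧
      ∀ c ∈ T, ∀ t : ℝ, 0 ≤ t → t ≤ 1 → ‖B.eval (t * c)‖ ≤ 1 / 2 := by
  classical
  set L := 31104 * N with hLdef
  have hL : 0 < L := by omega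
  obtain ⟨ζ, hζ⟩ := prim L hL
  have hN' : (1 : ℝ) ≤ N := by exact_mod_cast hN
  have hLr : (L : ℝ) = 31104 * N := by rw [hLdef]; push_cast; ring
  set s : ℝ := 1 / (54 * N) with hs
  have hs0 : 0 < s := by positivity
  have hsL : s * L = 576 := by rw [hs, hLr]; field_simp; norm_num
  have hs1 : s ≤ 1 := by rw [hs, div_le_one (by positivity)]; linarith
  have hpow : (1 - s) ^ L ≤ 1 / 2 := by
    have h2 : (1 - s) ^ L ≤ Real.exp (-s) ^ L :=
      pow_le_pow_left₀ (by linarith) (by linarith [Real.add_one_le_exp (-s)]) L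
    rw [← Real.exp_nat_mul, show (L : ℝ) * -s = -576 by linarith, Real.exp_neg] at h2
    refine h2.trans ?_
    rw [inv_le_comm₀ (Real.exp_pos _) (by norm_num)]
    linarith [Real.add_one_le_exp (576 : ℝ)]
  set h : ℝ := s / 48 with hh
  have hh0 : 0 ≤ h := by positivity
  set W := nthRootsFinset L (1 : ℂ) with hW
  set fr : ℂ → Prop := fun w => ∀ c ∈ T, 2 * s ≤ ‖c - w‖ with hfr
  set m : ℂ → ℂ := fun w => if fr w then ((1 - h : ℝ) : ℂ) * w else w with hm
  have hshr : ∀ z : ℂ, ‖z‖ ≤ 1 → ‖((1 - s : ℝ) : ℂ) * z‖ ≤ 1 - s := by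
    intro z hz
    rw [norm_mul, Complex.norm_real, Real.norm_of_nonneg (by linarith)]
    exact mul_le_of_le_one_right (by linarith) hz
  have hshr2 : ∀ z w : ℂ, ‖z‖ ≤ 1 → ‖((1 - s : ℝ) : ℂ) * z - w‖ ≤ ‖z - w‖ + s := by
    intro z w hz
    have e : ((1 - s : ℝ) : ℂ) * z - w = (z - w) - (s : ℂ) * z := by push_cast; ring
    rw [e]
    refine (norm_sub_le _ _).trans (add_le_add le_rfl ?_)
    rw [norm_mul, Complex.norm_real, Real.norm_of_nonneg hs0.le]
    exact mul_le_of_le_one_right hs0.le hz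
  have hshr3 : ∀ z w : ℂ, ‖z‖ ≤ 1 → ‖w‖ = 1 → 0 < ‖((1 - s : ℝ) : ℂ) * z - w‖ := by
    intro z w hz hw
    rw [norm_pos_iff]
    intro h0
    have := hshr z hz
    rw [sub_eq_zero.mp h0] at this
    linarith
  -- count of the non-free roots
  have hcnt : ∀ c ∈ T, ((W.filter fun w => ‖c - w‖ < 2 * s).card : ℝ) ≤ 15552 := by
    intro c hc
    have p1 := poisson_sum L hL s hs0 hs1 hpow _ (hshr c (h1 c hc))
    have p2 : ((W.filter fun w => ‖c - w‖ < 2 * s).card : ℝ) * (1 / (3 * s) ^ 2)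
        ≤ ∑ w ∈ W, 1 / ‖((1 - s : ℝ) : ℂ) * c - w‖ ^ 2 := by
      rw [← nsmul_eq_mul, ← Finset.sum_const]
      refine le_trans (Finset.sum_le_sum fun w hw => ?_)
        (Finset.sum_le_sum_of_subset_of_nonneg (Finset.filter_subset _ _) fun w _ _ => by positivity)
      obtain ⟨hw1, hw2⟩ := Finset.mem_filter.mp hw
      have := hshr2 c w (h1 c hc)
      have := hshr3 c w (h1 c hc) (norm_root hL hw1)
      gcongr
      linarith
    have p3 := p2.trans p1
    rw [mul_one_div, div_le_div_iff₀ (by positivity) hs0] at p3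
    have p4 : ((W.filter fun w => ‖c - w‖ < 2 * s).card : ℝ) * s ≤ 15552 * s := by
      refine p3.trans (le_of_eq ?_)
      linear_combination (27 * s) * hsL
    exact le_of_mul_le_mul_right p4 hs0
  have hfree : (L : ℝ) / 2 ≤ (W.filter fr).card := by
    have q1 : (W.filter fun w => ¬ fr w) ⊆ T.biUnion fun c => W.filter fun w => ‖c - w‖ < 2 * s := by
      intro w hw
      obtain ⟨hw1, hw2⟩ := Finset.mem_filter.mp hw
      simp only [hfr, not_forall, not_le] at hw2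
      obtain ⟨c, hc, hw2⟩ := hw2
      exact Finset.mem_biUnion.mpr ⟨c, hc, Finset.mem_filter.mpr ⟨hw1, hw2⟩⟩
    have q2 : ((W.filter fun w => ¬ fr w).card : ℝ)
        ≤ ∑ c ∈ T, ((W.filter fun w => ‖c - w‖ < 2 * s).card : ℝ) := by
      exact_mod_cast (Finset.card_le_card q1).trans Finset.card_biUnion_le
    have q3 : ∑ c ∈ T, ((W.filter fun w => ‖c - w‖ < 2 * s).card : ℝ) ≤ N * 15552 := by
      refine (Finset.sum_le_card_nsmul _ _ _ hcnt).trans ?_
      rw [nsmul_eq_mul]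
      have : (T.card : ℝ) ≤ N := by exact_mod_cast hT
      gcongr
    have q4 : ((W.filter fr).card : ℝ) + (W.filter fun w => ¬ fr w).card = L := by
      rw [← hζ.card_nthRootsFinset]
      exact_mod_cast Finset.card_filter_add_card_filter_not fr
    linarith
  refine ⟨∏ w ∈ W, (X - C (m w)), monic_prod_of_monic _ _ fun w _ => monic_X_sub_C _, ?_, ?_, ?_⟩
  · rw [natDegree_finsetProd_X_sub_C_eq_card, hζ.card_nthRootsFinset]
  · intro z ρ hz
    rw [eval_prod, norm_prod, ← hζ.card_nthRootsFinset, ← Finset.prod_const]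
    refine Finset.prod_le_prod (fun _ _ => norm_nonneg _) fun w hw => ?_
    rw [eval_sub, eval_X, eval_C]
    refine (norm_sub_le _ _).trans (add_le_add hz ?_)
    simp only [hm]
    split_ifs
    · rw [norm_mul, Complex.norm_real, norm_root hL hw, Real.norm_of_nonneg (by linarith)]; linarith
    · exact (norm_root hL hw).le
  · intro c hc t ht0 ht1
    set z : ℂ := t * c with hz
    have hzn : ‖z‖ = t * ‖c‖ := by rw [hz, norm_mul, Complex.norm_real, Real.norm_of_nonneg ht0]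
    have hc1 := h1 c hc
    have hz1 : ‖z‖ ≤ 1 := by rw [hzn]; exact mul_le_one₀ ht1 (norm_nonneg _) hc1
    have hfar : ∀ w ∈ W, fr w → s ≤ ‖z - w‖ := by
      intro w hw hf
      by_contra hlt
      push Not at hlt
      have a1 := hf c hc
      have a2 : ‖c - w‖ ≤ ‖c - z‖ + ‖z - w‖ := norm_sub_le_norm_sub_add_norm_sub _ _ _
      have a3 : ‖c - z‖ = (1 - t) * ‖c‖ := by
        rw [show c - z = ((1 - t : ℝ) : ℂ) * c by rw [hz]; push_cast; ring, norm_mul,
          Complex.norm_real, Real.norm_of_nonneg (by linarith)]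
      have a4 : ‖w‖ - ‖z‖ ≤ ‖z - w‖ := by rw [norm_sub_rev]; exact norm_sub_norm_le _ _
      rw [norm_root hL hw] at a4
      nlinarith
    set e : ℂ → ℝ := fun w => if fr w then -h + h ^ 2 * (1 / ‖z - w‖ ^ 2) else 0 with he
    have b1 : ‖(∏ w ∈ W, (X - C (m w))).eval z‖ ^ 2
        ≤ ∏ w ∈ W, (‖z - w‖ ^ 2 * Real.exp (e w)) := by
      rw [eval_prod, norm_prod, ← Finset.prod_pow]
      refine Finset.prod_le_prod (fun _ _ => by positivity) fun w hw => ?_
      rw [eval_sub, eval_X, eval_C]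
      simp only [hm, he]
      split_ifs with hf
      · refine move_root w z h hh0 (norm_root hL hw) hz1 ?_
        have := hfar w hw hf
        exact norm_pos_iff.mp (by linarith)
      · simp
    have b2 : ∏ w ∈ W, ‖z - w‖ ^ 2 ≤ 4 := by
      have := congrArg (Polynomial.eval z) (X_pow_sub_one_eq_prod hL hζ)
      simp only [eval_sub, eval_pow, eval_X, eval_one, eval_prod, eval_C] at this
      rw [Finset.prod_pow, ← norm_prod, ← this]
      have b3 : ‖z ^ L - 1‖ ≤ 2 := by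
        refine (norm_sub_le _ _).trans ?_
        rw [norm_pow, norm_one]
        linarith [pow_le_one₀ (n := L) (norm_nonneg z) hz1]
      have := norm_nonneg (z ^ L - 1)
      nlinarith
    have b4 : ∑ w ∈ W, e w ≤ -3 := by
      have c1 : ∑ w ∈ W, e w = -h * (W.filter fr).card
          + h ^ 2 * ∑ w ∈ W.filter fr, 1 / ‖z - w‖ ^ 2 := by
        simp only [he]
        rw [← Finset.sum_filter, Finset.sum_add_distrib, ← Finset.mul_sum, Finset.sum_const,
          nsmul_eq_mul, mul_comm]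
      have c2 : ∑ w ∈ W.filter fr, 1 / ‖z - w‖ ^ 2
          ≤ 4 * ∑ w ∈ W, 1 / ‖((1 - s : ℝ) : ℂ) * z - w‖ ^ 2 := by
        rw [Finset.mul_sum]
        refine le_trans (Finset.sum_le_sum fun w hw => ?_)
          (Finset.sum_le_sum_of_subset_of_nonneg (Finset.filter_subset fr _)
            fun w _ _ => by positivity)
        obtain ⟨hw1, hw2⟩ := Finset.mem_filter.mp hw
        have d1 := hshr2 z w hz1
        have d2 := hshr3 z w hz1 (norm_root hL hw1)
        have d3 := hfar w hw1 hw2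
        have d4 : 0 < ‖z - w‖ := by linarith
        rw [mul_one_div, div_le_div_iff₀ (by positivity) (by positivity)]
        nlinarith
      have c3 := poisson_sum L hL s hs0 hs1 hpow _ (hshr z hz1)
      have c4 : h ^ 2 * ∑ w ∈ W.filter fr, 1 / ‖z - w‖ ^ 2 ≤ h ^ 2 * (4 * (3 * L / s)) := by
        gcongr
        exact c2.trans (by gcongr)
      have c5 : h ^ 2 * (4 * (3 * L / s)) = 3 := by
        rw [hh]; field_simp; linear_combination (4 : ℝ) * hsL
      have c6 : h * (L / 2) = 6 := by rw [hh]; linear_combination (1 / 96 : ℝ) * hsL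
      have c7 := mul_le_mul_of_nonneg_left hfree hh0
      linarith
    have b5 : Real.exp (∑ w ∈ W, e w) ≤ 1 / 16 := by
      refine (Real.exp_le_exp.mpr b4).trans ?_
      rw [Real.exp_neg, inv_le_comm₀ (Real.exp_pos _) (by norm_num)]
      have := Real.exp_one_gt_d9
      have e3 : Real.exp 3 = Real.exp 1 ^ 3 := by rw [← Real.exp_nat_mul]; norm_num
      rw [e3]
      have : (2.7 : ℝ) ^ 3 ≤ Real.exp 1 ^ 3 := by gcongr; linarith
      norm_num at this ⊢
      linarith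
    rw [Finset.prod_mul_distrib, ← Real.exp_sum] at b1
    have b6 : ‖(∏ w ∈ W, (X - C (m w))).eval z‖ ^ 2 ≤ (1 / 2) ^ 2 := by
      refine b1.trans ?_
      calc _ ≤ 4 * (1 / 16 : ℝ) := by gcongr
        _ = _ := by norm_num
    exact (pow_le_pow_iff_left₀ (norm_nonneg _) (by norm_num) two_ne_zero).mp b6

end Pool.Agent.MP_12a475_nt.H58
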