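import Mathlib
import Pool.Agent.Lib.MP_12a475_nt.H58Graeffe
import Pool.Agent.Lib.MP_12a475_nt.H58Core
import Pool.Agent.Lib.MP_12a475_nt.H58Hedge

set_option autoImplicit false

open Polynomial

namespace Pool.Agent.MP_12a475_nt.H58

/-- `∏ (1 - a X)` -/
noncomputable def rv (s : Multiset ℂ) : ℂ[X] := (s.map fun a => 1 - C a * X).prod

lemma rv_add (s t : Multiset ℂ) : rv (s + t) = rv s * rv t := by simp [rv]

lemma rv_cons (a : ℂ) (s : Multiset ℂ) : rv (a ::ₘ s) = (1 - C a * X) * rv s := by simp [rv]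

lemma rv_eval_ne (s : Multiset ℂ) (u : ℂ) (hu : u ≠ 0) (h : ∀ a ∈ s, a ≠ u) :
    (rv s).eval u⁻¹ ≠ 0 := by
  rw [rv, eval_multiset_prod, Multiset.map_map]
  refine Multiset.prod_ne_zero fun h0 => ?_
  obtain ⟨a, ha, h1⟩ := Multiset.mem_map.mp h0
  simp only [Function.comp, eval_sub, eval_one, eval_mul, eval_C, eval_X] at h1
  apply h a ha
  field_simp at h1
  linear_combination -h1

lemma rv_coeff_zero (s : Multiset ℂ) : (rv s).coeff 0 = 1 := by
  induction s using Multiset.induction_on with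
  | empty => simp [rv]
  | cons a s ih => rw [rv_cons, mul_coeff_zero, ih]; simp

lemma reflect_prod (s : Multiset ℂ) :
    reflect (Multiset.card s) (s.map fun a => X - C a).prod = rv s := by
  induction s using Multiset.induction_on with
  | empty => simp [rv]
  | cons a s ih =>
    rw [Multiset.map_cons, Multiset.prod_cons, Multiset.card_cons, add_comm,
      reflect_mul _ _ (natDegree_X_sub_C_le a) (natDegree_multiset_prod_X_sub_C_eq_card s).le, ih,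
      rv_cons]
    congr 1
    rw [reflect_sub, reflect_C, pow_one]
    congr 1
    simp

lemma exists_rv (P : ℤ[X]) (hP : P.Monic) :
    ∃ p : ℤ[X], p.map (Int.castRingHom ℂ) = rv (P.aroots ℂ) := by
  refine ⟨reflect (Multiset.card (P.aroots ℂ)) P, ?_⟩
  rw [← reflect_map, ← reflect_prod]
  congr 1
  exact (IsAlgClosed.splits (P.map (algebraMap ℤ ℂ))).eq_prod_roots_of_monic (hP.map _)

lemma graeffe_rv (p q : ℤ[X]) (s : Multiset ℂ) (hp : p.map (Int.castRingHom ℂ) = rv s)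
    (hq : expand ℤ 2 q = p * neg' p) :
    q.map (Int.castRingHom ℂ) = rv (s.map fun a => a ^ 2) := by
  apply expand_injective (show 0 < 2 by norm_num)
  rw [← map_expand, hq, Polynomial.map_mul, neg', map_comp, hp]
  simp only [Polynomial.map_neg, map_X]
  clear hp
  induction s using Multiset.induction_on with
  | empty => simp [rv]
  | cons a s ih =>
    rw [Multiset.map_cons, rv_cons, rv_cons, map_mul, ← ih, mul_comp]
    simp only [sub_comp, one_comp, mul_comp, C_comp, X_comp, map_sub, map_one, map_mul, expand_C,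
      expand_X]
    rw [C_pow]
    ring

/-- Dimitrov's integral square root. -/
lemma exists_int_sqrt (P : ℤ[X]) (hP : P.Monic) :
    ∃ g : PowerSeries ℤ, PowerSeries.constantCoeff g = 1 ∧
      (PowerSeries.map (Int.castRingHom ℂ) g) ^ 2 =
        ((rv ((P.aroots ℂ).map fun a => a ^ 2) * rv ((P.aroots ℂ).map fun a => a ^ 4) : ℂ[X]) :
          PowerSeries ℂ) := by
  obtain ⟨p, hp⟩ := exists_rv P hP
  obtain ⟨q, r, v, hq, hr, hv⟩ := exists_graeffe_two p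
  have h1 := graeffe_rv p q _ hp hq
  have h2 := graeffe_rv q r _ h1 hr
  rw [Multiset.map_map] at h2
  have h3 : ((fun a : ℂ => a ^ 2) ∘ fun a => a ^ 2) = fun a => a ^ 4 := by
    funext a; simp only [Function.comp]; ring
  rw [h3] at h2
  have c0 : ∀ (f : ℤ[X]) (s : Multiset ℂ), f.map (Int.castRingHom ℂ) = rv s → f.coeff 0 = 1 := by
    intro f s hf
    have := congrArg (fun x => x.coeff 0) hf
    simp only [coeff_map, rv_coeff_zero, eq_intCast] at this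
    exact_mod_cast this
  have hq0 := c0 _ _ h1
  have hr0 := c0 _ _ h2
  have hv0 : v.coeff 0 = 0 := by
    rw [hv, coeff_add, hq0, show (4 : ℤ[X]) = C 4 from rfl, coeff_C_mul] at hr0
    omega
  obtain ⟨g, hg0, hg⟩ := exists_sqrt q v hq0 hv0
  refine ⟨g, hg0, ?_⟩
  rw [← map_pow, hg, ← hv, ← h1, ← h2, ← Polynomial.map_mul, Polynomial.polynomial_map_coe]

lemma norm_prod_sub_le (s : Multiset ℂ) (z : ℂ) (r : ℝ) (h : ∀ a ∈ s, ‖z - a‖ ≤ r) :
    ‖((s.map fun a => X - C a).prod : ℂ[X]).eval z‖ ≤ r ^ Multiset.card s := by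
  induction s using Multiset.induction_on with
  | empty => simp
  | cons a s ih =>
    rw [Multiset.map_cons, Multiset.prod_cons, eval_mul, norm_mul, Multiset.card_cons, pow_succ']
    have h1 := h a (by simp)
    refine mul_le_mul (by simpa using h1) (ih fun b hb => h b (by simp [hb])) (norm_nonneg _)
      ((norm_nonneg _).trans h1)

lemma seg_norm {b b' z : ℂ} (hz : z ∈ segment ℝ b' b) (r : ℝ) (h1 : ‖b‖ ≤ r) (h2 : ‖b'‖ ≤ r) :
    ‖z‖ ≤ r ∧ ‖z - b‖ ≤ ‖b - b'‖ := by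
  refine ⟨?_, ?_⟩
  · have := (convex_closedBall (0 : ℂ) r).segment_subset (mem_closedBall_zero_iff.mpr h2)
      (mem_closedBall_zero_iff.mpr h1) hz
    exact mem_closedBall_zero_iff.mp this
  · have := (convex_closedBall b ‖b - b'‖).segment_subset (x := b') (y := b)
      (by rw [Metric.mem_closedBall, dist_comm, dist_eq_norm]) (by simp) hz
    rwa [Metric.mem_closedBall, dist_eq_norm] at this

/-- scaled hedgehog polynomial -/
lemma hedgehog' (T : Finset ℂ) (N : ℕ) (hN : 1 ≤ N) (hT : T.card ≤ N) (κ : ℝ) (hκ : 1 ≤ κ)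
    (hκN : κ ^ (31104 * N) ≤ 3 / 2) (h1 : ∀ c ∈ T, ‖c‖ ≤ κ) :
    ∃ B : ℂ[X], B.Monic ∧ B.natDegree = 31104 * N ∧
      (∀ (z : ℂ) (ρ : ℝ), ‖z‖ ≤ ρ → ‖B.eval z‖ ≤ (ρ + 2) ^ (31104 * N)) ∧
      ∀ c ∈ T, ∀ t : ℝ, 0 ≤ t → t ≤ 1 → ‖B.eval (t * c)‖ ≤ 3 / 4 := by
  classical
  have hκ0 : 0 < κ := by linarith
  have hκc : (κ : ℂ) ≠ 0 := by exact_mod_cast hκ0.ne'
  have hκ2 : κ ≤ 2 := (le_self_pow₀ hκ (by omega)).trans (hκN.trans (by norm_num))
  obtain ⟨B, hBm, hBd, hB1, hB2⟩ := hedgehog (T.image fun c => c / κ) N hN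
    (Finset.card_image_le.trans hT) (by
      intro c hc
      obtain ⟨d, hd, rfl⟩ := Finset.mem_image.mp hc
      rw [norm_div, Complex.norm_real, Real.norm_of_nonneg hκ0.le, div_le_one hκ0]
      exact h1 d hd)
  generalize 31104 * N = L at *
  have ev : ∀ z : ℂ, ‖(B.scaleRoots κ).eval z‖ = κ ^ L * ‖B.eval (z / κ)‖ := by
    intro z
    conv_lhs => rw [show z = κ * (z / κ) by field_simp]
    rw [scaleRoots_eval_mul, hBd, norm_mul, norm_pow, Complex.norm_real,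
      Real.norm_of_nonneg hκ0.le]
  refine ⟨B.scaleRoots κ, (monic_scaleRoots_iff _).mpr hBm, by rw [natDegree_scaleRoots, hBd],
    fun z ρ hz => ?_, fun c hc t ht0 ht1 => ?_⟩
  · have hρ : 0 ≤ ρ := (norm_nonneg _).trans hz
    have h2 := hB1 (z / κ) (ρ / κ) (by
      rw [norm_div, Complex.norm_real, Real.norm_of_nonneg hκ0.le]; gcongr)
    rw [ev]
    calc _ ≤ κ ^ L * (ρ / κ + 1) ^ L := by gcongr
      _ = (ρ + κ) ^ L := by rw [← mul_pow]; congr 1; field_simp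
      _ ≤ _ := by gcongr
  · have h2 := hB2 (c / κ) (Finset.mem_image_of_mem _ hc) t ht0 ht1
    rw [ev, mul_div_assoc]
    calc _ ≤ (3 / 2 : ℝ) * (1 / 2) := by gcongr
      _ = _ := by norm_num

/-- inside points `J`, close pairs `Q`. -/
theorem pairs_bound (N : ℕ) (hN : 1 ≤ N) (J : Multiset ℂ) (Q : Multiset (ℂ × ℂ)) (r ε κ : ℝ)
    (hr : 1 ≤ r) (m : ℕ) (hm : 2 * (r + 2) ^ 4 ≤ (4 / 3) ^ m) (hκ : 1 ≤ κ)
    (hκN : κ ^ (31104 * N) ≤ 3 / 2)
    (hJ : ∀ c ∈ J, ‖c‖ ≤ κ) (hJN : Multiset.card J + 1 ≤ N) (hQ4 : Multiset.card Q ≤ 4)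
    (hQ : ∀ p ∈ Q, ‖p.1‖ ≤ r ∧ ‖p.2‖ ≤ r ∧ ‖p.1 - p.2‖ ≤ ε)
    (hε : ε * (2 * r) ^ 3 * ((r + 2) ^ (31104 * N)) ^ m ≤ 1 / 2)
    (g : PowerSeries ℤ) (hg0 : PowerSeries.constantCoeff g = 1)
    (hg : (PowerSeries.map (Int.castRingHom ℂ) g) ^ 2
      = ((rv (J + Q.map Prod.fst + Q.map Prod.snd) : ℂ[X]) : PowerSeries ℂ)) :
    ∃ p q : ℂ[X], q ≠ 0 ∧ q ^ 2 * rv (J + Q.map Prod.fst + Q.map Prod.snd) = p ^ 2 := by
  classical
  have hκ2 : κ ≤ 2 := (le_self_pow₀ hκ (by omega)).trans (hκN.trans (by norm_num))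
  have hT : ∀ c ∈ insert 0 J.toFinset, ‖c‖ ≤ κ := by
    intro c hc
    rcases Finset.mem_insert.mp hc with rfl | hc
    · simp; linarith
    · exact hJ c (Multiset.mem_toFinset.mp hc)
  obtain ⟨B, hBm, hBd, hB1, hB2⟩ := hedgehog' (insert 0 J.toFinset) N hN
    ((Finset.card_insert_le _ _).trans (by have := J.toFinset_card_le; omega)) κ hκ hκN hT
  have hm0 : m ≠ 0 := by
    rintro rfl
    have : (1 : ℝ) ≤ (r + 2) ^ 4 := one_le_pow₀ (by linarith)
    linarith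
  set E : ℂ[X] := ((Q.map Prod.fst).map fun a => X - C a).prod with hE
  have hEm : E.Monic := monic_multisetProd_X_sub_C _
  have hsmall : ∀ c ∈ insert 0 J.toFinset, ∀ z ∈ segment ℝ 0 c, ‖(B ^ m * E).eval z‖ ≤ 1 / 2 := by
    intro c hc z hz
    have hz1 := (seg_norm hz 2 ((hT c hc).trans hκ2) (by simp)).1
    obtain ⟨a, t, ha, ht, hat, rfl⟩ := hz
    have e : a • (0 : ℂ) + t • c = t * c := by simp
    rw [e] at hz1 ⊢
    have h1 := hB2 c hc t ht (by linarith)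
    have h2 : ‖E.eval (t * c)‖ ≤ (r + 2) ^ 4 := by
      refine (norm_prod_sub_le _ _ (r + 2) fun a ha => ?_).trans
        (pow_le_pow_right₀ (by linarith) (by simpa using hQ4))
      obtain ⟨p, hp, rfl⟩ := Multiset.mem_map.mp ha
      exact (norm_sub_le _ _).trans (by linarith [(hQ p hp).1])
    rw [eval_mul, eval_pow, norm_mul, norm_pow]
    calc _ ≤ (3 / 4) ^ m * (r + 2) ^ 4 := by gcongr
      _ ≤ 1 / 2 := by
        rw [show (3 / 4 : ℝ) = (4 / 3)⁻¹ by norm_num, inv_pow, inv_mul_le_iff₀ (by positivity)]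
        linarith
  obtain ⟨p, q, hq, hpq⟩ := rational_of_small ((J.map fun c => (c, 0)) + Q) g hg0 (by
      rw [hg]
      congr 1
      simp only [rv, Multiset.map_add, Multiset.prod_add, Multiset.map_map, Function.comp,
        Multiset.prod_map_mul, mul_assoc]
      simp) (B ^ m * E) ((hBm.pow m).mul hEm) (by
      rw [(hBm.pow m).natDegree_mul hEm, hBm.natDegree_pow, hBd]
      have : 0 < m * (31104 * N) := Nat.mul_pos (Nat.pos_of_ne_zero hm0) (by omega)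
      omega) (1 / 2) (by norm_num) (hsmall 0 (by simp) 0 (left_mem_segment _ _ _)) (by
      intro p hp z hz
      rcases Multiset.mem_add.mp hp with hp | hp
      · obtain ⟨c, hc, rfl⟩ := Multiset.mem_map.mp hp
        exact hsmall c (by simp [hc]) z hz
      · obtain ⟨a1, a2, a3⟩ := hQ p hp
        obtain ⟨a4, a5⟩ := seg_norm hz r a1 a2
        obtain ⟨Q', rfl⟩ := Multiset.exists_cons_of_mem hp
        have h1 := hB1 z r a4
        have h2 : ‖E.eval z‖ ≤ ε * (2 * r) ^ 3 := by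
          rw [hE, Multiset.map_cons, Multiset.map_cons, Multiset.prod_cons, eval_mul, norm_mul]
          refine mul_le_mul (by simpa using a5.trans a3) ?_ (norm_nonneg _)
            ((norm_nonneg _).trans a3)
          refine (norm_prod_sub_le _ _ (2 * r) fun a ha => ?_).trans
            (pow_le_pow_right₀ (by linarith) (by
              rw [Multiset.card_cons] at hQ4; rw [Multiset.card_map]; omega))
          obtain ⟨p', hp', rfl⟩ := Multiset.mem_map.mp ha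
          exact (norm_sub_le _ _).trans (by linarith [(hQ p' (by simp [hp'])).1])
        rw [eval_mul, eval_pow, norm_mul, norm_pow]
        refine le_trans ?_ hε
        rw [mul_comm]
        gcongr
        exact (norm_nonneg _).trans h2)
  refine ⟨p, q, hq, ?_⟩
  apply Polynomial.coe_injective
  simp only [Polynomial.coe_mul, Polynomial.coe_pow]
  rw [← hpq, mul_pow, hg]

lemma pow_sub_le (x y : ℂ) (ρ : ℝ) (hρ : 1 ≤ ρ) (hx : ‖x‖ ≤ ρ) (hy : ‖y‖ ≤ ρ) :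
    ‖x ^ 2 - y ^ 2‖ ≤ 4 * ρ ^ 3 * ‖x - y‖ ∧ ‖x ^ 4 - y ^ 4‖ ≤ 4 * ρ ^ 3 * ‖x - y‖ := by
  have h1 : ‖x + y‖ ≤ 2 * ρ := (norm_add_le _ _).trans (by linarith)
  have h2 : ‖x ^ 2 + y ^ 2‖ ≤ 2 * ρ ^ 2 := by
    refine (norm_add_le _ _).trans ?_
    rw [norm_pow, norm_pow]
    have := pow_le_pow_left₀ (norm_nonneg _) hx 2
    have := pow_le_pow_left₀ (norm_nonneg _) hy 2
    linarith
  have h3 : ρ ≤ ρ ^ 3 := le_self_pow₀ hρ (by norm_num)
  constructor
  · rw [show x ^ 2 - y ^ 2 = (x + y) * (x - y) by ring, norm_mul]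
    gcongr
    linarith
  · rw [show x ^ 4 - y ^ 4 = (x + y) * (x ^ 2 + y ^ 2) * (x - y) by ring, norm_mul, norm_mul]
    gcongr ?_ * _
    calc _ ≤ (2 * ρ) * (2 * ρ ^ 2) := by gcongr
      _ = _ := by ring

/-- admissible radius for degree `N` -/
def Adm (N : ℕ) (κ : ℝ) : Prop := 1 ≤ κ ∧ (κ ^ 4) ^ (31104 * (3 * N)) ≤ 3 / 2

/-- Core theorem for at most two close pairs of roots: no simple point among the squares and
fourth powers of the roots. -/
theorem core0 (ρ : ℝ) (hρ : 1 ≤ ρ) : ∃ C : ℝ, 1 < C ∧ ∀ (N : ℕ), 1 ≤ N → ∀ κ : ℝ, Adm N κ →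
    ∀ (P : ℤ[X]), P.Monic → ∀ (A : Multiset ℂ) (Q : Multiset (ℂ × ℂ)),
      P.aroots ℂ = A + Q.map Prod.fst + Q.map Prod.snd → Multiset.card A ≤ N →
      Multiset.card Q ≤ 2 → (∀ a ∈ A, ‖a‖ ≤ κ) →
      (∀ p ∈ Q, ‖p.1‖ ≤ ρ ∧ ‖p.2‖ ≤ ρ ∧ ‖p.1 - p.2‖ ≤ (C ^ N)⁻¹) →
      ∃ p q : ℂ[X], q ≠ 0 ∧ q ^ 2 *
        rv ((P.aroots ℂ).map (fun a => a ^ 2) + (P.aroots ℂ).map fun a => a ^ 4) = p ^ 2 := by
  set r := ρ ^ 4 with hr
  have hr1 : 1 ≤ r := one_le_pow₀ hρ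
  obtain ⟨m, hm⟩ := pow_unbounded_of_one_lt (2 * (r + 2) ^ 4) (show (1 : ℝ) < 4 / 3 by norm_num)
  set c1 : ℝ := 8 * ρ ^ 3 * (2 * r) ^ 3 with hc1
  have hc11 : 1 < c1 := by
    have h1 : 1 ≤ ρ ^ 3 := one_le_pow₀ hρ
    have h2 : 1 ≤ (2 * r) ^ 3 := one_le_pow₀ (by linarith)
    nlinarith
  obtain ⟨c2, hc21, e2⟩ : ∃ c2 : ℝ, 1 ≤ c2 ∧ ∀ N : ℕ, ((r + 2) ^ (31104 * (3 * N))) ^ m = c2 ^ N := by
    generalize 31104 = D
    refine ⟨((r + 2) ^ (D * 3)) ^ m, one_le_pow₀ (one_le_pow₀ (by linarith)), fun N => ?_⟩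
    rw [← pow_mul, ← pow_mul, ← pow_mul]; congr 1; ring
  refine ⟨c1 * c2, by nlinarith, ?_⟩
  intro N hN κ hκ P hP A Q hA hAN hQ2 hA1 hQ
  obtain ⟨g, hg0, hg⟩ := exists_int_sqrt P hP
  set J := A.map (fun a => a ^ 2) + A.map fun a => a ^ 4 with hJ
  set Q' := Q.map (fun p => (p.1 ^ 2, p.2 ^ 2)) + Q.map fun p => (p.1 ^ 4, p.2 ^ 4) with hQ'
  have e1 : J + Q'.map Prod.fst + Q'.map Prod.snd
      = (P.aroots ℂ).map (fun a => a ^ 2) + (P.aroots ℂ).map fun a => a ^ 4 := by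
    rw [hA, hJ, hQ']
    simp only [Multiset.map_add, Multiset.map_map, Function.comp]
    abel
  have hpw : ∀ (σ : ℝ) (x : ℂ), 1 ≤ σ → ‖x‖ ≤ σ → ‖x ^ 2‖ ≤ σ ^ 4 ∧ ‖x ^ 4‖ ≤ σ ^ 4 := by
    intro σ x hσ hx
    rw [norm_pow, norm_pow]
    exact ⟨(pow_le_pow_left₀ (norm_nonneg _) hx 2).trans (pow_le_pow_right₀ hσ (by norm_num)),
      pow_le_pow_left₀ (norm_nonneg _) hx 4⟩
  rw [← e1]
  exact pairs_bound (3 * N) (by omega) J Q' r
    (4 * ρ ^ 3 * ((c1 * c2) ^ N)⁻¹) (κ ^ 4) hr1 m hm.le (one_le_pow₀ hκ.1) hκ.2 (by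
      intro c hc
      rcases Multiset.mem_add.mp hc with hc | hc
      · obtain ⟨a, ha, rfl⟩ := Multiset.mem_map.mp hc
        exact (hpw κ a hκ.1 (hA1 a ha)).1
      · obtain ⟨a, ha, rfl⟩ := Multiset.mem_map.mp hc
        exact (hpw κ a hκ.1 (hA1 a ha)).2)
    (by simp only [hJ, Multiset.card_add, Multiset.card_map]; omega)
    (by simp only [hQ', Multiset.card_add, Multiset.card_map]; omega) (by
      intro p hp
      rcases Multiset.mem_add.mp hp with hp | hp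
      · obtain ⟨a, ha, rfl⟩ := Multiset.mem_map.mp hp
        obtain ⟨a1, a2, a3⟩ := hQ a ha
        refine ⟨(hpw _ _ hρ a1).1, (hpw _ _ hρ a2).1, (pow_sub_le _ _ ρ hρ a1 a2).1.trans ?_⟩
        gcongr
      · obtain ⟨a, ha, rfl⟩ := Multiset.mem_map.mp hp
        obtain ⟨a1, a2, a3⟩ := hQ a ha
        refine ⟨(hpw _ _ hρ a1).2, (hpw _ _ hρ a2).2, (pow_sub_le _ _ ρ hρ a1 a2).2.trans ?_⟩
        gcongr) (by
      have e3 : c1 ≤ c1 ^ N := le_self_pow₀ hc11.le (by omega)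
      have hc2' : 0 < c2 ^ N := by positivity
      have hc1' : 0 < c1 ^ N := by positivity
      rw [e2, mul_pow]
      calc 4 * ρ ^ 3 * (c1 ^ N * c2 ^ N)⁻¹ * (2 * r) ^ 3 * c2 ^ N = (c1 / c1 ^ N) / 2 := by
            rw [hc1]; field_simp; ring
        _ ≤ 1 / 2 := by gcongr; exact (div_le_one hc1').mpr e3)
    g hg0 (by rw [e1, rv_add, hg])

lemma rootMultiplicity_rv (M : Multiset ℂ) (w : ℂ) (hw : w ≠ 0) :
    rv M ≠ 0 ∧ rootMultiplicity w⁻¹ (rv M) = M.count w := by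
  classical
  have h0 : ∀ M : Multiset ℂ, rv M ≠ 0 := fun M h => by
    have := rv_coeff_zero M
    rw [h] at this
    simp at this
  refine ⟨h0 M, ?_⟩
  induction M using Multiset.induction_on with
  | empty => simp [rv]
  | cons a s ih =>
    have h1 := h0 (a ::ₘ s)
    rw [rv_cons] at h1 ⊢
    rw [rootMultiplicity_mul h1, ih, Multiset.count_cons, add_comm]
    congr 1
    split_ifs with h
    · subst h
      have e : (1 - C w * X : ℂ[X]) = C (-w) * (X - C w⁻¹) := by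
        rw [mul_sub, ← C_mul, neg_mul, mul_inv_cancel₀ hw]; simp; ring
      rw [e, rootMultiplicity_mul (mul_ne_zero (by simpa using hw) (X_sub_C_ne_zero _)),
        rootMultiplicity_C, rootMultiplicity_X_sub_C_self]
    · refine rootMultiplicity_eq_zero fun h2 => h ?_
      simp only [IsRoot.def, eval_sub, eval_one, eval_mul, eval_C, eval_X] at h2
      field_simp at h2
      linear_combination h2

lemma even_count (M : Multiset ℂ) (p q : ℂ[X]) (hq : q ≠ 0) (h : q ^ 2 * rv M = p ^ 2) (w : ℂ)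
    (hw : w ≠ 0) : Even (M.count w) := by
  obtain ⟨h0, h1⟩ := rootMultiplicity_rv M w hw
  have h3 : q ^ 2 * rv M ≠ 0 := mul_ne_zero (pow_ne_zero _ hq) h0
  have hp : p ≠ 0 := by rintro rfl; apply h3; rw [h]; simp
  have h4 := congrArg (rootMultiplicity w⁻¹) h
  rw [rootMultiplicity_mul h3, sq, sq, rootMultiplicity_mul (mul_ne_zero hq hq),
    rootMultiplicity_mul (mul_ne_zero hp hp), h1] at h4
  exact ⟨rootMultiplicity w⁻¹ p - rootMultiplicity w⁻¹ q, by omega⟩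

lemma count_sq_eq_zero (R : Multiset ℂ) (u : ℂ) (hu1 : 1 < ‖u‖) (h : ∀ a ∈ R, ‖a‖ ≤ ‖u‖) :
    (R.map fun a => a ^ 2).count (u ^ 4) = 0 := by
  rw [Multiset.count_eq_zero]
  intro hm
  obtain ⟨b, hb, h0⟩ := Multiset.mem_map.mp hm
  have h1 := congrArg norm h0
  rw [norm_pow, norm_pow] at h1
  have h2 := pow_le_pow_left₀ (norm_nonneg _) (h b hb) 2
  have h3 := pow_lt_pow_right₀ hu1 (show 2 < 4 by norm_num)
  linarith

/-- Core separation theorem for at most two close pairs of roots. -/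
theorem core (ρ : ℝ) (hρ : 1 ≤ ρ) : ∃ C : ℝ, 1 < C ∧ ∀ (N : ℕ), 1 ≤ N → ∀ κ : ℝ, Adm N κ →
    ∀ (P : ℤ[X]), P.Monic → ∀ (A : Multiset ℂ) (Q : Multiset (ℂ × ℂ)) (δ : ℝ),
      P.aroots ℂ = A + Q.map Prod.fst + Q.map Prod.snd → Multiset.card A ≤ N →
      Multiset.card Q ≤ 2 → (∀ a ∈ A, ‖a‖ ≤ κ) →
      (∀ p ∈ Q, ‖p.1‖ ≤ ρ ∧ ‖p.2‖ ≤ ρ ∧ ‖p.1 - p.2‖ ≤ δ) →
      ∀ (u : ℂ) (S : Multiset ℂ), P.aroots ℂ = u ::ₘ S → 1 < ‖u‖ →
        (∀ a ∈ S, ‖a‖ ≤ ‖u‖ ∧ a ^ 4 ≠ u ^ 4) → (C ^ N)⁻¹ < δ := by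
  obtain ⟨C, hC, h⟩ := core0 ρ hρ
  refine ⟨C, hC, fun N hN κ hκ P hP A Q δ hA hAN hQ2 hA1 hQ u S hS hu1 hu => ?_⟩
  by_contra hδ
  push Not at hδ
  obtain ⟨p, q, hq, hpq⟩ := h N hN κ hκ P hP A Q hA hAN hQ2 hA1
    fun p hp => ⟨(hQ p hp).1, (hQ p hp).2.1, (hQ p hp).2.2.trans hδ⟩
  have hu0 : u ^ 4 ≠ 0 := by
    apply pow_ne_zero; rintro rfl; norm_num at hu1
  have h1 := even_count _ p q hq hpq _ hu0
  rw [Multiset.count_add, count_sq_eq_zero _ u hu1 (by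
    intro a ha
    rw [hS] at ha
    rcases Multiset.mem_cons.mp ha with rfl | ha
    · exact le_rfl
    · exact (hu a ha).1), hS, Multiset.map_cons, Multiset.count_cons_self,
    Multiset.count_eq_zero.mpr (by
      intro hm
      obtain ⟨b, hb, h0⟩ := Multiset.mem_map.mp hm
      exact (hu b hb).2 h0)] at h1
  simp at h1

end Pool.Agent.MP_12a475_nt.H58
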