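import Mathlib
import Pool.Agent.Lib.MP_12a475_nt.H58Pair

set_option autoImplicit false

open Polynomial IntermediateField
open scoped ComplexConjugate

namespace Pool.Agent.MP_12a475_nt.H58

lemma far4 {x y : ℂ} (hx : 1 ≤ ‖x‖) (hne : x ≠ y) (h : y ^ 4 = x ^ 4) : 1 ≤ ‖x - y‖ := by
  have h1 : (x - y) * ((x + y) * (x ^ 2 + y ^ 2)) = 0 := by linear_combination -h
  rcases mul_eq_zero.mp h1 with h2 | h2
  · exact absurd (sub_eq_zero.mp h2) hne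
  rcases mul_eq_zero.mp h2 with h3 | h3
  · rw [show x - y = 2 * x by linear_combination -h3, norm_mul]
    simp only [Complex.norm_ofNat]; linarith
  · have h4 : ‖y‖ = ‖x‖ := by
      have := congrArg norm h
      rw [norm_pow, norm_pow] at this
      exact (pow_left_inj₀ (norm_nonneg _) (norm_nonneg _) (by norm_num)).mp this
    have h5 : ‖x - y‖ ^ 2 = 2 * ‖x‖ * ‖x‖ := by
      rw [← norm_pow, show (x - y) ^ 2 = -(2 * x * y) by linear_combination h3, norm_neg, norm_mul,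
        norm_mul, h4]
      simp
    by_contra hlt
    push Not at hlt
    have := norm_nonneg (x - y)
    nlinarith

lemma split_nodup (s t : Multiset ℂ) (ht : t.Nodup) (hs : s.Nodup) (hsub : ∀ a ∈ t, a ∈ s) :
    ∃ A, s = A + t ∧ ∀ a ∈ A, a ∈ s ∧ a ∉ t := by
  obtain ⟨A, rfl⟩ := Multiset.le_iff_exists_add.mp ((Multiset.le_iff_subset ht).mpr hsub)
  refine ⟨A, add_comm _ _, fun a ha => ⟨by simp [ha], fun h => ?_⟩⟩
  exact Multiset.disjoint_left.mp (Multiset.nodup_add.mp hs).2.2 h ha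

lemma card_aroots_le (P : ℤ[X]) : Multiset.card (P.aroots ℂ) ≤ P.natDegree :=
  (card_roots' _).trans natDegree_map_le

lemma ne4 {a x : ℂ} {κ : ℝ} (ha : ‖a‖ ≤ κ) (hx : κ < ‖x‖) : ‖a‖ ≤ ‖x‖ ∧ a ^ 4 ≠ x ^ 4 := by
  refine ⟨ha.trans hx.le, fun h4 => ?_⟩
  have h5 := congrArg norm h4
  rw [norm_pow, norm_pow] at h5
  exact (pow_lt_pow_left₀ (ha.trans_lt hx) (norm_nonneg _) (by norm_num)).ne h5

/-- one close pair -/
theorem core1 (ρ : ℝ) (hρ : 1 ≤ ρ) : ∃ C : ℝ, 1 < C ∧ ∀ (N : ℕ), 1 ≤ N → ∀ κ : ℝ, Adm N κ →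
    ∀ (P : ℤ[X]), P.Monic →
    P.natDegree ≤ N → (P.aroots ℂ).Nodup → ∀ x y : ℂ, x ∈ P.aroots ℂ → y ∈ P.aroots ℂ → x ≠ y →
    ‖x‖ ≤ ρ → ‖y‖ ≤ ρ → (κ < ‖x‖ ∨ κ < ‖y‖) → (∀ a ∈ P.aroots ℂ, a = x ∨ a = y ∨ ‖a‖ ≤ κ) →
    (C ^ N)⁻¹ < ‖x - y‖ := by
  obtain ⟨C, hC, h⟩ := core ρ hρ
  refine ⟨C, hC, fun N hN κ hκ P hP hPN hnd x y hx hy hne hxρ hyρ h1 hoth => ?_⟩
  wlog hle : ‖y‖ ≤ ‖x‖ generalizing x y
  · rw [norm_sub_rev]
    exact this y x hy hx hne.symm hyρ hxρ h1.symm (fun a ha => or_left_comm.mp (hoth a ha))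
      (le_of_not_ge hle)
  have hxκ : κ < ‖x‖ := h1.elim id fun h => h.trans_le hle
  have hx1 : 1 < ‖x‖ := hκ.1.trans_lt hxκ
  by_cases hfar : 1 ≤ ‖x - y‖
  · exact lt_of_lt_of_le (inv_lt_one_of_one_lt₀ (one_lt_pow₀ hC (by omega))) hfar
  obtain ⟨A, hA, hA'⟩ := split_nodup (P.aroots ℂ) {x, y} (by simp [hne]) hnd (by
    intro a ha
    simp only [Multiset.insert_eq_cons, Multiset.mem_cons, Multiset.mem_singleton] at ha
    rcases ha with rfl | rfl <;> assumption)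
  have hA1 : ∀ a ∈ A, ‖a‖ ≤ κ := by
    intro a ha
    obtain ⟨a1, a2⟩ := hA' a ha
    simp only [Multiset.insert_eq_cons, Multiset.mem_cons, Multiset.mem_singleton, not_or] at a2
    rcases hoth a a1 with h | h | h
    · exact absurd h a2.1
    · exact absurd h a2.2
    · exact h
  refine h N hN κ hκ P hP A {(x, y)} _ (by rw [hA]; simp [add_assoc]) ?_ (by simp) hA1 (by simp [hxρ, hyρ])
    x (A + {y}) (by rw [hA]; simp) hx1 ?_
  · have := card_aroots_le P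
    rw [hA, Multiset.card_add] at this
    omega
  · intro a ha
    rcases Multiset.mem_add.mp ha with ha | ha
    · exact ne4 (hA1 a ha) hxκ
    · rw [Multiset.mem_singleton.mp ha]
      exact ⟨hle, fun h4 => hfar (far4 hx1.le hne h4)⟩

/-- two complex conjugate close pairs -/
theorem core2 (ρ : ℝ) (hρ : 1 ≤ ρ) : ∃ C : ℝ, 1 < C ∧ ∀ (N : ℕ), 1 ≤ N → ∀ κ : ℝ, Adm N κ →
    ∀ (P : ℤ[X]), P.Monic →
    P.natDegree ≤ N → (P.aroots ℂ).Nodup → ∀ x y : ℂ, x ∈ P.aroots ℂ → y ∈ P.aroots ℂ →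
    conj x ∈ P.aroots ℂ → conj y ∈ P.aroots ℂ → y ≠ conj y →
    ‖x‖ ≤ ρ → ‖y‖ ≤ ‖x‖ → κ < ‖x‖ →
    (∀ a ∈ P.aroots ℂ, a = x ∨ a = y ∨ a = conj x ∨ a = conj y ∨ ‖a‖ ≤ κ) →
    y ^ 4 ≠ x ^ 4 → conj x ^ 4 ≠ x ^ 4 → conj y ^ 4 ≠ x ^ 4 → (C ^ N)⁻¹ < ‖x - y‖ := by
  obtain ⟨C, hC, h⟩ := core ρ hρ
  refine ⟨C, hC, fun N hN κ hκ P hP hPN hnd x y hx hy hx' hy' hyy hxρ hle hxκ hoth n1 n2 n3 => ?_⟩
  have hx1 : 1 < ‖x‖ := hκ.1.trans_lt hxκ
  have d1 : x ≠ y := fun h => n1 (by rw [h])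
  have d2 : x ≠ conj x := fun h => n2 (by rw [← h])
  have d3 : x ≠ conj y := fun h => n3 (by rw [← h])
  have d4 : y ≠ conj x := fun h => d3 (by rw [h]; simp)
  have d5 : conj x ≠ conj y := fun h => d1 ((starRingEnd ℂ).injective h)
  obtain ⟨A, hA, hA'⟩ := split_nodup (P.aroots ℂ) {x, conj x, y, conj y}
    (by simp [d1, d2, d3, d4.symm, d5, hyy]) hnd (by
    intro a ha
    simp only [Multiset.insert_eq_cons, Multiset.mem_cons, Multiset.mem_singleton] at ha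
    rcases ha with rfl | rfl | rfl | rfl <;> assumption)
  have hA1 : ∀ a ∈ A, ‖a‖ ≤ κ := by
    intro a ha
    obtain ⟨a1, a2⟩ := hA' a ha
    simp only [Multiset.insert_eq_cons, Multiset.mem_cons, Multiset.mem_singleton, not_or] at a2
    rcases hoth a a1 with h | h | h | h | h
    · exact absurd h a2.1
    · exact absurd h a2.2.2.1
    · exact absurd h a2.2.1
    · exact absurd h a2.2.2.2
    · exact h
  refine h N hN κ hκ P hP A {(x, y), (conj x, conj y)} _ (by rw [hA, add_assoc]; rfl) ?_ (by simp) hA1 ?_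
    x (A + {conj x, y, conj y}) (by rw [hA]; simp) hx1 ?_
  · have := card_aroots_le P
    rw [hA, Multiset.card_add] at this
    omega
  · intro p hp
    simp only [Multiset.insert_eq_cons, Multiset.mem_cons, Multiset.mem_singleton] at hp
    rcases hp with rfl | rfl
    · exact ⟨hxρ, hle.trans hxρ, le_rfl⟩
    · simp only [← map_sub, Complex.norm_conj]
      exact ⟨hxρ, hle.trans hxρ, le_rfl⟩
  · intro a ha
    rcases Multiset.mem_add.mp ha with ha | ha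
    · exact ne4 (hA1 a ha) hxκ
    · simp only [Multiset.insert_eq_cons, Multiset.mem_cons, Multiset.mem_singleton] at ha
      rcases ha with rfl | rfl | rfl
      · exact ⟨by simp, n2⟩
      · exact ⟨hle, n1⟩
      · exact ⟨by simpa using hle, n3⟩

/-- algebraic integers of degree `≤ N` with all conjugates except `ξ, conj ξ` in the closed disc
of radius `κ` -/
def Good (N : ℕ) (κ : ℝ) (ξ : ℂ) : Prop :=
  IsIntegral ℤ ξ ∧ (minpoly ℚ ξ).natDegree ≤ N ∧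
    ∀ a : ℂ, IsConjRoot ℚ ξ a → a = ξ ∨ a = conj ξ ∨ ‖a‖ ≤ κ

lemma isConjRoot_conj (ξ : ℂ) : IsConjRoot ℚ ξ (conj ξ) :=
  isConjRoot_of_algEquiv ξ (Complex.conjAe.restrictScalars ℚ)

lemma conj_pow {ξ a : ℂ} (hq : IsIntegral ℚ ξ) (k : ℕ) (ha : IsConjRoot ℚ (ξ ^ k) a) :
    ∃ b, IsConjRoot ℚ ξ b ∧ a = b ^ k := by
  have hmem : ξ ^ k ∈ ℚ⟮ξ⟯ := pow_mem (mem_adjoin_simple_self ℚ ξ) k
  obtain ⟨φ, hφ⟩ := exists_algHom_adjoin_of_splits_of_aeval (F := ℚ) (K := ℂ) (S := {ξ})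
    (fun s hs => by
      rw [Set.mem_singleton_iff.mp hs]
      exact ⟨hq, IsAlgClosed.splits _⟩) hmem ha.aeval_eq_zero
  refine ⟨φ (AdjoinSimple.gen ℚ ξ), isConjRoot_of_aeval_eq_zero hq ?_, ?_⟩
  · have := aeval_gen_minpoly ℚ ξ
    rw [aeval_algHom_apply]
    exact (congrArg φ this).trans (map_zero φ)
  · rw [← hφ, ← map_pow]; rfl

lemma Good.pow4 {N : ℕ} {κ : ℝ} {ξ : ℂ} (h : Good N κ ξ) : Good N (κ ^ 4) (ξ ^ 4) := by
  obtain ⟨h1, h2, h3⟩ := h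
  have hq : IsIntegral ℚ ξ := h1.tower_top
  have hmem : ξ ^ 4 ∈ ℚ⟮ξ⟯ := pow_mem (mem_adjoin_simple_self ℚ ξ) 4
  refine ⟨h1.pow 4, ?_, fun a ha => ?_⟩
  · have := adjoin.finiteDimensional hq
    rw [← adjoin.finrank (hq.pow 4)]
    rw [← adjoin.finrank hq] at h2
    exact (finrank_le_of_le_right (adjoin_simple_le_iff.mpr hmem)).trans h2
  · obtain ⟨b, hcb, hab⟩ := conj_pow hq 4 ha
    rcases h3 b hcb with h | h | h
    · left; rw [hab, h]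
    · right; left; rw [hab, h, map_pow]
    · right; right; rw [hab, norm_pow]; exact pow_le_pow_left₀ (norm_nonneg _) h 4

lemma aroots_minpoly {ξ : ℂ} (h : IsIntegral ℤ ξ) :
    (minpoly ℤ ξ).aroots ℂ = (minpoly ℚ ξ).aroots ℂ := by
  rw [minpoly.isIntegrallyClosed_eq_field_fractions' ℚ h, aroots_map]

lemma natDegree_minpoly {ξ : ℂ} (h : IsIntegral ℤ ξ) :
    (minpoly ℤ ξ).natDegree = (minpoly ℚ ξ).natDegree := by
  rw [minpoly.isIntegrallyClosed_eq_field_fractions' ℚ h, (minpoly.monic h).natDegree_map]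

lemma nodup_minpoly {ξ : ℂ} (h : IsIntegral ℤ ξ) : ((minpoly ℚ ξ).aroots ℂ).Nodup :=
  nodup_roots ((minpoly.irreducible (h.tower_top (A := ℚ))).separable.map)

lemma exists_joint {N : ℕ} {κ : ℝ} {x y : ℂ} (hx : Good N κ x) (hy : Good N κ y) :
    ∃ P : ℤ[X], P.Monic ∧ P.natDegree ≤ 2 * N ∧ (P.aroots ℂ).Nodup ∧
      ∀ a, a ∈ P.aroots ℂ ↔ IsConjRoot ℚ x a ∨ IsConjRoot ℚ y a := by
  have qx : IsIntegral ℚ x := hx.1.tower_top
  have qy : IsIntegral ℚ y := hy.1.tower_top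
  by_cases hxy : IsConjRoot ℚ x y
  · refine ⟨minpoly ℤ x, minpoly.monic hx.1, ?_, ?_, fun a => ?_⟩
    · rw [natDegree_minpoly hx.1]; have := hx.2.1; omega
    · rw [aroots_minpoly hx.1]; exact nodup_minpoly hx.1
    · rw [aroots_minpoly hx.1, ← isConjRoot_iff_mem_minpoly_aroots qx]
      exact ⟨Or.inl, fun h => h.elim id fun h => hxy.trans h⟩
  · have hm := (minpoly.monic hx.1).mul (minpoly.monic hy.1)
    refine ⟨minpoly ℤ x * minpoly ℤ y, hm, ?_, ?_, fun a => ?_⟩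
    · refine natDegree_mul_le.trans ?_
      rw [natDegree_minpoly hx.1, natDegree_minpoly hy.1]
      have := hx.2.1
      have := hy.2.1
      omega
    · rw [aroots_mul hm.ne_zero, aroots_minpoly hx.1, aroots_minpoly hy.1, Multiset.nodup_add]
      refine ⟨nodup_minpoly hx.1, nodup_minpoly hy.1, Multiset.disjoint_left.mpr fun {a} h1 h2 => ?_⟩
      rw [← isConjRoot_iff_mem_minpoly_aroots qx] at h1
      rw [← isConjRoot_iff_mem_minpoly_aroots qy] at h2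
      exact hxy (h1.trans h2.symm)
    · rw [aroots_mul hm.ne_zero, aroots_minpoly hx.1, aroots_minpoly hy.1, Multiset.mem_add,
        ← isConjRoot_iff_mem_minpoly_aroots qx, ← isConjRoot_iff_mem_minpoly_aroots qy]

/-- a number close to its complex conjugate -/
theorem sep_conj (ρ : ℝ) (hρ : 1 ≤ ρ) : ∃ C : ℝ, 1 < C ∧ ∀ (N : ℕ), 1 ≤ N → ∀ κ : ℝ,
    Adm (2 * N) κ → ∀ x : ℂ, Good N κ x →
    x ≠ conj x → ‖x‖ ≤ ρ → κ < ‖x‖ → (C ^ (2 * N))⁻¹ < ‖x - conj x‖ := by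
  obtain ⟨C, hC, h⟩ := core1 ρ hρ
  refine ⟨C, hC, fun N hN κ hκ x hx hne hxρ hx1 => ?_⟩
  obtain ⟨P, hP, hPN, hnd, hr⟩ := exists_joint hx hx
  refine h (2 * N) (by omega) κ hκ P hP hPN hnd x (conj x) ((hr _).mpr (Or.inl IsConjRoot.refl))
    ((hr _).mpr (Or.inl (isConjRoot_conj x))) hne hxρ (by simpa using hxρ) (Or.inl hx1) fun a ha => ?_
  exact hx.2.2 a (((hr a).mp ha).elim id id)

/-- one of the two numbers is real -/
theorem sep_real (ρ : ℝ) (hρ : 1 ≤ ρ) : ∃ C : ℝ, 1 < C ∧ ∀ (N : ℕ), 1 ≤ N → ∀ κ : ℝ,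
    Adm (2 * N) κ → ∀ x y : ℂ, Good N κ x →
    Good N κ y → x ≠ y → conj x = x → ‖x‖ ≤ ρ → ‖y‖ ≤ ρ → (κ < ‖x‖ ∨ κ < ‖y‖) →
    (C ^ (2 * N))⁻¹ < 2 * ‖x - y‖ := by
  obtain ⟨C1, hC1, h1⟩ := core1 ρ hρ
  obtain ⟨C2, hC2, h2⟩ := sep_conj ρ hρ
  refine ⟨max C1 C2, lt_max_of_lt_left hC1, fun N hN κ hκ x y hx hy hne hre hxρ hyρ hgt => ?_⟩
  by_cases hc : y ≠ conj y ∧ κ < ‖y‖
  · have a1 := h2 N hN κ hκ y hy hc.1 hyρ hc.2
    have a2 : ‖y - conj y‖ ≤ 2 * ‖x - y‖ := by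
      have e : y - conj y = conj (x - y) - (x - y) := by rw [map_sub, hre]; ring
      rw [e]
      refine (norm_sub_le _ _).trans ?_
      rw [Complex.norm_conj]; linarith
    refine lt_of_le_of_lt ?_ (a1.trans_le a2)
    gcongr
    exact le_max_right _ _
  · obtain ⟨P, hP, hPN, hnd, hr⟩ := exists_joint hx hy
    have a1 := h1 (2 * N) (by omega) κ hκ P hP hPN hnd x y ((hr _).mpr (Or.inl IsConjRoot.refl))
      ((hr _).mpr (Or.inr IsConjRoot.refl)) hne hxρ hyρ hgt fun a ha => by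
        rcases (hr a).mp ha with h | h
        · rcases hx.2.2 a h with h | h | h
          · exact Or.inl h
          · exact Or.inl (h.trans hre)
          · exact Or.inr (Or.inr h)
        · rcases hy.2.2 a h with h | h | h
          · exact Or.inr (Or.inl h)
          · rw [not_and_or, not_not, not_lt] at hc
            rcases hc with hc | hc
            · exact Or.inr (Or.inl (h.trans hc.symm))
            · exact Or.inr (Or.inr (by rw [h]; simpa using hc))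
          · exact Or.inr (Or.inr h)
    have a2 : ‖x - y‖ ≤ 2 * ‖x - y‖ := by linarith [norm_nonneg (x - y)]
    refine lt_of_le_of_lt ?_ (a1.trans_le a2)
    gcongr
    exact le_max_left _ _

lemma Adm.mono {N M : ℕ} {κ σ : ℝ} (h : Adm N κ) (hM : M ≤ N) (h1 : 1 ≤ σ) (h2 : σ ≤ κ) :
    Adm M σ := by
  refine ⟨h1, le_trans ?_ h.2⟩
  exact (pow_le_pow_left₀ (by positivity) (pow_le_pow_left₀ (by linarith) h2 4) _).trans
    (pow_le_pow_right₀ (one_le_pow₀ h.1) (by omega))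

theorem sep_good : ∃ C : ℝ, 1 < C ∧ ∀ (N : ℕ), 1 ≤ N → ∀ κ : ℝ, 1 ≤ κ → Adm (2 * N) (κ ^ 4) →
    ∀ x y : ℂ, Good N κ x →
    Good N κ y → x ≠ y → ‖x‖ ≤ 2 → ‖y‖ ≤ 2 → (κ < ‖x‖ ∨ κ < ‖y‖) → (C ^ N)⁻¹ < ‖x - y‖ := by
  obtain ⟨C1, hC1, h1⟩ := sep_real 16 (by norm_num)
  obtain ⟨C2, hC2, h2⟩ := sep_conj 16 (by norm_num)
  obtain ⟨C3, hC3, h3⟩ := core2 16 (by norm_num)
  set C := max C1 (max C2 C3) with hC
  have hC' : 1 < C := lt_max_of_lt_left hC1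
  refine ⟨64 * C ^ 2, by nlinarith, fun N hN κ hκ1 hκ4 x y hx hy hne hx2 hy2 hgt => ?_⟩
  have hκ : Adm (2 * N) κ := hκ4.mono le_rfl hκ1 (le_self_pow₀ hκ1 (by norm_num))
  wlog hle : ‖y‖ ≤ ‖x‖ generalizing x y
  · rw [norm_sub_rev]
    exact this y x hy hx hne.symm hy2 hx2 hgt.symm (le_of_not_ge hle)
  have hxκ : κ < ‖x‖ := hgt.elim id fun h => h.trans_le hle
  have hx1 : 1 < ‖x‖ := hκ1.trans_lt hxκ
  by_cases hfar : 1 ≤ ‖x - y‖
  · exact lt_of_lt_of_le (inv_lt_one_of_one_lt₀ (one_lt_pow₀ (by nlinarith) (by omega))) hfar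
  have n1 : y ^ 4 ≠ x ^ 4 := fun h4 => hfar (far4 hx1.le hne h4)
  suffices hs : (C ^ (2 * N))⁻¹ < 64 * ‖x - y‖ by
    have b1 : (64 : ℝ) ≤ 64 ^ N := le_self_pow₀ (by norm_num) (by omega)
    have b2 : 0 < C ^ (2 * N) := by positivity
    rw [mul_pow, ← pow_mul, mul_inv]
    calc ((64 : ℝ) ^ N)⁻¹ * (C ^ (2 * N))⁻¹ ≤ 64⁻¹ * (C ^ (2 * N))⁻¹ := by gcongr
      _ < _ := by linarith
  have m1 : (C ^ (2 * N))⁻¹ ≤ (C1 ^ (2 * N))⁻¹ := by gcongr; exact le_max_left _ _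
  have m2 : (C ^ (2 * N))⁻¹ ≤ (C2 ^ (2 * N))⁻¹ := by
    gcongr; exact (le_max_left _ _).trans (le_max_right _ _)
  have m3 : (C ^ (2 * N))⁻¹ ≤ (C3 ^ (2 * N))⁻¹ := by
    gcongr; exact (le_max_right _ _).trans (le_max_right _ _)
  have hd := norm_nonneg (x - y)
  have p4 : ∀ z : ℂ, ‖z‖ ≤ 2 → ‖z ^ 4‖ ≤ 16 := by
    intro z hz
    rw [norm_pow]
    exact (pow_le_pow_left₀ (norm_nonneg _) hz 4).trans (by norm_num)
  have hx41 : κ ^ 4 < ‖x ^ 4‖ := by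
    rw [norm_pow]; exact pow_lt_pow_left₀ hxκ (by linarith) (by norm_num)
  have hd4 : ‖x ^ 4 - y ^ 4‖ ≤ 32 * ‖x - y‖ := by
    have := (pow_sub_le x y 2 (by norm_num) hx2 hy2).2
    linarith
  by_cases c1 : conj y = y
  · have := h1 N hN κ hκ y x hy hx hne.symm c1 (by linarith) (by linarith) hgt.symm
    rw [norm_sub_rev] at this
    linarith
  by_cases c2 : conj x ^ 4 = x ^ 4
  · have := h1 N hN _ hκ4 (x ^ 4) (y ^ 4) hx.pow4 hy.pow4 n1.symm (by rw [map_pow, c2]) (p4 x hx2)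
      (p4 y hy2) (Or.inl hx41)
    linarith
  by_cases c3 : conj y ^ 4 = x ^ 4
  · have e : conj (x ^ 4) = y ^ 4 := by rw [← c3]; simp
    have := h2 N hN _ hκ4 (x ^ 4) hx.pow4 (by rw [e]; exact n1.symm) (p4 x hx2) hx41
    rw [e] at this
    linarith
  obtain ⟨P, hP, hPN, hnd, hr⟩ := exists_joint hx hy
  have := h3 (2 * N) (by omega) κ hκ P hP hPN hnd x y ((hr _).mpr (Or.inl IsConjRoot.refl))
    ((hr _).mpr (Or.inr IsConjRoot.refl)) ((hr _).mpr (Or.inl (isConjRoot_conj x)))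
    ((hr _).mpr (Or.inr (isConjRoot_conj y))) (fun h => c1 h.symm) (by linarith) hle hxκ
    (fun a ha => by
      rcases (hr a).mp ha with h | h
      · rcases hx.2.2 a h with h | h | h <;> tauto
      · rcases hy.2.2 a h with h | h | h <;> tauto) n1 c2 c3
  linarith

end Pool.Agent.MP_12a475_nt.H58
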