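import Mathlib
import Pool.Agent.Lib.MP_12a475_nt.H58Sep

set_option autoImplicit false

open Polynomial IntermediateField

namespace Pool.Agent.MP_12a475_nt.H58

lemma pow_conj {x a : ℂ} (hq : IsIntegral ℚ x) (k : ℕ) (ha : IsConjRoot ℚ x a) :
    IsConjRoot ℚ (x ^ k) (a ^ k) := by
  obtain ⟨φ, hφ⟩ := exists_algHom_adjoin_of_splits_of_aeval (F := ℚ) (K := ℂ) (S := {x})
    (fun s hs => by
      rw [Set.mem_singleton_iff.mp hs]
      exact ⟨hq, IsAlgClosed.splits _⟩) (mem_adjoin_simple_self ℚ x) ha.aeval_eq_zero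
  refine isConjRoot_of_aeval_eq_zero (hq.pow k) ?_
  rw [← hφ, ← map_pow, aeval_algHom_apply]
  have : aeval ((⟨x, mem_adjoin_simple_self ℚ x⟩ : ℚ⟮x⟯) ^ k) (minpoly ℚ (x ^ k)) = 0 := by
    apply (algebraMap ℚ⟮x⟯ ℂ).injective
    rw [← aeval_algebraMap_apply, map_zero, map_pow]
    exact minpoly.aeval ℚ (x ^ k)
  exact (congrArg φ this).trans (map_zero φ)

lemma even_count_sq (M : Multiset ℂ) (hM : M.Nodup) (hneg : ∀ c ∈ M, -c ∈ M) (w : ℂ) (hw : w ≠ 0) :
    Even ((M.map fun a => a ^ 2).count w) := by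
  classical
  rw [Multiset.count_map]
  by_cases h : ∃ c ∈ M, w = c ^ 2
  · obtain ⟨c, hc, rfl⟩ := h
    have hc0 : c ≠ -c := fun h => hw (by
      rw [show c = 0 by linear_combination (1 / 2 : ℂ) * h]; simp)
    have : M.filter (fun a => c ^ 2 = a ^ 2) = {c, -c} := by
      rw [Multiset.Nodup.ext (hM.filter _) (by simp [hc0])]
      intro a
      simp only [Multiset.mem_filter, Multiset.insert_eq_cons, Multiset.mem_cons,
        Multiset.mem_singleton]
      constructor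
      · rintro ⟨-, h⟩
        exact sq_eq_sq_iff_eq_or_eq_neg.mp h.symm
      · rintro (rfl | rfl)
        · exact ⟨hc, rfl⟩
        · exact ⟨hneg c hc, by ring⟩
    rw [this]
    simp
  · rw [Multiset.filter_eq_nil.mpr fun a ha h2 => h ⟨a, ha, h2⟩]
    simp

lemma deg_sq_le {x : ℂ} (hx : IsIntegral ℤ x) (h0 : x ≠ 0) (hneg : IsConjRoot ℚ x (-x)) :
    2 * (minpoly ℚ (x ^ 2)).natDegree ≤ (minpoly ℚ x).natDegree := by
  classical
  have hq : IsIntegral ℚ x := hx.tower_top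
  set F := ((minpoly ℚ x).aroots ℂ).toFinset with hF
  have hmem : ∀ a, a ∈ F ↔ IsConjRoot ℚ x a := fun a => by
    rw [hF, Multiset.mem_toFinset, isConjRoot_iff_mem_minpoly_aroots hq]
  have h1 : (minpoly ℚ (x ^ 2)).natDegree ≤ (F.image fun a => a ^ 2).card := by
    rw [← IsAlgClosed.card_aroots_eq_natDegree (B := ℂ),
      ← Multiset.toFinset_card_of_nodup (nodup_minpoly (hx.pow 2))]
    refine Finset.card_le_card fun a ha => ?_
    rw [Multiset.mem_toFinset, ← isConjRoot_iff_mem_minpoly_aroots (hq.pow 2)] at ha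
    obtain ⟨b, hb, rfl⟩ := conj_pow hq 2 ha
    exact Finset.mem_image_of_mem _ ((hmem b).mpr hb)
  have h2 : 2 * (F.image fun a => a ^ 2).card ≤ F.card := by
    refine Finset.mul_card_image_le_card F 2 fun w hw => ?_
    obtain ⟨b, hb, rfl⟩ := Finset.mem_image.mp hw
    have hb' := (hmem b).mp hb
    have hb0 : b ≠ -b := fun h => hb'.ne_zero h0 (by linear_combination (1 / 2 : ℂ) * h)
    refine (Finset.card_pair hb0).ge.trans (Finset.card_le_card fun a ha => ?_)
    rcases Finset.mem_insert.mp ha with rfl | ha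
    · exact Finset.mem_filter.mpr ⟨hb, rfl⟩
    · rw [Finset.mem_singleton.mp ha]
      exact Finset.mem_filter.mpr ⟨(hmem _).mpr (hneg.trans hb'.neg), by ring⟩
  have h3 : F.card ≤ (minpoly ℚ x).natDegree :=
    (Multiset.toFinset_card_le _).trans ((card_roots' _).trans natDegree_map_le)
  omega

/-- Dimitrov's theorem (Schinzel–Zassenhaus) with a weak constant. -/
theorem sz (N : ℕ) : ∀ κ : ℝ, Adm N κ → ∀ x : ℂ, IsIntegral ℤ x → (minpoly ℚ x).natDegree ≤ N →
    (∀ a : ℂ, IsConjRoot ℚ x a → ‖a‖ ≤ κ) → ‖x‖ ≤ 1 := by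
  classical
  obtain ⟨C, -, hC⟩ := core0 1 le_rfl
  induction N using Nat.strong_induction_on with
  | _ N ih =>
  intro κ hκ x hx hN hle
  by_contra hgt
  push Not at hgt
  have hq : IsIntegral ℚ x := hx.tower_top
  have hN1 : 1 ≤ N := (minpoly.natDegree_pos hq).trans_le hN
  have hx0 : x ≠ 0 := by rintro rfl; norm_num at hgt
  by_cases hneg : IsConjRoot ℚ x (-x)
  · have h1 := deg_sq_le hx hx0 hneg
    have h2 := ih (N / 2) (by omega) (κ ^ 2) ⟨one_le_pow₀ hκ.1, by
      refine le_trans ?_ hκ.2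
      rw [← pow_mul, ← pow_mul, ← pow_mul]
      exact pow_le_pow_right₀ hκ.1 (by omega)⟩ (x ^ 2) (hx.pow 2) (by omega) (by
      intro a ha
      obtain ⟨b, hb, rfl⟩ := conj_pow hq 2 ha
      rw [norm_pow]
      exact pow_le_pow_left₀ (norm_nonneg _) (hle b hb) 2)
    rw [norm_pow] at h2
    exact absurd (one_lt_pow₀ hgt two_ne_zero) (not_lt.mpr h2)
  set R := (minpoly ℚ x).aroots ℂ with hR
  have hmem : ∀ a, a ∈ R ↔ IsConjRoot ℚ x a := fun a => by
    rw [hR, isConjRoot_iff_mem_minpoly_aroots hq]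
  have hnd : R.Nodup := nodup_minpoly hx
  have hno : ∀ a ∈ R, -a ∉ R := fun a ha hb =>
    hneg (((hmem _).mp hb).trans ((hmem _).mp ha).neg.symm)
  have hnd2 : (R.map fun a => a ^ 2).Nodup := by
    refine (Multiset.nodup_map_iff_inj_on hnd).mpr fun a ha b hb h => ?_
    rcases sq_eq_sq_iff_eq_or_eq_neg.mp h with h | h
    · exact h
    · exact absurd (h ▸ ha) (hno b hb)
  obtain ⟨p, q, hq0, hpq⟩ := hC N hN1 κ hκ (minpoly ℤ x) (minpoly.monic hx) R 0
    (by rw [aroots_minpoly hx]; simp [hR])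
    (((card_roots' _).trans natDegree_map_le).trans hN) (by simp)
    (fun a ha => hle a ((hmem a).mp ha)) (by simp)
  rw [aroots_minpoly hx, ← hR] at hpq
  obtain ⟨u, hu, hmax⟩ := R.toFinset.exists_max_image norm
    ⟨x, Multiset.mem_toFinset.mpr ((hmem x).mpr IsConjRoot.refl)⟩
  rw [Multiset.mem_toFinset] at hu
  have hu1 : 1 < ‖u‖ := hgt.trans_le (hmax x (Multiset.mem_toFinset.mpr ((hmem x).mpr IsConjRoot.refl)))
  have hu0 : u ≠ 0 := by rintro rfl; norm_num at hu1
  have e4 := even_count _ p q hq0 hpq _ (pow_ne_zero 4 hu0)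
  rw [Multiset.count_add, count_sq_eq_zero R u hu1
    fun a ha => hmax a (Multiset.mem_toFinset.mpr ha), zero_add] at e4
  obtain ⟨v, hv, hv2⟩ : ∃ v ∈ R, v ^ 2 = -u ^ 2 := by
    obtain ⟨S, hS⟩ := Multiset.exists_cons_of_mem hu
    rw [hS, Multiset.map_cons, Multiset.count_cons_self] at e4
    have h1 : (S.map fun a => a ^ 4).count (u ^ 4) ≠ 0 := by
      intro h; rw [h] at e4; simp at e4
    obtain ⟨v, hv, hv4⟩ := Multiset.mem_map.mp (Multiset.count_ne_zero.mp h1)
    have hvR : v ∈ R := by rw [hS]; exact Multiset.mem_cons_of_mem hv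
    refine ⟨v, hvR, ?_⟩
    have h2 : (v ^ 2) ^ 2 = (u ^ 2) ^ 2 := by rw [← pow_mul, ← pow_mul]; exact hv4
    rcases sq_eq_sq_iff_eq_or_eq_neg.mp h2 with h | h
    · rcases sq_eq_sq_iff_eq_or_eq_neg.mp h with h | h
      · rw [hS, Multiset.nodup_cons] at hnd
        exact absurd (h ▸ hv) hnd.1
      · exact absurd (h ▸ hvR) (hno u hu)
    · exact h
  have hsym : IsConjRoot ℚ (x ^ 2) (-x ^ 2) := by
    have h1 := pow_conj hq 2 ((hmem v).mp hv)
    rw [hv2] at h1
    exact h1.trans (pow_conj hq 2 ((hmem u).mp hu)).neg.symm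
  have e2 := even_count _ p q hq0 hpq _ (pow_ne_zero 2 hu0)
  have e3 : (R.map fun a => a ^ 4) = (R.map fun a => a ^ 2).map fun a => a ^ 2 := by
    rw [Multiset.map_map]
    exact Multiset.map_congr rfl fun a _ => by simp only [Function.comp]; ring
  rw [Multiset.count_add, Multiset.count_eq_one_of_mem hnd2 (Multiset.mem_map_of_mem _ hu), e3,
    Nat.even_add] at e2
  refine absurd (e2.mpr (even_count_sq _ hnd2 ?_ _ (pow_ne_zero 2 hu0))) (by norm_num)
  intro c hc
  obtain ⟨b, hb, rfl⟩ := Multiset.mem_map.mp hc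
  obtain ⟨b', hb', h⟩ := conj_pow hq 2 (hsym.trans (pow_conj hq 2 ((hmem b).mp hb)).neg)
  rw [h]
  exact Multiset.mem_map_of_mem _ ((hmem b').mpr hb')

end Pool.Agent.MP_12a475_nt.H58
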