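import Mathlib
import Pool.Agent.Lib.MP_12a475_nt.H58SZ

set_option autoImplicit false

open Polynomial IntermediateField
open scoped ComplexConjugate

namespace Pool.Agent.MP_12a475_nt.H58

lemma kron_int {ξ : ℂ} (hint : IsIntegral ℤ ξ) (h0 : ξ ≠ 0)
    (h : ∀ a : ℂ, IsConjRoot ℚ ξ a → ‖a‖ ≤ 1) : ∃ m, 0 < m ∧ IsPrimitiveRoot ξ m := by
  have hm : ((minpoly ℤ ξ).map (Int.castRingHom ℂ)).mahlerMeasure = 1 := by
    rw [mahlerMeasure_eq_leadingCoeff_mul_prod_roots, ((minpoly.monic hint).map _).leadingCoeff,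
      norm_one, one_mul]
    refine Multiset.prod_eq_one fun r hr => ?_
    obtain ⟨a, ha, rfl⟩ := Multiset.mem_map.mp hr
    refine max_eq_left (h a ?_)
    rw [isConjRoot_iff_mem_minpoly_aroots (hint.tower_top (A := ℚ)), ← aroots_minpoly hint]
    exact ha
  refine isPrimitiveRoot_of_mahlerMeasure_eq_one hm h0 ?_
  rw [aroots_minpoly hint, ← isConjRoot_iff_mem_minpoly_aroots (hint.tower_top (A := ℚ))]
  exact IsConjRoot.refl

lemma le_of_totient_le {m N : ℕ} (hm : 0 < m) (hN : 1 ≤ N) (h : Nat.totient m ≤ N) : m ≤ 8 ^ N := by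
  have h1 := Nat.totient_mul_prod_primeFactors m
  have h2 : ∏ p ∈ m.primeFactors, p ≤ 2 ^ m.primeFactors.card * ∏ p ∈ m.primeFactors, (p - 1) := by
    rw [← Finset.prod_const, ← Finset.prod_mul_distrib]
    refine Finset.prod_le_prod' fun p hp => ?_
    have := (Nat.prime_of_mem_primeFactors hp).two_le
    omega
  have h3 : 0 < ∏ p ∈ m.primeFactors, (p - 1) := Finset.prod_pos fun p hp => by
    have := (Nat.prime_of_mem_primeFactors hp).two_le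
    omega
  have h4 : m ≤ Nat.totient m * 2 ^ m.primeFactors.card := by
    refine Nat.le_of_mul_le_mul_right ?_ h3
    rw [← h1, mul_assoc]
    exact Nat.mul_le_mul_left _ h2
  have h5 : m.primeFactors.card ≤ N := by
    have : m.primeFactors ⊆ Finset.Icc 2 (N + 1) := by
      intro p hp
      have hp' := Nat.prime_of_mem_primeFactors hp
      have h6 := Nat.le_of_dvd (Nat.totient_pos.mpr hm)
        (Nat.totient_dvd_of_dvd (Nat.dvd_of_mem_primeFactors hp))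
      rw [Nat.totient_prime hp'] at h6
      exact Finset.mem_Icc.mpr ⟨hp'.two_le, by omega⟩
    simpa using Finset.card_le_card this
  have h7 : N ≤ 4 ^ N := (Nat.lt_pow_self (by norm_num)).le
  calc m ≤ 4 ^ N * 2 ^ N :=
        h4.trans (Nat.mul_le_mul (h.trans h7) (Nat.pow_le_pow_right (by norm_num) h5))
    _ = 8 ^ N := (mul_pow 4 2 N).symm

lemma unity_sep {ζ : ℂ} {M : ℕ} (hM : 0 < M) (h : ζ ^ M = 1) (hne : ζ ≠ 1) :
    1 ≤ M * ‖ζ - 1‖ := by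
  have hn : ‖ζ‖ = 1 := Complex.norm_eq_one_of_pow_eq_one h hM.ne'
  have h1 : ∀ j : ℕ, ‖ζ ^ j - 1‖ ≤ j * ‖ζ - 1‖ := by
    intro j
    induction j with
    | zero => simp
    | succ j ih =>
      rw [show ζ ^ (j + 1) - 1 = ζ * (ζ ^ j - 1) + (ζ - 1) by ring]
      refine (norm_add_le _ _).trans ?_
      rw [norm_mul, hn]
      push_cast
      linarith
  have h2 : ∑ j ∈ Finset.range M, ζ ^ j = 0 := by
    have := mul_geom_sum ζ M
    rw [h, sub_self] at this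
    exact (mul_eq_zero.mp this).resolve_left (sub_ne_zero.mpr hne)
  have h3 : ‖∑ j ∈ Finset.range M, (ζ ^ j - 1)‖ = M := by
    rw [Finset.sum_sub_distrib, h2]; simp
  have h4 : ‖∑ j ∈ Finset.range M, (ζ ^ j - 1)‖ ≤ M * (M * ‖ζ - 1‖) := by
    refine (norm_sum_le _ _).trans ?_
    refine (Finset.sum_le_card_nsmul _ _ (M * ‖ζ - 1‖) fun j hj => (h1 j).trans ?_).trans (by simp)
    have : (j : ℝ) ≤ M := by exact_mod_cast (Finset.mem_range.mp hj).le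
    gcongr
  have h5 : (0 : ℝ) < M := by exact_mod_cast hM
  rw [h3] at h4
  exact (le_mul_iff_one_le_right h5).mp h4

lemma Good.unity {N : ℕ} (hN : 1 ≤ N) {κ : ℝ} (hκ : Adm N κ) {x : ℂ} (hx : Good N κ x)
    (h0 : x ≠ 0) (h1 : ‖x‖ ≤ κ) : ∃ m, 0 < m ∧ m ≤ 8 ^ N ∧ x ^ m = 1 := by
  have hall : ∀ a : ℂ, IsConjRoot ℚ x a → ‖a‖ ≤ κ := fun a ha => by
    rcases hx.2.2 a ha with h | h | h
    · rwa [h]
    · rw [h]; simpa using h1
    · exact h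
  obtain ⟨m, hm, hp⟩ := kron_int hx.1 h0 fun a ha => by
    have hai : IsIntegral ℤ a := by
      refine ⟨minpoly ℤ x, minpoly.monic hx.1, ?_⟩
      have h2 := ha.aeval_eq_zero
      rwa [minpoly.isIntegrallyClosed_eq_field_fractions' ℚ hx.1, aeval_map_algebraMap] at h2
    refine sz N κ hκ a hai ?_ fun b hb => hall b (ha.trans hb)
    rw [← isConjRoot_def.mp ha]
    exact hx.2.1
  refine ⟨m, hm, le_of_totient_le hm hN ?_, hp.pow_eq_one⟩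
  have := hx.2.1
  rwa [← cyclotomic_eq_minpoly_rat hp hm, natDegree_cyclotomic] at this

theorem sep_all : ∃ C : ℝ, 1 < C ∧ ∀ (N : ℕ), 1 ≤ N → ∀ κ : ℝ, 1 ≤ κ → Adm (2 * N) (κ ^ 4) →
    ∀ x y : ℂ, Good N κ x →
    Good N κ y → x ≠ y → ‖x‖ ≤ 2 → ‖y‖ ≤ 2 → (C ^ N)⁻¹ < ‖x - y‖ := by
  obtain ⟨C, hC, h⟩ := sep_good
  refine ⟨max C 65, lt_max_of_lt_left hC, fun N hN κ hκ1 hκ4 x y hx hy hne hx2 hy2 => ?_⟩
  have hκ : Adm N κ := hκ4.mono (by omega) hκ1 (le_self_pow₀ hκ1 (by norm_num))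
  by_cases hgt : κ < ‖x‖ ∨ κ < ‖y‖
  · refine lt_of_le_of_lt ?_ (h N hN κ hκ1 hκ4 x y hx hy hne hx2 hy2 hgt)
    gcongr
    exact le_max_left _ _
  rw [not_or, not_lt, not_lt] at hgt
  have h64 : (max C 65 ^ N)⁻¹ < ((64 : ℝ) ^ N)⁻¹ := by
    gcongr
    exact lt_of_lt_of_le (by norm_num) (le_max_right _ _)
  refine h64.trans_le ?_
  have h1 : ((64 : ℝ) ^ N)⁻¹ ≤ 1 := inv_le_one_of_one_le₀ (one_le_pow₀ (by norm_num))
  by_cases hx0 : x = 0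
  · obtain ⟨m, hm, -, h2⟩ := hy.unity hN hκ (fun h => hne (hx0.trans h.symm)) hgt.2
    rw [hx0, zero_sub, norm_neg, Complex.norm_eq_one_of_pow_eq_one h2 hm.ne']
    exact h1
  by_cases hy0 : y = 0
  · obtain ⟨m, hm, -, h2⟩ := hx.unity hN hκ hx0 hgt.1
    rw [hy0, sub_zero, Complex.norm_eq_one_of_pow_eq_one h2 hm.ne']
    exact h1
  obtain ⟨m, hm, hmN, h2⟩ := hx.unity hN hκ hx0 hgt.1
  obtain ⟨k, hk, hkN, h3⟩ := hy.unity hN hκ hy0 hgt.2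
  have h4 := unity_sep (ζ := x / y) (Nat.mul_pos hm hk) (by
    rw [div_pow, pow_mul, h2, mul_comm, pow_mul, h3]; simp) (by
    rwa [Ne, div_eq_one_iff_eq hy0])
  rw [div_sub_one hy0, norm_div, Complex.norm_eq_one_of_pow_eq_one h3 hk.ne', div_one] at h4
  have h5 : ((m * k : ℕ) : ℝ) ≤ 64 ^ N := by
    have := Nat.mul_le_mul hmN hkN
    rw [← mul_pow] at this
    exact_mod_cast this
  rw [inv_le_iff_one_le_mul₀' (by positivity)]
  exact h4.trans (by gcongr)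

/-- basic facts on roots of polynomials with coefficients in `{-1, 0, 1}` -/
lemma root_facts {n : ℕ} {P : ℤ[X]} (hP : P ≠ 0) (hn : P.natDegree ≤ n)
    (hc : ∀ i : ℕ, P.coeff i ∈ ({-1, 0, 1} : Set ℤ)) {ξ : ℂ} (hξ : aeval ξ P = 0) :
    1 ≤ n ∧ IsIntegral ℤ ξ ∧ (minpoly ℚ ξ).natDegree ≤ n ∧ ‖ξ‖ ≤ 2 := by
  have hl : P.leadingCoeff = 1 ∨ P.leadingCoeff = -1 := by
    have h1 := hc P.natDegree
    have h2 : P.coeff P.natDegree ≠ 0 := leadingCoeff_ne_zero.mpr hP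
    simp only [Set.mem_insert_iff, Set.mem_singleton_iff] at h1
    rw [leadingCoeff]
    tauto
  have hint : IsIntegral ℤ ξ := by
    rcases hl with h | h
    · exact ⟨P, h, hξ⟩
    · refine ⟨-P, by rw [Monic, leadingCoeff_neg, h]; simp, ?_⟩
      rw [eval₂_neg, neg_eq_zero]
      exact hξ
  have hq : IsIntegral ℚ ξ := hint.tower_top
  have hdeg : (minpoly ℚ ξ).natDegree ≤ n := by
    have h1 : P.map (algebraMap ℤ ℚ) ≠ 0 :=
      (Polynomial.map_ne_zero_iff (algebraMap ℤ ℚ).injective_int).mpr hP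
    have h2 := minpoly.dvd ℚ ξ (p := P.map (algebraMap ℤ ℚ)) (by rwa [aeval_map_algebraMap])
    exact (natDegree_le_of_dvd h2 h1).trans (natDegree_map_le.trans hn)
  refine ⟨(minpoly.natDegree_pos hq).trans_le hdeg, hint, hdeg, ?_⟩
  have h1 : P.map (algebraMap ℤ ℂ) ≠ 0 :=
    (Polynomial.map_ne_zero_iff (algebraMap ℤ ℂ).injective_int).mpr hP
  have h2 := IsRoot.norm_lt_cauchyBound h1 (a := ξ) (by rwa [IsRoot.def, eval_map_algebraMap])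
  have h3 : cauchyBound (P.map (algebraMap ℤ ℂ)) ≤ 2 := by
    have h4 : ‖(P.map (algebraMap ℤ ℂ)).leadingCoeff‖₊ = 1 := by
      rw [leadingCoeff_map_of_injective (algebraMap ℤ ℂ).injective_int]
      rcases hl with h | h <;> simp [h]
    rw [cauchyBound, h4, div_one, ← one_add_one_eq_two]
    gcongr
    refine Finset.sup_le fun i _ => ?_
    have h5 := hc i
    simp only [Set.mem_insert_iff, Set.mem_singleton_iff] at h5
    rw [coeff_map]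
    rcases h5 with h | h | h <;> simp [h]
  exact_mod_cast (h2.trans_le h3).le

lemma isConjRoot_inv {ξ a : ℂ} (hq : IsIntegral ℚ ξ) (h : IsConjRoot ℚ ξ⁻¹ a) :
    IsConjRoot ℚ ξ a⁻¹ := by
  have hmem : ξ⁻¹ ∈ ℚ⟮ξ⟯ := inv_mem (mem_adjoin_simple_self ℚ ξ)
  obtain ⟨φ, hφ⟩ := exists_algHom_adjoin_of_splits_of_aeval (F := ℚ) (K := ℂ) (S := {ξ})
    (fun s hs => by
      rw [Set.mem_singleton_iff.mp hs]
      exact ⟨hq, IsAlgClosed.splits _⟩) hmem h.aeval_eq_zero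
  have hab : a⁻¹ = φ (AdjoinSimple.gen ℚ ξ) := by rw [← hφ, ← map_inv₀]; congr 1; ext; simp
  refine isConjRoot_of_aeval_eq_zero hq ?_
  have := aeval_gen_minpoly ℚ ξ
  rw [hab, aeval_algHom_apply]
  exact (congrArg φ this).trans (map_zero φ)

lemma root_facts_inv {n : ℕ} {P : ℤ[X]} (hP : P ≠ 0) (hn : P.natDegree ≤ n)
    (hc : ∀ i : ℕ, P.coeff i ∈ ({-1, 0, 1} : Set ℤ)) {ξ : ℂ} (hξ : aeval ξ P = 0) (h0 : ξ ≠ 0) :
    IsIntegral ℤ ξ⁻¹ ∧ (minpoly ℚ ξ⁻¹).natDegree ≤ n ∧ ‖ξ⁻¹‖ ≤ 2 := by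
  refine (root_facts (P := P.reverse) (by simpa using hP) ((reverse_natDegree_le P).trans hn)
    (fun i => by rw [coeff_reverse]; exact hc _) ?_).2
  let _ := invertibleOfNonzero h0
  exact (eval₂_reverse_eq_zero_iff (algebraMap ℤ ℂ) ξ P).mpr hξ

lemma good_inv {n : ℕ} {P : ℤ[X]} (hP : P ≠ 0) (hn : P.natDegree ≤ n)
    (hc : ∀ i : ℕ, P.coeff i ∈ ({-1, 0, 1} : Set ℤ)) {ξ : ℂ} (hξ : aeval ξ P = 0) (h0 : ξ ≠ 0)
    {κ : ℝ} (hκ : 0 < κ)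
    (h : ∀ a : ℂ, IsConjRoot ℚ ξ a → a = ξ ∨ a = conj ξ ∨ κ⁻¹ ≤ ‖a‖) : Good n κ ξ⁻¹ := by
  obtain ⟨h1, h2, -⟩ := root_facts_inv hP hn hc hξ h0
  refine ⟨h1, h2, fun a ha => ?_⟩
  rcases h _ (isConjRoot_inv (root_facts hP hn hc hξ).2.1.tower_top ha) with h | h | h
  · left; rw [← h, inv_inv]
  · right; left; rw [map_inv₀, ← h, inv_inv]
  · right; right
    rw [norm_inv] at h
    rcases (norm_nonneg a).eq_or_lt with h3 | h3
    · rw [← h3]; exact hκ.le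
    · exact (inv_le_inv₀ hκ h3).mp h

lemma norm_conj_of_unity {x a : ℂ} {m : ℕ} (hm : 0 < m) (h : x ^ m = 1) (ha : IsConjRoot ℚ x a) :
    ‖a‖ = 1 := by
  have hq : IsIntegral ℚ x := IsIntegral.of_pow hm (by rw [h]; exact isIntegral_one)
  have h1 := pow_conj hq m ha
  rw [h, ← map_one (algebraMap ℚ ℂ)] at h1
  exact Complex.norm_eq_one_of_pow_eq_one (h1.eq_algebraMap.trans (map_one _)) hm.ne'

lemma adm_exp {n : ℕ} (hn : 1 ≤ n) : Adm (2 * n) (Real.exp ((1 / 10 ^ 7) / n) ^ 4) := by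
  refine ⟨one_le_pow₀ (Real.one_le_exp (by positivity)), ?_⟩
  rw [← Real.exp_nat_mul, ← Real.exp_nat_mul, ← Real.exp_nat_mul]
  have h0 : (n : ℝ) ≠ 0 := by positivity
  have e : ((31104 * (3 * (2 * n)) : ℕ) : ℝ) * (((4 : ℕ) : ℝ) * (((4 : ℕ) : ℝ) * ((1 / 10 ^ 7) / n)))
      = 2985984 / 10 ^ 7 := by
    push_cast
    field_simp
    norm_num
  rw [e]
  have h1 := Real.add_one_le_exp (-(2985984 / 10 ^ 7 : ℝ))
  rw [Real.exp_neg, le_inv_comm₀ (by norm_num) (Real.exp_pos _)] at h1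
  exact h1.trans (by norm_num)

theorem final : ∃ c C : ℝ, 0 < c ∧ 0 < C ∧
      ∀ n : ℕ, ∀ P₁ P₂ : Polynomial ℤ,
        P₁ ≠ 0 → P₂ ≠ 0 →
        P₁.natDegree ≤ n → P₂.natDegree ≤ n →
        (∀ i : ℕ, P₁.coeff i ∈ ({-1, 0, 1} : Set ℤ)) →
        (∀ i : ℕ, P₂.coeff i ∈ ({-1, 0, 1} : Set ℤ)) →
        ∀ ξ₁ ξ₂ : ℂ,
          Polynomial.aeval ξ₁ P₁ = 0 → Polynomial.aeval ξ₂ P₂ = 0 →
          ξ₁ ≠ ξ₂ →
          (∀ ξ ∈ ({ξ₁, ξ₂} : Set ℂ),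
            (∀ a : ℂ, IsConjRoot ℚ ξ a → a = ξ ∨ a = conj ξ ∨ ‖a‖ ≤ Real.exp (c / n)) ∨
            (∀ a : ℂ, IsConjRoot ℚ ξ a → a = ξ ∨ a = conj ξ ∨ Real.exp (-(c / n)) ≤ ‖a‖)) →
          (C ^ n)⁻¹ < ‖ξ₁ - ξ₂‖ := by
  obtain ⟨C0, hC0, h⟩ := sep_all
  set C : ℝ := max C0 (10 ^ 7) with hCdef
  have hC : 1 < C := lt_max_of_lt_left hC0
  refine ⟨1 / 10 ^ 7, 4 * C, by positivity, by linarith, ?_⟩
  intro n P₁ P₂ h1 h2 d1 d2 c1 c2 x y r1 r2 hne hyp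
  obtain ⟨hn, i1, m1, b1⟩ := root_facts h1 d1 c1 r1
  obtain ⟨-, i2, m2, b2⟩ := root_facts h2 d2 c2 r2
  have hκ4 := adm_exp hn
  simp only [Real.exp_neg] at hyp
  have hκlow : (1 / 10 ^ 7 : ℝ) / n + 1 ≤ Real.exp ((1 / 10 ^ 7) / n) := Real.add_one_le_exp _
  generalize Real.exp ((1 / 10 ^ 7) / n) = κ at hyp hκ4 hκlow
  have hn0 : (0 : ℝ) < n := by exact_mod_cast hn
  have hcn : (0 : ℝ) < (1 / 10 ^ 7 : ℝ) / n := by positivity
  have hκ1 : 1 ≤ κ := by linarith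
  have hκ0 : 0 < κ := by linarith
  have hκi : κ⁻¹ ≤ 1 := inv_le_one_of_one_le₀ hκ1
  have hκ : Adm n κ := hκ4.mono (by omega) hκ1 (le_self_pow₀ hκ1 (by norm_num))
  have h4 : (4 : ℝ) ≤ 4 ^ n := le_self_pow₀ (by norm_num) (by omega)
  have hCn : 1 ≤ C ^ n := one_le_pow₀ hC.le
  have hb : ((4 * C) ^ n)⁻¹ ≤ 4⁻¹ * (C ^ n)⁻¹ := by
    rw [mul_pow, mul_inv]; gcongr
  have hb0 : (C ^ n)⁻¹ ≤ (C0 ^ n)⁻¹ := by gcongr; exact le_max_left _ _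
  have hpos : 0 < (C ^ n)⁻¹ := by positivity
  have hle1 : (C ^ n)⁻¹ ≤ 1 := inv_le_one_of_one_le₀ hCn
  have low : ∀ z : ℂ, z ≠ 0 → ‖z⁻¹‖ ≤ 2 → 2⁻¹ ≤ ‖z‖ := by
    intro z hz hz2
    rw [norm_inv] at hz2
    exact (inv_le_comm₀ (norm_pos_iff.mpr hz) (by norm_num)).mp hz2
  by_cases hx0 : x = 0
  · have hy0 : y ≠ 0 := fun h => hne (hx0.trans h.symm)
    have := low y hy0 (root_facts_inv h2 d2 c2 r2 hy0).2.2
    rw [hx0, zero_sub, norm_neg]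
    linarith
  by_cases hy0 : y = 0
  · have := low x hx0 (root_facts_inv h1 d1 c1 r1 hx0).2.2
    rw [hy0, sub_zero]
    linarith
  have out : (∀ a : ℂ, IsConjRoot ℚ x a → a = x ∨ a = conj x ∨ ‖a‖ ≤ κ) →
      (∀ a : ℂ, IsConjRoot ℚ y a → a = y ∨ a = conj y ∨ ‖a‖ ≤ κ) →
      ((4 * C) ^ n)⁻¹ < ‖x - y‖ := by
    intro g1 g2
    have := h n hn κ hκ1 hκ4 x y ⟨i1, m1, g1⟩ ⟨i2, m2, g2⟩ hne b1 b2
    linarith
  have inn : (∀ a : ℂ, IsConjRoot ℚ x a → a = x ∨ a = conj x ∨ κ⁻¹ ≤ ‖a‖) →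
      (∀ a : ℂ, IsConjRoot ℚ y a → a = y ∨ a = conj y ∨ κ⁻¹ ≤ ‖a‖) →
      ((4 * C) ^ n)⁻¹ < ‖x - y‖ := by
    intro g1 g2
    have e1 := (root_facts_inv h1 d1 c1 r1 hx0).2.2
    have e2 := (root_facts_inv h2 d2 c2 r2 hy0).2.2
    have := h n hn κ hκ1 hκ4 x⁻¹ y⁻¹ (good_inv h1 d1 c1 r1 hx0 hκ0 g1)
      (good_inv h2 d2 c2 r2 hy0 hκ0 g2) (fun h => hne (inv_injective h)) e1 e2
    have e3 : ‖x⁻¹ - y⁻¹‖ ≤ 4 * ‖x - y‖ := by
      rw [show x⁻¹ - y⁻¹ = x⁻¹ * y⁻¹ * (y - x) by field_simp, norm_mul, norm_mul, norm_sub_rev]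
      gcongr ?_ * _
      calc _ ≤ (2 : ℝ) * 2 := by gcongr
        _ = 4 := by norm_num
    linarith
  have mixed : ∀ u v : ℂ, u ≠ 0 → Good n κ u → v ≠ 0 → Good n κ v⁻¹ →
      (∀ a : ℂ, IsConjRoot ℚ u a → a = u ∨ a = conj u ∨ κ⁻¹ ≤ ‖a‖) ∨
      (∀ a : ℂ, IsConjRoot ℚ v a → a = v ∨ a = conj v ∨ ‖a‖ ≤ κ) ∨
      ((4 * C) ^ n)⁻¹ < ‖u - v‖ := by
    intro u v hu gu hv gv
    by_cases a1 : ‖u‖ ≤ κ
    · obtain ⟨m, hm, -, h3⟩ := gu.unity hn hκ hu a1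
      exact Or.inl fun a ha => Or.inr (Or.inr (by rw [norm_conj_of_unity hm h3 ha]; exact hκi))
    by_cases a2 : ‖v⁻¹‖ ≤ κ
    · obtain ⟨m, hm, -, h3⟩ := gv.unity hn hκ (inv_ne_zero hv) a2
      rw [inv_pow, inv_eq_one] at h3
      exact Or.inr (Or.inl fun a ha =>
        Or.inr (Or.inr (by rw [norm_conj_of_unity hm h3 ha]; exact hκ1)))
    right; right
    push Not at a1 a2
    have a3 : ‖v‖ ≤ 1 := by
      by_contra a4
      rw [norm_inv] at a2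
      linarith [inv_lt_one_of_one_lt₀ (not_le.mp a4)]
    have a5 := norm_sub_norm_le u v
    have a6 : ((4 * C) ^ n)⁻¹ ≤ (1 / 10 ^ 7 : ℝ) / n := by
      have a7 : (n : ℝ) ≤ 4 ^ n := by exact_mod_cast (Nat.lt_pow_self (by norm_num)).le
      have a8 : (10 ^ 7 : ℝ) ≤ C ^ n :=
        (le_max_right _ _).trans (le_self_pow₀ hC.le (by omega))
      rw [div_div, one_div, mul_pow, mul_comm]
      gcongr
    linarith
  rcases hyp x (by simp) with g1 | g1 <;> rcases hyp y (by simp) with g2 | g2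
  · exact out g1 g2
  · rcases mixed x y hx0 ⟨i1, m1, g1⟩ hy0 (good_inv h2 d2 c2 r2 hy0 hκ0 g2) with a | a | a
    · exact inn a g2
    · exact out g1 a
    · exact a
  · rcases mixed y x hy0 ⟨i2, m2, g2⟩ hx0 (good_inv h1 d1 c1 r1 hx0 hκ0 g1) with a | a | a
    · exact inn g1 a
    · exact out a g2
    · rwa [norm_sub_rev]
  · exact inn g1 g2

end Pool.Agent.MP_12a475_nt.H58
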