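import Mathlib

/-!
Analytic lemmas for the counterexample to exponential root separation.
-/

open Polynomial Finset

namespace Pool.Agent.Lib.MP_12a475_nt.Neg

/-- A polynomial has a root within `n |P z| / |P' z|` of `z`. -/
theorem exists_root_near (P : ℂ[X]) (z : ℂ) (n : ℕ) (hn : P.natDegree ≤ n) (δ : ℝ) (hδ : 0 < δ)
    (hd : δ ≤ ‖P.derivative.eval z‖) :
    ∃ ρ : ℂ, P.eval ρ = 0 ∧ ‖ρ - z‖ ≤ n * ‖P.eval z‖ / δ := by
  by_cases h0 : P.eval z = 0
  · exact ⟨z, h0, by simp [h0]⟩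
  have hP : P ≠ 0 := fun h => h0 (by simp [h])
  have hs : P.Splits := IsAlgClosed.splits P
  have key := hs.eval_derivative_div_eval_of_ne_zero h0
  have hpos : 0 < ‖P.eval z‖ := norm_pos_iff.2 h0
  have hne : P.roots.toFinset.Nonempty := by
    by_contra hc
    rw [Finset.not_nonempty_iff_eq_empty, Multiset.toFinset_eq_empty] at hc
    rw [hc] at key
    simp only [Multiset.map_zero, Multiset.sum_zero, div_eq_zero_iff, h0, or_false] at key
    rw [key, norm_zero] at hd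
    linarith
  obtain ⟨ρ, hρ, hmin⟩ := Finset.exists_min_image _ (fun w => ‖z - w‖) hne
  have hρr : P.eval ρ = 0 := (mem_roots hP).1 (Multiset.mem_toFinset.1 hρ)
  have hzρ : 0 < ‖z - ρ‖ := norm_pos_iff.2 (sub_ne_zero.2 fun h => h0 (h ▸ hρr))
  refine ⟨ρ, hρr, ?_⟩
  have h1 : ‖(P.roots.map fun w => 1 / (z - w)).sum‖ ≤ n * (1 / ‖z - ρ‖) := by
    refine (norm_multiset_sum_le _).trans ?_
    rw [Multiset.map_map]
    refine (Multiset.sum_le_card_nsmul _ (1 / ‖z - ρ‖) ?_).trans ?_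
    · intro x hx
      obtain ⟨w, hw, rfl⟩ := Multiset.mem_map.1 hx
      simp only [Function.comp_apply, norm_div, norm_one]
      exact one_div_le_one_div_of_le hzρ (hmin w (Multiset.mem_toFinset.2 hw))
    · rw [Multiset.card_map, nsmul_eq_mul]
      have : (P.roots.card : ℝ) ≤ n := by exact_mod_cast (card_roots' P).trans hn
      gcongr
  rw [← key, norm_div, div_le_iff₀ hpos] at h1
  rw [norm_sub_rev, le_div_iff₀ hδ]
  calc ‖z - ρ‖ * δ ≤ ‖z - ρ‖ * (n * (1 / ‖z - ρ‖) * ‖P.eval z‖) := by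
        gcongr; exact hd.trans h1
    _ = n * ‖P.eval z‖ := by field_simp

theorem pow_sub_pow_le (z w : ℂ) (r : ℝ) (hr : 1 ≤ r) (hz : ‖z‖ ≤ r) (hw : ‖w‖ ≤ 1) (i : ℕ) :
    ‖z ^ i - w ^ i‖ ≤ i * r ^ i * ‖z - w‖ := by
  induction i with
  | zero => simp
  | succ i ih =>
    have e : z ^ (i + 1) - w ^ (i + 1) = z * (z ^ i - w ^ i) + w ^ i * (z - w) := by ring
    have h1 : ‖w ^ i‖ ≤ r ^ (i + 1) := by
      rw [norm_pow]
      exact (pow_le_one₀ (norm_nonneg _) hw).trans (one_le_pow₀ hr)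
    rw [e]
    calc _ ≤ ‖z‖ * ‖z ^ i - w ^ i‖ + ‖w ^ i‖ * ‖z - w‖ := by
          refine (norm_add_le _ _).trans ?_
          rw [norm_mul, norm_mul]
      _ ≤ r * (i * r ^ i * ‖z - w‖) + r ^ (i + 1) * ‖z - w‖ := by gcongr
      _ = _ := by push_cast; ring

theorem pow_le_three {u : ℝ} (hu : 0 ≤ u) {n i : ℕ} (h : n * u ≤ 1) (hi : i ≤ n) :
    (1 + u) ^ i ≤ 3 := by
  calc (1 + u) ^ i ≤ (1 + u) ^ n := pow_le_pow_right₀ (by linarith) hi
    _ ≤ Real.exp u ^ n := by
        gcongr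
        linarith [Real.add_one_le_exp u]
    _ = Real.exp (n * u) := (Real.exp_nat_mul u n).symm
    _ ≤ Real.exp 1 := Real.exp_le_exp.2 h
    _ ≤ 3 := by linarith [Real.exp_one_lt_d9]

theorem norm_le_of_near {z w : ℂ} (hw : ‖w‖ = 1) : ‖z‖ ≤ 1 + ‖z - w‖ := by
  have := norm_add_le w (z - w)
  rwa [add_sub_cancel, hw] at this

/-- Lipschitz bound near the unit circle. -/
theorem eval_sub_le (P : ℂ[X]) (n : ℕ) (hn : P.natDegree ≤ n) (H : ℝ) (hH : ∀ i, ‖P.coeff i‖ ≤ H)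
    {z w : ℂ} (hw : ‖w‖ = 1) (hu : n * ‖z - w‖ ≤ 1) :
    ‖P.eval z - P.eval w‖ ≤ (n + 1) * (H * (n * 3 * ‖z - w‖)) := by
  have hH0 : 0 ≤ H := (norm_nonneg _).trans (hH 0)
  rw [eval_eq_sum_range' (Nat.lt_succ_of_le hn), eval_eq_sum_range' (Nat.lt_succ_of_le hn),
    ← sum_sub_distrib]
  refine (norm_sum_le _ _).trans ?_
  refine (sum_le_card_nsmul _ _ (H * (n * 3 * ‖z - w‖)) fun i hi => ?_).trans ?_
  · have hi' : i ≤ n := Nat.lt_succ_iff.1 (mem_range.1 hi)
    rw [← mul_sub, norm_mul]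
    refine mul_le_mul (hH i) ?_ (norm_nonneg _) hH0
    refine (pow_sub_pow_le z w (1 + ‖z - w‖) (by linarith [norm_nonneg (z - w)])
      (norm_le_of_near hw) hw.le i).trans ?_
    have h3 := pow_le_three (norm_nonneg (z - w)) hu hi'
    have h4 : (i : ℝ) ≤ n := by exact_mod_cast hi'
    gcongr
  · simp

/-- A point very close to a `q`-th root of unity, but different from it, is not one. -/
theorem pow_ne_one {z w : ℂ} {q : ℕ} (hq : 0 < q) (hw1 : w ^ q = 1) (hw : ‖w‖ = 1) (hne : z ≠ w)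
    (hu : q * ‖z - w‖ < 1) : z ^ q ≠ 1 := by
  intro hz
  have hw0 : w ≠ 0 := fun h => by simp [h] at hw
  have hv : (z / w) ^ q = 1 := by rw [div_pow, hz, hw1, div_one]
  have hv1 : z / w ≠ 1 := fun h => hne ((div_eq_one_iff_eq hw0).1 h)
  have hs : ∑ i ∈ range q, (z / w) ^ i = 0 := by
    have := mul_geom_sum (z / w) q
    rw [hv, sub_self] at this
    exact (mul_eq_zero.1 this).resolve_left (sub_ne_zero.2 hv1)
  have hn : ‖z / w‖ = 1 := Complex.norm_eq_one_of_pow_eq_one hv hq.ne'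
  have hd : ‖z / w - 1‖ = ‖z - w‖ := by
    rw [div_sub_one hw0, norm_div, hw, div_one]
  have h1 : ‖∑ i ∈ range q, ((z / w) ^ i - 1 ^ i)‖ ≤ q * (q * ‖z - w‖) := by
    refine (norm_sum_le _ _).trans ?_
    refine (sum_le_card_nsmul _ _ (q * ‖z - w‖) fun i hi => ?_).trans (by simp)
    refine (pow_sub_pow_le _ _ 1 le_rfl hn.le (by simp) i).trans ?_
    have h4 : (i : ℝ) ≤ q := by exact_mod_cast (mem_range.1 hi).le
    rw [one_pow, mul_one, hd]
    gcongr
  rw [sum_sub_distrib, hs] at h1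
  simp only [one_pow, sum_const, card_range, nsmul_eq_mul, mul_one, zero_sub, norm_neg,
    Complex.norm_natCast] at h1
  have hq' : (0 : ℝ) < q := by exact_mod_cast hq
  nlinarith

/-- Pigeonhole principle in a disc. -/
theorem exists_close {α : Type} [Fintype α] (f : α → ℂ) (M : ℝ) (hM : 0 < M) (hf : ∀ a, ‖f a‖ ≤ M)
    (G : ℕ) (hG : 0 < G) (hc : (G + 1) * (G + 1) < Fintype.card α) :
    ∃ a b, a ≠ b ∧ ‖f a - f b‖ ≤ 4 * M / G := by
  have hG' : (0 : ℝ) < G := by exact_mod_cast hG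
  let g : ℝ → ℤ := fun x => ⌊(x + M) / (2 * M) * G⌋
  have hg : ∀ x : ℝ, |x| ≤ M → g x ∈ Icc (0 : ℤ) G := by
    intro x hx
    obtain ⟨h1, h2⟩ := abs_le.1 hx
    rw [mem_Icc]
    refine ⟨Int.floor_nonneg.2 (by have : 0 ≤ x + M := by linarith
                                   positivity), ?_⟩
    have : (x + M) / (2 * M) * G ≤ ((G : ℤ) : ℝ) := by
      have h3 : (x + M) / (2 * M) ≤ 1 := by rw [div_le_one (by linarith)]; linarith
      push_cast
      nlinarith
    exact (Int.floor_le_floor this).trans (by rw [Int.floor_intCast])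
  have hg2 : ∀ x y : ℝ, g x = g y → |x - y| ≤ 2 * M / G := by
    intro x y h
    have h1 := Int.abs_sub_lt_one_of_floor_eq_floor h
    have e : (x + M) / (2 * M) * G - (y + M) / (2 * M) * G = (x - y) / (2 * M / G) := by
      field_simp; ring
    rw [e, abs_div, abs_of_pos (show 0 < 2 * M / G by positivity),
      div_lt_one (by positivity)] at h1
    exact h1.le
  obtain ⟨a, -, b, -, hab, h⟩ := Finset.exists_ne_map_eq_of_card_lt_of_maps_to
    (s := (univ : Finset α)) (t := Icc (0 : ℤ) G ×ˢ Icc (0 : ℤ) G)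
    (f := fun a => (g (f a).re, g (f a).im)) (by simpa using hc)
    (fun a _ => by
      simp only [coe_product, Set.mem_prod, mem_coe]
      exact ⟨hg _ ((Complex.abs_re_le_norm _).trans (hf a)),
        hg _ ((Complex.abs_im_le_norm _).trans (hf a))⟩)
  refine ⟨a, b, hab, (Complex.norm_le_abs_re_add_abs_im _).trans ?_⟩
  have h1 := hg2 _ _ (congrArg Prod.fst h)
  have h2 := hg2 _ _ (congrArg Prod.snd h)
  rw [Complex.sub_re, Complex.sub_im]
  have : 4 * M / G = 2 * M / G + 2 * M / G := by ring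
  linarith

end Pool.Agent.Lib.MP_12a475_nt.Neg
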