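import Pool.Agent.Lib.MP_12a475_nt.NegA

/-!
The polynomials of the counterexample.
-/

open Polynomial Finset

noncomputable section

namespace Pool.Agent.Lib.MP_12a475_nt.Neg

/-- all coefficients are `0` or `1` -/
def Z01 (P : ℤ[X]) : Prop := ∀ i, P.coeff i = 0 ∨ P.coeff i = 1

theorem z01_sum {α : Type} (T : Finset α) (e : α → ℕ) (he : Set.InjOn e T) :
    Z01 (∑ x ∈ T, X ^ e x) := by
  classical
  intro i
  rw [finsetSum_coeff]
  simp only [coeff_X_pow]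
  by_cases h : ∃ x ∈ T, i = e x
  · obtain ⟨x, hx, rfl⟩ := h
    right
    rw [sum_eq_single_of_mem x hx, if_pos rfl]
    intro y hy hyx
    exact if_neg fun h => hyx (he hx hy h).symm
  · left
    exact sum_eq_zero fun x hx => if_neg fun h' => h ⟨x, hx, h'⟩

theorem deg_sum {α : Type} (T : Finset α) (e : α → ℕ) (D : ℕ) (he : ∀ x ∈ T, e x ≤ D) :
    (∑ x ∈ T, X ^ e x : ℤ[X]).natDegree ≤ D :=
  natDegree_sum_le_of_forall_le _ _ fun x hx => by rw [natDegree_X_pow]; exact he x hx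

theorem z01_add {P Q : ℤ[X]} (hP : Z01 P) (hQ : Z01 Q) {s : ℕ} (hs : P.natDegree < s) :
    Z01 (P + X ^ s * Q) := by
  intro i
  rw [coeff_add, coeff_X_pow_mul']
  split_ifs with h
  · rw [coeff_eq_zero_of_natDegree_lt (hs.trans_le h), zero_add]
    exact hQ _
  · rw [add_zero]
    exact hP i

theorem z01_one : Z01 1 := fun i => by
  rw [coeff_one]
  split_ifs <;> simp

theorem z01_sub {P Q : ℤ[X]} (hP : Z01 P) (hQ : Z01 Q) (i : ℕ) :
    (P - Q).coeff i ∈ ({-1, 0, 1} : Set ℤ) := by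
  rw [coeff_sub]
  rcases hP i with h | h <;> rcases hQ i with h' | h' <;> simp [h, h']

theorem deg_add {P Q : ℤ[X]} {s t n : ℕ} (hP : P.natDegree ≤ n) (hQ : Q.natDegree ≤ t)
    (h : s + t ≤ n) : (P + X ^ s * Q).natDegree ≤ n :=
  natDegree_add_le_of_degree_le hP (natDegree_mul_le.trans (by rw [natDegree_X_pow]; omega))

/-- `∑ x^r (1 + x^q + ⋯ + x^(q (a r - 1)))` -/
def digit (q : ℕ) {d L : ℕ} (a : Fin d → Fin (L + 1)) : ℤ[X] :=
  ∑ x ∈ (univ : Finset (Fin d)).sigma fun r => range (a r), X ^ ((x.1 : ℕ) + q * x.2)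

theorem digit_z01 {q d L : ℕ} (hd : d ≤ q) (a : Fin d → Fin (L + 1)) : Z01 (digit q a) := by
  refine z01_sum _ _ ?_
  rintro ⟨r, j⟩ - ⟨r', j'⟩ - h
  have h : (r : ℕ) + q * j = r' + q * j' := h
  have h1 : (r : ℕ) < q := r.2.trans_le hd
  have h2 : (r' : ℕ) < q := r'.2.trans_le hd
  have h3 : (r : ℕ) = r' := by
    have := congrArg (· % q) h
    simpa [Nat.add_mul_mod_self_left, Nat.mod_eq_of_lt h1, Nat.mod_eq_of_lt h2] using this
  obtain rfl : r = r' := Fin.ext h3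
  have h4 : j = j' := Nat.eq_of_mul_eq_mul_left (by omega) (Nat.add_left_cancel h)
  rw [h4]

theorem digit_deg {q d L : ℕ} (hd : d ≤ q) (a : Fin d → Fin (L + 1)) :
    (digit q a).natDegree ≤ q * L := by
  refine deg_sum _ _ _ ?_
  rintro ⟨r, j⟩ h
  have h1 : j < a r := mem_range.1 (mem_sigma.1 h).2
  have h2 : (a r : ℕ) ≤ L := Nat.lt_succ_iff.1 (a r).2
  have h3 : (r : ℕ) < q := r.2.trans_le hd
  have h4 : q * (j + 1) ≤ q * L := Nat.mul_le_mul_left q (by omega)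
  change (r : ℕ) + q * j ≤ q * L
  rw [mul_add, mul_one] at h4
  omega

theorem digit_eval {q d L : ℕ} {z : ℂ} (hz : z ^ q = 1) (a : Fin d → Fin (L + 1)) :
    aeval z (digit q a) = ∑ r : Fin d, ((a r : ℕ) : ℂ) * z ^ (r : ℕ) := by
  rw [digit, map_sum, sum_sigma]
  refine sum_congr rfl fun r _ => ?_
  simp [pow_add, pow_mul, hz]

theorem digit_inj {q d L : ℕ} (hq : 0 < q) {z : ℂ} (hz : IsPrimitiveRoot z q) (hd : d = q.totient)
    {a b : Fin d → Fin (L + 1)} (h : aeval z (digit q a) = aeval z (digit q b)) : a = b := by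
  subst hd
  have hli := linearIndependent_pow (K := ℚ) z
  rw [← cyclotomic_eq_minpoly_rat hz hq, natDegree_cyclotomic] at hli
  rw [digit_eval hz.pow_eq_one, digit_eval hz.pow_eq_one] at h
  have := Fintype.linearIndependent_iffₛ.1 hli (fun r => ((a r : ℕ) : ℚ)) (fun r => ((b r : ℕ) : ℚ))
    (by simpa [Algebra.smul_def] using h)
  funext r
  exact Fin.ext (by exact_mod_cast this r)

/-- the factor `1 + x^m + ⋯ + x^(m (p - 1))` -/
def fac (m p : ℕ) : ℤ[X] := ∑ a ∈ range p, X ^ (m * a)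

theorem fac_z01 {m : ℕ} (hm : 0 < m) (p : ℕ) : Z01 (fac m p) :=
  z01_sum _ _ fun _ _ _ _ h => Nat.eq_of_mul_eq_mul_left hm h

theorem fac_deg (m p : ℕ) : (fac m p).natDegree ≤ m * p :=
  deg_sum _ _ _ fun _ ha => Nat.mul_le_mul_left m (mem_range.1 ha).le

theorem fac_eval (m p : ℕ) (z : ℂ) : aeval z (fac m p) = ∑ a ∈ range p, (z ^ m) ^ a := by
  simp [fac, pow_mul]

variable (S : Finset ℕ)

/-- the cofactor of `p` -/
def cof (p : ℕ) : ℕ := ∏ x ∈ S.erase p, x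

/-- the product of all factors -/
def big : ℤ[X] := ∏ p ∈ S, fac (cof S p) p

theorem cof_mul {p : ℕ} (hp : p ∈ S) : cof S p * p = ∏ x ∈ S, x :=
  prod_erase_mul S (fun x => x) hp

theorem big_deg : (big S).natDegree ≤ S.card * ∏ x ∈ S, x := by
  refine (natDegree_prod_le _ _).trans ?_
  refine (sum_le_card_nsmul _ _ (∏ x ∈ S, x) fun p hp => ?_).trans (by simp)
  rw [← cof_mul S hp]
  exact fac_deg _ _

theorem big_z01 (hS : ∀ p ∈ S, p.Prime) : Z01 (big S) := by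
  have e : big S = ∑ x ∈ Fintype.piFinset fun p : S => range p.1,
      X ^ (∑ p : S, cof S p.1 * x p) := by
    rw [big, ← prod_coe_sort S]
    simp only [fac]
    rw [prod_univ_sum]
    exact sum_congr rfl fun x _ => prod_pow_eq_pow_sum _ _ _
  rw [e]
  refine z01_sum _ _ fun x hx y hy h => ?_
  have h : ∑ p : S, cof S p.1 * x p = ∑ p : S, cof S p.1 * y p := h
  funext p
  have key : ∀ w : S → ℕ, ∑ p' : S, cof S p'.1 * w p' ≡ cof S p.1 * w p [MOD p.1] := by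
    intro w
    rw [← add_sum_erase _ _ (mem_univ p)]
    refine (Nat.ModEq.add_left _ ((Nat.modEq_zero_iff_dvd).2 ?_)).trans (by rw [add_zero])
    refine dvd_sum fun p' hp' => Dvd.dvd.mul_right ?_ _
    exact dvd_prod_of_mem _ (mem_erase.2 ⟨fun h => (mem_erase.1 hp').1 (Subtype.ext h).symm, p.2⟩)
  have h1 : cof S p.1 * x p ≡ cof S p.1 * y p [MOD p.1] := by
    refine (key x).symm.trans ?_
    rw [h]
    exact key y
  have hc : Nat.Coprime p.1 (cof S p.1) :=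
    Nat.Coprime.prod_right fun p' hp' =>
      (Nat.coprime_primes (hS _ p.2) (hS _ (mem_erase.1 hp').2)).2 (mem_erase.1 hp').1.symm
  have h2 : x p ≡ y p [MOD p.1] := Nat.ModEq.cancel_left_of_coprime hc h1
  exact Nat.ModEq.eq_of_lt_of_lt h2 (mem_range.1 (Fintype.mem_piFinset.1 hx p))
    (mem_range.1 (Fintype.mem_piFinset.1 hy p))

theorem totient_ge (hS : ∀ p ∈ S, p.Prime) (hb : ∀ p ∈ S, 2 * S.card ≤ p) :
    ∏ x ∈ S, x ≤ 2 * (∏ x ∈ S, x).totient := by
  have h := Nat.totient_eq_mul_prod_factors (∏ x ∈ S, x)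
  rw [Nat.primeFactors_prod hS] at h
  rcases Nat.eq_zero_or_pos S.card with h0 | h0
  · rw [card_eq_zero] at h0
    simp [h0]
  have hk : (0 : ℚ) < S.card := by exact_mod_cast h0
  have hk1 : (1 : ℚ) ≤ S.card := by exact_mod_cast h0
  have hi : (2 * S.card : ℚ)⁻¹ ≤ 1 := inv_le_one_of_one_le₀ (by linarith)
  have h1 : (1 - (2 * S.card : ℚ)⁻¹) ^ S.card ≤ ∏ p ∈ S, (1 - (p : ℚ)⁻¹) := by
    rw [← prod_const]
    refine prod_le_prod (fun _ _ => by linarith) fun p hp => ?_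
    have : (2 * S.card : ℚ) ≤ p := by exact_mod_cast hb p hp
    have := inv_anti₀ (by positivity) this
    linarith
  have h2 := one_add_mul_le_pow (a := -(2 * S.card : ℚ)⁻¹) (by linarith) S.card
  have h3 : 1 + (S.card : ℚ) * -(2 * S.card : ℚ)⁻¹ = 1 / 2 := by field_simp; ring
  rw [h3, ← sub_eq_add_neg] at h2
  have h4 : ((∏ x ∈ S, x : ℕ) : ℚ) ≤ 2 * ((∏ x ∈ S, x).totient : ℚ) := by
    rw [h]
    have h5 : (0 : ℚ) ≤ ((∏ x ∈ S, x : ℕ) : ℚ) := Nat.cast_nonneg _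
    nlinarith [h2.trans h1]
  exact_mod_cast h4

end Pool.Agent.Lib.MP_12a475_nt.Neg
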