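import Pool.Agent.Lib.MP_12a475_nt.NegB

/-!
Two roots at super-exponentially small distance.
-/

open Polynomial Finset

noncomputable section

namespace Pool.Agent.Lib.MP_12a475_nt.Neg

theorem root_near (P : ℤ[X]) (z : ℂ) (n : ℕ) (hn : P.natDegree ≤ n) (δ : ℝ) (hδ : 0 < δ)
    (hd : δ ≤ ‖aeval z P.derivative‖) :
    ∃ ρ : ℂ, aeval ρ P = 0 ∧ ‖ρ - z‖ ≤ n * ‖aeval z P‖ / δ := by
  have := exists_root_near (P.map (algebraMap ℤ ℂ)) z n (natDegree_map_le.trans hn) δ hδ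
    (by rwa [derivative_map, eval_map_algebraMap])
  simpa only [eval_map_algebraMap] using this

theorem lip (P : ℤ[X]) (n : ℕ) (hn : P.natDegree ≤ n) (H : ℝ) (hH : ∀ i, |(P.coeff i : ℝ)| ≤ H)
    {z w : ℂ} (hw : ‖w‖ = 1) (hu : n * ‖z - w‖ ≤ 1) :
    ‖aeval z P - aeval w P‖ ≤ (n + 1) * (H * (n * 3 * ‖z - w‖)) := by
  have := eval_sub_le (P.map (algebraMap ℤ ℂ)) n (natDegree_map_le.trans hn) H
    (fun i => by simpa using hH i) hw hu
  simpa only [eval_map_algebraMap] using this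

theorem abs_coeff_le {P : ℤ[X]} (h : ∀ i, P.coeff i ∈ ({-1, 0, 1} : Set ℤ)) (i : ℕ) :
    |(P.coeff i : ℝ)| ≤ 1 := by
  rcases h i with h | h | h <;> simp [show P.coeff i = _ from h]

theorem abs_der_le {P : ℤ[X]} (h : ∀ i, P.coeff i ∈ ({-1, 0, 1} : Set ℤ)) {n : ℕ}
    (hn : P.natDegree ≤ n) (i : ℕ) : |(P.derivative.coeff i : ℝ)| ≤ n := by
  rw [coeff_derivative]
  by_cases hi : i + 1 ≤ n
  · have h1 := abs_coeff_le h (i + 1)
    have h2 : (i : ℝ) + 1 ≤ n := by exact_mod_cast hi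
    push_cast
    rw [abs_mul, abs_of_nonneg (show (0 : ℝ) ≤ i + 1 by positivity)]
    nlinarith [abs_nonneg (P.coeff (i + 1) : ℝ)]
  · rw [coeff_eq_zero_of_natDegree_lt (by omega)]
    simp

/-- Step 1: a small nonzero value at `z` with a large derivative. -/
theorem step1 {q k B : ℕ} (hq : 0 < q) (hB : 2 ≤ B) (hk : k = B ^ 2) {z : ℂ}
    (hz : IsPrimitiveRoot z q) : ∃ U V : ℤ[X], Z01 U ∧ Z01 V ∧ U.natDegree ≤ q * k + 1 + q ∧
      V.natDegree ≤ q * k + 1 + q ∧ aeval z (U - V) ≠ 0 ∧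
      ‖aeval z (U - V)‖ ≤ 8 * (k * q) / (B : ℝ) ^ q.totient ∧
      1 / 2 ≤ ‖aeval z (U - V).derivative‖ := by
  set d := q.totient with hd
  have hd0 : 0 < d := Nat.totient_pos.2 hq
  have hdq : d ≤ q := Nat.totient_le q
  have hz1 : ‖z‖ = 1 := Complex.norm_eq_one_of_pow_eq_one hz.pow_eq_one hq.ne'
  have hBd : 2 ≤ B ^ d := hB.trans (Nat.le_self_pow hd0.ne' B)
  have hk0 : 0 < k := by rw [hk]; positivity
  obtain ⟨G, hG⟩ : ∃ G, B ^ d = G + 1 := ⟨B ^ d - 1, by omega⟩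
  have hG0 : 0 < G := by omega
  have hM : (0 : ℝ) < k * q := by positivity
  obtain ⟨a, b, hab, hc⟩ := exists_close (fun a : Fin d → Fin (k + 1) => aeval z (digit q a))
    (k * q) hM (fun a => by
      rw [digit_eval hz.pow_eq_one]
      refine (norm_sum_le _ _).trans ?_
      refine (sum_le_card_nsmul _ _ (k : ℝ) fun r _ => ?_).trans ?_
      · rw [norm_mul, norm_pow, hz1, one_pow, mul_one, Complex.norm_natCast]
        exact_mod_cast Nat.lt_succ_iff.1 (a r).2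
      · have : (d : ℝ) ≤ q := by exact_mod_cast hdq
        rw [card_univ, Fintype.card_fin, nsmul_eq_mul, mul_comm]
        gcongr) G hG0 (by
      rw [← hG, Fintype.card_fun, Fintype.card_fin, Fintype.card_fin, ← mul_pow, ← sq, ← hk]
      exact Nat.pow_lt_pow_left (Nat.lt_succ_self k) hd0.ne')
  have hne : aeval z (digit q a - digit q b) ≠ 0 := by
    rw [map_sub, sub_ne_zero]
    exact fun h => hab (digit_inj hq hz hd h)
  have hsm : ‖aeval z (digit q a - digit q b)‖ ≤ 8 * (k * q) / (B : ℝ) ^ d := by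
    rw [map_sub]
    refine hc.trans ?_
    have h1 : (B : ℝ) ^ d = G + 1 := by exact_mod_cast hG
    have h2 : (1 : ℝ) ≤ G := by exact_mod_cast hG0
    rw [h1, div_le_div_iff₀ (by linarith) (by linarith)]
    nlinarith
  by_cases hder : 1 / 2 ≤ ‖aeval z (digit q a - digit q b).derivative‖
  · exact ⟨_, _, digit_z01 hdq a, digit_z01 hdq b, (digit_deg hdq a).trans (by omega),
      (digit_deg hdq b).trans (by omega), hne, hsm, hder⟩
  · have e : digit q a + X ^ (q * k + 1 + q) * 1 - (digit q b + X ^ (q * k + 1) * 1) =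
        digit q a - digit q b + (X ^ (q * k + 1 + q) - X ^ (q * k + 1)) := by ring
    have e1 : aeval z (digit q a - digit q b + (X ^ (q * k + 1 + q) - X ^ (q * k + 1))) =
        aeval z (digit q a - digit q b) := by
      simp [pow_add, hz.pow_eq_one]
    have e2 : aeval z (X ^ (q * k + 1 + q) - X ^ (q * k + 1) : ℤ[X]).derivative = q := by
      have h1 : q * k + 1 + q - 1 = q * (k + 1) := by rw [mul_add]; omega
      simp only [derivative_X_pow, map_sub, map_mul, map_pow, aeval_X, h1,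
        Nat.add_sub_cancel, pow_mul, hz.pow_eq_one, one_pow, mul_one, map_natCast]
      push_cast
      ring
    refine ⟨digit q a + X ^ (q * k + 1 + q) * 1, digit q b + X ^ (q * k + 1) * 1,
      z01_add (digit_z01 hdq a) z01_one ((digit_deg hdq a).trans_lt (by omega)),
      z01_add (digit_z01 hdq b) z01_one ((digit_deg hdq b).trans_lt (by omega)),
      deg_add (t := 0) ((digit_deg hdq a).trans (by omega)) (by simp) (by omega),
      deg_add (t := 0) ((digit_deg hdq b).trans (by omega)) (by simp) (by omega), ?_, ?_, ?_⟩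
    · rwa [e, e1]
    · rwa [e, e1]
    · rw [e, derivative_add, map_add, e2]
      have h1 := norm_sub_le (aeval z (digit q a - digit q b).derivative + (q : ℂ))
        (aeval z (digit q a - digit q b).derivative)
      rw [add_sub_cancel_left, Complex.norm_natCast] at h1
      have h2 : (1 : ℝ) ≤ q := by exact_mod_cast hq
      linarith [not_le.1 hder]

variable (S : Finset ℕ)

theorem fac_zero (hS : ∀ p ∈ S, p.Prime) {z : ℂ} (hz : IsPrimitiveRoot z (∏ x ∈ S, x)) {p : ℕ}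
    (hp : p ∈ S) : aeval z (fac (cof S p) p) = 0 := by
  rw [fac_eval]
  exact (hz.pow (prod_pos fun x hx => (hS x hx).pos) (cof_mul S hp).symm).geom_sum_eq_zero
    (hS p hp).one_lt

theorem big_der (hS : ∀ p ∈ S, p.Prime) (hk : 2 ≤ S.card) {z : ℂ}
    (hz : IsPrimitiveRoot z (∏ x ∈ S, x)) (s : ℕ) :
    aeval z (X ^ s * big S).derivative = 0 := by
  obtain ⟨p, hp, p', hp', hpp⟩ := one_lt_card.1 hk
  have h1 := fac_zero S hS hz hp
  have h2 : aeval z (∏ x ∈ S.erase p, fac (cof S x) x) = 0 := by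
    rw [map_prod]
    exact prod_eq_zero (mem_erase.2 ⟨hpp.symm, hp'⟩) (fac_zero S hS hz hp')
  rw [big, ← mul_prod_erase S _ hp]
  simp only [derivative_mul, map_add, map_mul, h1, h2, mul_zero, zero_mul, add_zero]

theorem big_ne {w : ℂ} (hw : w ^ (∏ x ∈ S, x) ≠ 1) : aeval w (big S) ≠ 0 := by
  rw [big, map_prod, prod_ne_zero_iff]
  intro p hp h
  apply hw
  have := mul_geom_sum (w ^ cof S p) p
  rw [← fac_eval, h, mul_zero, ← pow_mul, cof_mul S hp] at this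
  exact (sub_eq_zero.1 this.symm)

theorem ineq1 {N u : ℝ} (hN : 1 ≤ N) (hu : 0 ≤ u) :
    (N + 1) * (1 * (N * 3 * u)) ≤ 6 * N ^ 2 * u := by
  nlinarith [mul_nonneg (sub_nonneg.2 hN) (mul_nonneg (zero_le_one.trans hN) hu)]

theorem ineq2 {N u : ℝ} (hN : 1 ≤ N) (hu : 0 ≤ u) :
    (N + 1) * (N * (N * 3 * u)) ≤ 6 * (N ^ 3 * u) := by
  nlinarith [mul_nonneg (sub_nonneg.2 hN) (mul_nonneg (sq_nonneg N) hu)]

/-- Step 2: two close roots. -/
theorem step2 (hS : ∀ p ∈ S, p.Prime) {B n : ℕ} (hB : 2 ≤ B) (hk : S.card = B ^ 2)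
    (hn : n = 4 * (∏ x ∈ S, x) * S.card) (E : ℝ) (hE : 1 ≤ E)
    (hbig : 1152 * (n : ℝ) ^ 5 * E ≤ (B : ℝ) ^ (∏ x ∈ S, x).totient) :
    ∃ P₁ P₂ : ℤ[X], P₁ ≠ 0 ∧ P₂ ≠ 0 ∧ P₁.natDegree ≤ n ∧ P₂.natDegree ≤ n ∧
      (∀ i, P₁.coeff i ∈ ({-1, 0, 1} : Set ℤ)) ∧ (∀ i, P₂.coeff i ∈ ({-1, 0, 1} : Set ℤ)) ∧
      ∃ ξ₁ ξ₂ : ℂ, aeval ξ₁ P₁ = 0 ∧ aeval ξ₂ P₂ = 0 ∧ ξ₁ ≠ ξ₂ ∧
        ‖ξ₁ - ξ₂‖ ≤ (E ^ S.card)⁻¹ := by
  set q := ∏ x ∈ S, x with hqd
  set k := S.card with hkd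
  have hq : 0 < q := prod_pos fun x hx => (hS x hx).pos
  have hk2 : 2 ≤ k := by rw [hk]; nlinarith
  have hz := Complex.isPrimitiveRoot_exp q hq.ne'
  generalize Complex.exp (2 * Real.pi * Complex.I / q) = z at hz
  have hz1 : ‖z‖ = 1 := Complex.norm_eq_one_of_pow_eq_one hz.pow_eq_one hq.ne'
  obtain ⟨U, V, hU, hV, dU, dV, hne, hsm, hder⟩ := step1 hq hB hk hz
  have hqk : q * 2 ≤ q * k := Nat.mul_le_mul_left q hk2
  have hn' : n = 4 * (q * k) := by rw [hn, mul_assoc]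
  have dUn : U.natDegree ≤ n := dU.trans (by omega)
  have dVn : V.natDegree ≤ n := dV.trans (by omega)
  set s := q * k + 2 + q with hs
  have dW : (U + X ^ s * big S).natDegree ≤ n :=
    deg_add dUn (big_deg S) (by rw [← hqd, ← hkd, mul_comm k q]; omega)
  have hW : Z01 (U + X ^ s * big S) := z01_add hU (big_z01 S hS) (by omega)
  have d1 : (U - V).natDegree ≤ n := (natDegree_sub_le _ _).trans (max_le dUn dVn)
  have d2 : (U + X ^ s * big S - V).natDegree ≤ n := (natDegree_sub_le _ _).trans (max_le dW dVn)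
  have e : U + X ^ s * big S - V = U - V + X ^ s * big S := by ring
  obtain ⟨ξ, hξ, hu⟩ := root_near (U - V) z n d1 (1 / 2) (by norm_num) hder
  have hξz : ξ ≠ z := fun h => hne (h ▸ hξ)
  set u := ‖ξ - z‖ with hud
  have hu0 : 0 ≤ u := norm_nonneg _
  have hN : (1 : ℝ) ≤ n := by exact_mod_cast (show 1 ≤ n by omega)
  have hqN : (q : ℝ) ≤ n := by exact_mod_cast (show q ≤ n by omega)
  have hkq : (k : ℝ) * q ≤ n := by
    exact_mod_cast (show k * q ≤ n by rw [mul_comm k q]; omega)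
  have hD : (0 : ℝ) < (B : ℝ) ^ q.totient := by positivity
  have hu1 : 72 * (n : ℝ) ^ 3 * u ≤ E⁻¹ := by
    have h1 : u ≤ 16 * (n : ℝ) ^ 2 / (B : ℝ) ^ q.totient := by
      calc u ≤ n * (8 * n / (B : ℝ) ^ q.totient) / (1 / 2) := by
            refine hu.trans ?_
            gcongr
            refine hsm.trans ?_
            gcongr
        _ = _ := by ring
    calc 72 * (n : ℝ) ^ 3 * u ≤ 72 * (n : ℝ) ^ 3 * (16 * (n : ℝ) ^ 2 / (B : ℝ) ^ q.totient) := by
          gcongr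
      _ = 1152 * (n : ℝ) ^ 5 * E / (B : ℝ) ^ q.totient * E⁻¹ := by field_simp; ring
      _ ≤ 1 * E⁻¹ := by
          gcongr
          exact (div_le_one hD).2 hbig
      _ = E⁻¹ := one_mul _
  have hu2 : 72 * (n : ℝ) ^ 3 * u ≤ 1 := hu1.trans (inv_le_one_of_one_le₀ hE)
  have hn3 : (n : ℝ) * u ≤ (n : ℝ) ^ 3 * u := by
    gcongr
    exact le_self_pow₀ hN (by norm_num)
  have hnu : (n : ℝ) * u ≤ 1 / 72 := by linarith only [hn3, hu2]
  have hnu1 : (n : ℝ) * u ≤ 1 := by linarith only [hnu]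
  have hξq : ξ ^ q ≠ 1 := pow_ne_one hq hz.pow_eq_one hz1 hξz
    ((mul_le_mul_of_nonneg_right hqN hu0).trans_lt (by linarith only [hnu]))
  have hξ0 : ξ ≠ 0 := by
    rintro rfl
    rw [zero_sub, norm_neg, hz1] at hud
    rw [hud] at hnu
    linarith only [hnu, hN]
  have ev : aeval ξ (U + X ^ s * big S - V) = ξ ^ s * aeval ξ (big S) := by
    rw [e, map_add, hξ, zero_add, map_mul, map_pow, aeval_X]
  have hv0 : aeval ξ (U + X ^ s * big S - V) ≠ 0 := by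
    rw [ev]
    exact mul_ne_zero (pow_ne_zero _ hξ0) (big_ne S hξq)
  have hv1 : ‖aeval ξ (U + X ^ s * big S - V)‖ ≤ 3 * (6 * (n : ℝ) ^ 2 * u) ^ k := by
    rw [ev, norm_mul, norm_pow, big, map_prod, norm_prod]
    refine mul_le_mul ?_ ?_ (prod_nonneg fun _ _ => norm_nonneg _) (by norm_num)
    · exact (pow_le_pow_left₀ (norm_nonneg _) (norm_le_of_near hz1) s).trans
        (pow_le_three hu0 hnu1 (by omega))
    · rw [hkd, ← prod_const]
      refine prod_le_prod (fun _ _ => norm_nonneg _) fun p hp => ?_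
      have hc : 0 < cof S p := prod_pos fun x hx => (hS x (mem_erase.1 hx).2).pos
      have h1 := lip (fac (cof S p) p) n ((fac_deg _ _).trans (by rw [cof_mul S hp]; omega)) 1
        (fun i => by rcases fac_z01 hc p i with h | h <;> simp [h]) hz1 hnu1
      rw [fac_zero S hS hz hp, sub_zero] at h1
      exact h1.trans (ineq1 hN hu0)
  have hder2 : 1 / 4 ≤ ‖aeval ξ (U + X ^ s * big S - V).derivative‖ := by
    have ha := abs_der_le (z01_sub hW hV) d2
    have hb := (natDegree_derivative_le (U + X ^ s * big S - V)).trans ((Nat.sub_le _ _).trans d2)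
    have h1 := lip _ n hb n ha hz1 hnu1
    have h2 : aeval z (U + X ^ s * big S - V).derivative = aeval z (U - V).derivative := by
      rw [e, derivative_add, map_add, big_der S hS hk2 hz, add_zero]
    rw [h2] at h1
    have h5 := h1.trans (ineq2 hN hu0)
    generalize aeval z (U - V).derivative = a at h5 hder
    generalize aeval ξ (U + X ^ s * big S - V).derivative = b at h5 ⊢
    have h3 : ‖a‖ - ‖b‖ ≤ ‖b - a‖ := (norm_sub_norm_le a b).trans (norm_sub_rev a b).le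
    have h4 := h3.trans h5
    linarith only [h4, hder, hu2]
  obtain ⟨ξ', hξ', hu'⟩ := root_near _ ξ n d2 (1 / 4) (by norm_num) hder2
  refine ⟨U - V, U + X ^ s * big S - V, fun h => hne (by rw [h, map_zero]),
    fun h => hv0 (by rw [h, map_zero]), d1, d2, z01_sub hU hV, z01_sub hW hV, ξ, ξ', hξ, hξ',
    fun h => hv0 (h ▸ hξ'), ?_⟩
  rw [norm_sub_rev]
  calc ‖ξ' - ξ‖ ≤ n * (3 * (6 * (n : ℝ) ^ 2 * u) ^ k) / (1 / 4) := by
        refine hu'.trans ?_
        gcongr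
    _ = (12 * n) * (6 * (n : ℝ) ^ 2 * u) ^ k := by ring
    _ ≤ (12 * n) ^ k * (6 * (n : ℝ) ^ 2 * u) ^ k := by
        gcongr
        exact le_self_pow₀ (by linarith) (by omega)
    _ = (72 * (n : ℝ) ^ 3 * u) ^ k := by rw [← mul_pow]; congr 1; ring
    _ ≤ (E⁻¹) ^ k := by gcongr
    _ = (E ^ k)⁻¹ := inv_pow E k

/-- For every `c` there are two distinct roots at distance at most `c^(-n)`. -/
theorem close (c : ℕ) (hc : 1 ≤ c) :
    ∃ (n : ℕ) (P₁ P₂ : ℤ[X]), P₁ ≠ 0 ∧ P₂ ≠ 0 ∧ P₁.natDegree ≤ n ∧ P₂.natDegree ≤ n ∧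
      (∀ i, P₁.coeff i ∈ ({-1, 0, 1} : Set ℤ)) ∧ (∀ i, P₂.coeff i ∈ ({-1, 0, 1} : Set ℤ)) ∧
      ∃ ξ₁ ξ₂ : ℂ, aeval ξ₁ P₁ = 0 ∧ aeval ξ₂ P₂ = 0 ∧ ξ₁ ≠ ξ₂ ∧
        ‖ξ₁ - ξ₂‖ ≤ ((c : ℝ) ^ n)⁻¹ := by
  set B := (2 * c ^ 4) ^ 2 with hB
  set k := B ^ 2 with hk
  have hc4 : 1 ≤ c ^ 4 := Nat.one_le_pow _ _ hc
  have hB2 : 2 ≤ B := by rw [hB]; nlinarith
  have hk0 : 0 < k := by rw [hk]; positivity
  have ht := tendsto_pow_const_div_const_pow_of_one_lt 5 (show (1 : ℝ) < 2 by norm_num)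
  have hε : (0 : ℝ) < (1152 * (4 * k : ℝ) ^ 5)⁻¹ := by positivity
  obtain ⟨T, hT⟩ := Filter.eventually_atTop.1 (ht.eventually (gt_mem_nhds hε))
  have hinf : ({p | p.Prime} \ Set.Iio (max T (2 * k)) : Set ℕ).Infinite :=
    Nat.infinite_setOfPred_prime.sdiff (Set.finite_Iio _)
  obtain ⟨S, hSsub, hScard⟩ := hinf.exists_subset_card_eq k
  have hS : ∀ p ∈ S, p.Prime := fun p hp => (hSsub hp).1
  have hS2 : ∀ p ∈ S, max T (2 * k) ≤ p := fun p hp => not_lt.1 (hSsub hp).2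
  set q := ∏ x ∈ S, x with hq
  have hq0 : 0 < q := prod_pos fun x hx => (hS x hx).pos
  have hqT : T ≤ q := by
    obtain ⟨p, hp⟩ := card_pos.1 (hScard ▸ hk0)
    exact ((le_max_left _ _).trans (hS2 p hp)).trans (Nat.le_of_dvd hq0 (dvd_prod_of_mem _ hp))
  have htot : q ≤ 2 * q.totient :=
    totient_ge S hS fun p hp => hScard ▸ (le_max_right _ _).trans (hS2 p hp)
  have hc' : (1 : ℝ) ≤ c := by exact_mod_cast hc
  obtain ⟨P₁, P₂, h⟩ := step2 S hS hB2 hScard rfl ((c : ℝ) ^ (4 * q)) (one_le_pow₀ hc') (by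
    have h1 := hT q hqT
    rw [div_lt_iff₀ (by positivity), inv_mul_eq_div, lt_div_iff₀ (by positivity)] at h1
    rw [← hq, hScard]
    calc 1152 * ((4 * q * k : ℕ) : ℝ) ^ 5 * (c : ℝ) ^ (4 * q)
        = (q : ℝ) ^ 5 * (1152 * (4 * k : ℝ) ^ 5) * (c : ℝ) ^ (4 * q) := by push_cast; ring
      _ ≤ 2 ^ q * (c : ℝ) ^ (4 * q) := by gcongr
      _ = (2 * (c : ℝ) ^ 4) ^ q := by rw [mul_pow, pow_mul]
      _ ≤ (2 * (c : ℝ) ^ 4) ^ (2 * q.totient) :=
          pow_le_pow_right₀ (by nlinarith [one_le_pow₀ (n := 4) hc']) htot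
      _ = (B : ℝ) ^ q.totient := by rw [pow_mul, hB]; push_cast; rfl)
  rw [← pow_mul] at h
  exact ⟨_, P₁, P₂, h⟩

end Pool.Agent.Lib.MP_12a475_nt.Neg
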