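import Pool.Agent.Lib.MP_12a475_nt.NegC

/-!
The explicit rate `exp (-c n log log n)` for all large `n`.
-/

open Polynomial Finset

noncomputable section

namespace Pool.Agent.Lib.MP_12a475_nt.Neg

/-- A chain of primes from Bertrand's postulate. -/
theorem chain (a : ℕ) (ha : a ≠ 0) (m : ℕ) :
    ∃ S : Finset ℕ, S.card = m ∧ ∀ p ∈ S, p.Prime ∧ a < p ∧ p ≤ a * 2 ^ m := by
  induction m with
  | zero => exact ⟨∅, rfl, by simp⟩
  | succ m ih =>
    obtain ⟨S, hS, h⟩ := ih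
    obtain ⟨p, hp, h1, h2⟩ := Nat.exists_prime_lt_and_le_two_mul (a * 2 ^ m) (by positivity)
    have hn : p ∉ S := fun hh => absurd (h p hh).2.2 (not_le.2 h1)
    refine ⟨insert p S, by rw [card_insert_of_notMem hn, hS], fun r hr => ?_⟩
    rcases mem_insert.1 hr with rfl | hr
    · exact ⟨hp, (Nat.le_mul_of_pos_right a (by positivity)).trans_lt h1,
        by rw [pow_succ, ← mul_assoc]; omega⟩
    · exact ⟨(h r hr).1, (h r hr).2.1, (h r hr).2.2.trans (by rw [pow_succ, ← mul_assoc]; omega)⟩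

/-- A set of `k` primes above `2 k` whose product is within a factor two of `n / (4 k)`. -/
theorem fit (k n : ℕ) (hk : 4 ≤ k) (hn : 2 ^ (4 * k ^ 2) ≤ n) :
    ∃ S : Finset ℕ, S.card = k ∧ (∀ p ∈ S, p.Prime ∧ 2 * k ≤ p) ∧
      4 * (∏ x ∈ S, x) * k ≤ n ∧ n ≤ 8 * (∏ x ∈ S, x) * k := by
  obtain ⟨j, rfl⟩ : ∃ j, k = j + 1 := ⟨k - 1, by omega⟩
  obtain ⟨S, hS, h⟩ := chain (2 * (j + 1)) (by omega) j
  have hj : j + 1 ≤ 2 ^ j := Nat.lt_two_pow_self
  have hb : 2 * (j + 1) * 2 ^ j ≤ 2 ^ (2 * j + 1) := by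
    rw [pow_succ, two_mul j, pow_add]
    nlinarith [show 0 < 2 ^ j by positivity]
  set r := ∏ x ∈ S, x with hr
  have hr0 : 0 < r := prod_pos fun x hx => (h x hx).1.pos
  have hr1 : r ≤ (2 ^ (2 * j + 1)) ^ j := by
    rw [← hS]
    exact prod_le_pow_card _ _ _ fun x hx => by rw [hS]; exact (h x hx).2.2.trans hb
  have hD : 0 < 8 * r * (j + 1) := by positivity
  have hm : 2 ^ (2 * j + 1) ≤ n / (8 * r * (j + 1)) := by
    rw [Nat.le_div_iff_mul_le hD]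
    calc 2 ^ (2 * j + 1) * (8 * r * (j + 1))
        ≤ 2 ^ (2 * j + 1) * (2 ^ 3 * (2 ^ (2 * j + 1)) ^ j * 2 ^ j) := by gcongr; norm_num
      _ = 2 ^ (2 * j + 1 + (3 + (2 * j + 1) * j + j)) := by
          rw [← pow_mul, ← pow_add, ← pow_add, ← pow_add]
      _ ≤ 2 ^ (4 * (j + 1) ^ 2) := Nat.pow_le_pow_right (by norm_num) (by nlinarith)
      _ ≤ n := hn
  set m := n / (8 * r * (j + 1)) with hmd
  have hm0 : m ≠ 0 := by
    have : 0 < 2 ^ (2 * j + 1) := by positivity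
    omega
  obtain ⟨p, hp, h1, h2⟩ := Nat.exists_prime_lt_and_le_two_mul m hm0
  have hn' : p ∉ S := fun hh => absurd (((h p hh).2.2.trans hb).trans hm) (not_le.2 h1)
  have e1 : m * (8 * r * (j + 1)) ≤ n := Nat.div_mul_le_self _ _
  have e2 : n < (m + 1) * (8 * r * (j + 1)) := by
    rw [mul_comm]
    exact Nat.lt_mul_div_succ n hD
  refine ⟨insert p S, by rw [card_insert_of_notMem hn', hS], fun x hx => ?_, ?_, ?_⟩
  · rcases mem_insert.1 hx with rfl | hx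
    · refine ⟨hp, le_trans ?_ ((hb.trans hm).trans h1.le)⟩
      exact Nat.le_mul_of_pos_right _ (by positivity)
    · exact ⟨(h x hx).1, (h x hx).2.1.le⟩
  · rw [prod_insert hn', ← hr]
    calc 4 * (p * r) * (j + 1) ≤ 4 * (2 * m * r) * (j + 1) := by gcongr
      _ = m * (8 * r * (j + 1)) := by ring
      _ ≤ n := e1
  · rw [prod_insert hn', ← hr]
    calc n ≤ (m + 1) * (8 * r * (j + 1)) := e2.le
      _ ≤ p * (8 * r * (j + 1)) := by gcongr; omega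
      _ = 8 * (p * r) * (j + 1) := by ring

theorem exists_scale (B₀ n : ℕ) (hn : 2 ^ (4 * B₀ ^ 4) ≤ n) :
    ∃ B, B₀ ≤ B ∧ 2 ^ (4 * B ^ 4) ≤ n ∧ n < 2 ^ (4 * (B + 1) ^ 4) := by
  classical
  have hex : ∃ B, n < 2 ^ (4 * (B + 1) ^ 4) := by
    refine ⟨n, Nat.lt_two_pow_self.trans_le (Nat.pow_le_pow_right (by norm_num) ?_)⟩
    have : n + 1 ≤ (n + 1) ^ 4 := Nat.le_self_pow (by norm_num) _
    omega
  by_cases h : Nat.find hex ≤ B₀
  · refine ⟨B₀, le_rfl, hn, (Nat.find_spec hex).trans_le ?_⟩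
    gcongr
    norm_num
  · obtain ⟨b, hb⟩ : ∃ b, Nat.find hex = b + 1 := ⟨Nat.find hex - 1, by omega⟩
    exact ⟨b + 1, by omega, not_lt.1 (Nat.find_min hex (by omega)), hb ▸ Nat.find_spec hex⟩

theorem rate : ∃ N : ℕ, ∀ n ≥ N, ∃ P₁ P₂ : ℤ[X], P₁ ≠ 0 ∧ P₂ ≠ 0 ∧
      P₁.natDegree ≤ n ∧ P₂.natDegree ≤ n ∧
      (∀ i, P₁.coeff i ∈ ({-1, 0, 1} : Set ℤ)) ∧ (∀ i, P₂.coeff i ∈ ({-1, 0, 1} : Set ℤ)) ∧
      ∃ ξ₁ ξ₂ : ℂ, aeval ξ₁ P₁ = 0 ∧ aeval ξ₂ P₂ = 0 ∧ ξ₁ ≠ ξ₂ ∧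
        ‖ξ₁ - ξ₂‖ ≤ Real.exp (-(1 / 320 * n * Real.log (Real.log n))) := by
  have ht := (isLittleO_pow_exp_pos_mul_atTop 10 (show (0 : ℝ) < 1 / 8 by norm_num)).bound
    (show (0 : ℝ) < 1 / (1152 * 4 ^ 5) by norm_num)
  obtain ⟨T, hT⟩ := Filter.eventually_atTop.1 ht
  refine ⟨2 ^ (4 * (max 2 ⌈T⌉₊) ^ 4), fun n hn => ?_⟩
  obtain ⟨B, hB, h1, h2⟩ := exists_scale _ n hn
  have hB2 : 2 ≤ B := (le_max_left _ _).trans hB
  have hBT : ⌈T⌉₊ ≤ B := (le_max_right _ _).trans hB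
  obtain ⟨S, hk, hS, e1, e2⟩ := fit (B ^ 2) n (by nlinarith) (by rwa [← pow_mul])
  set q := ∏ x ∈ S, x with hq
  have hq0 : 0 < q := prod_pos fun x hx => (hS x hx).1.pos
  have hkq : B ^ 2 ≤ q := by
    obtain ⟨p, hp⟩ := card_pos.1 (show 0 < S.card by rw [hk]; positivity)
    have := (hS p hp).2.trans (Nat.le_of_dvd hq0 (dvd_prod_of_mem _ hp))
    omega
  have hTq : T ≤ q := by
    refine (Nat.le_ceil T).trans (Nat.cast_le.2 (hBT.trans (le_trans ?_ hkq)))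
    exact Nat.le_self_pow (by norm_num) _
  have htot : q ≤ 2 * q.totient :=
    totient_ge S (fun p hp => (hS p hp).1) fun p hp => hk ▸ (hS p hp).2
  have hB' : (2 : ℝ) ≤ B := by exact_mod_cast hB2
  have hl : 1 / 2 ≤ Real.log B :=
    le_trans (by linarith [Real.log_two_gt_d9]) (Real.log_le_log (by norm_num) hB')
  have hq' : (0 : ℝ) ≤ q := Nat.cast_nonneg q
  obtain ⟨P₁, P₂, g1, g2, d1, d2, c1, c2, ξ₁, ξ₂, r1, r2, hne, hle⟩ :=
    step2 S (fun p hp => (hS p hp).1) hB2 hk rfl (Real.exp (q / 4 * Real.log B))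
      (Real.one_le_exp (by positivity)) (by
        rw [← hq, hk]
        have h3 := hT q hTq
        rw [Real.norm_of_nonneg (by positivity), Real.norm_of_nonneg (Real.exp_pos _).le] at h3
        have h4 : ((B ^ 2 : ℕ) : ℝ) ≤ q := by exact_mod_cast hkq
        have h5 : (q : ℝ) ≤ 2 * q.totient := by exact_mod_cast htot
        calc 1152 * ((4 * q * B ^ 2 : ℕ) : ℝ) ^ 5 * Real.exp (q / 4 * Real.log B)
            = 1152 * (4 * q * ((B ^ 2 : ℕ) : ℝ)) ^ 5 * Real.exp (q / 4 * Real.log B) := by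
              push_cast; ring
          _ ≤ 1152 * (4 * q * (q : ℝ)) ^ 5 * Real.exp (q / 4 * Real.log B) := by gcongr
          _ = 1152 * 4 ^ 5 * (q : ℝ) ^ 10 * Real.exp (q / 4 * Real.log B) := by ring
          _ ≤ Real.exp (1 / 8 * q) * Real.exp (q / 4 * Real.log B) := by
              gcongr
              linarith
          _ ≤ Real.exp (q.totient * Real.log B) := by
              rw [← Real.exp_add]
              gcongr
              nlinarith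
          _ = (B : ℝ) ^ q.totient := by
              rw [Real.exp_nat_mul, Real.exp_log (by linarith)])
  rw [← hq, hk] at d1 d2
  refine ⟨P₁, P₂, g1, g2, d1.trans e1, d2.trans e1, c1, c2, ξ₁, ξ₂, r1, r2, hne, hle.trans ?_⟩
  rw [hk, ← Real.exp_nat_mul, ← Real.exp_neg]
  have hn1 : (2 : ℝ) ≤ n := by
    have : 2 ^ 1 ≤ 2 ^ (4 * B ^ 4) := Nat.pow_le_pow_right (by norm_num) (by
      have : 0 < B ^ 4 := by positivity
      omega)
    exact_mod_cast this.trans h1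
  have hlog : Real.log n ≤ (B : ℝ) ^ 10 := by
    have h3 : (n : ℝ) ≤ 2 ^ (4 * (B + 1) ^ 4) := by exact_mod_cast h2.le
    calc Real.log n ≤ Real.log (2 ^ (4 * (B + 1) ^ 4)) := Real.log_le_log (by linarith) h3
      _ = 4 * ((B : ℝ) + 1) ^ 4 * Real.log 2 := by rw [Real.log_pow]; push_cast; ring
      _ ≤ 4 * (2 * (B : ℝ)) ^ 4 * 1 := by
          gcongr
          · linarith
          · linarith [Real.log_two_lt_d9]
      _ = 2 ^ 6 * (B : ℝ) ^ 4 := by ring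
      _ ≤ (B : ℝ) ^ 6 * (B : ℝ) ^ 4 := by gcongr
      _ = (B : ℝ) ^ 10 := by ring
  have hll : Real.log (Real.log n) ≤ 10 * Real.log B := by
    refine (Real.log_le_log (Real.log_pos (by linarith)) hlog).trans ?_
    rw [Real.log_pow]
    norm_num
  have e3 : (n : ℝ) ≤ 8 * q * ((B ^ 2 : ℕ) : ℝ) := by exact_mod_cast e2
  refine Real.exp_le_exp.2 (neg_le_neg ?_)
  calc 1 / 320 * (n : ℝ) * Real.log (Real.log n) ≤ 1 / 320 * (n : ℝ) * (10 * Real.log B) := by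
        gcongr
    _ ≤ 1 / 320 * (8 * q * ((B ^ 2 : ℕ) : ℝ)) * (10 * Real.log B) := by gcongr
    _ = ((B ^ 2 : ℕ) : ℝ) * (q / 4 * Real.log B) := by ring

end Pool.Agent.Lib.MP_12a475_nt.Neg
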