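import Pool.Agent.Lib.MP_12a475_nt.NegB

/-!
The order of vanishing at one of a polynomial of height one, and families with equal jets.
-/

open Polynomial Finset

noncomputable section

namespace Pool.Agent.Lib.MP_12a475_nt.Neg

theorem moment (T i : ℕ) : ∀ (m : ℕ) (G : ℤ[X]), G.natDegree ≤ T → (X - 1) ^ m ∣ G → i < m →
    ∑ n ∈ range (T + 1), G.coeff n * n ^ i = 0 := by
  induction i with
  | zero =>
    rintro m G hd ⟨g, hg⟩ hi
    have h := eval_eq_sum_range' (Nat.lt_succ_of_le hd) (1 : ℤ)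
    simp only [one_pow, mul_one] at h
    simp only [pow_zero, mul_one]
    rw [← h, hg]
    simp [hi.ne']
  | succ i ih =>
    intro m G hd hG hi
    have e : ∀ n, (X * derivative G).coeff n = G.coeff n * n := fun n => by
      rcases n with _ | n
      · simp
      · rw [coeff_X_mul, coeff_derivative]
        push_cast
        ring
    have h := ih (m - 1) (X * derivative G) (natDegree_le_iff_coeff_eq_zero.2 fun n hn => by
      rw [e, coeff_eq_zero_of_natDegree_lt (hd.trans_lt hn), zero_mul])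
      ((pow_sub_one_dvd_derivative_of_pow_dvd hG).mul_left X) (by omega)
    simpa only [e, pow_succ', mul_assoc] using h

theorem moment_poly {T m : ℕ} {G : ℤ[X]} (hd : G.natDegree ≤ T) (hG : (X - 1) ^ m ∣ G)
    (F : ℝ[X]) (hF : F.natDegree < m) :
    ∑ n ∈ range (T + 1), (G.coeff n : ℝ) * F.eval (n : ℝ) = 0 := by
  simp only [eval_eq_sum_range' hF, mul_sum]
  rw [sum_comm]
  refine sum_eq_zero fun i hi => ?_
  have h : ∑ n ∈ range (T + 1), (G.coeff n : ℝ) * (n : ℝ) ^ i = 0 := by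
    exact_mod_cast moment T i m G hd hG (mem_range.1 hi)
  simp only [mul_left_comm _ (F.coeff i), ← mul_sum, h, mul_zero]

theorem cheb_le (d : ℤ) {x : ℝ} (h0 : 0 ≤ x) (h1 : x ≤ 1) :
    ((Chebyshev.U ℝ d).eval x) ^ 2 * (1 - x) ≤ 1 := by
  have h := Chebyshev.U_real_cos (Real.arccos x) d
  rw [Real.cos_arccos (by linarith) h1] at h
  have h2 := Real.sin_sq_le_one ((d + 1) * Real.arccos x)
  rw [← h, mul_pow, Real.sin_sq, Real.cos_arccos (by linarith) h1] at h2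
  nlinarith [mul_nonneg (sq_nonneg ((Chebyshev.U ℝ d).eval x)) (mul_nonneg h0 (sub_nonneg.2 h1))]

/-- A polynomial of height one and degree at most `s ^ 2` vanishes at one to order below `8 s`. -/
theorem order_lt {s : ℕ} (hs : 1 ≤ s) {G : ℤ[X]} (h0 : G ≠ 0) (hd : G.natDegree ≤ s ^ 2)
    (hc : ∀ i, G.coeff i ∈ ({-1, 0, 1} : Set ℤ)) : ¬ (X - 1) ^ (8 * s) ∣ G := by
  intro hG
  obtain ⟨P, hP, hX⟩ := exists_eq_pow_rootMultiplicity_mul_and_not_dvd G h0 0
  generalize rootMultiplicity 0 G = r at hP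
  rw [C_0, sub_zero] at hP hX
  have hP0 : P ≠ 0 := by
    rintro rfl
    exact hX (dvd_zero _)
  have c1 : ∀ i, P.coeff i ∈ ({-1, 0, 1} : Set ℤ) := fun i => by
    rw [← coeff_X_pow_mul P r i, ← hP]
    exact hc _
  have d1 : P.natDegree ≤ s ^ 2 :=
    (natDegree_le_of_dvd (hP ▸ dvd_mul_left P _) h0).trans hd
  have hdv : (X - 1) ^ (8 * s) ∣ P := by
    rw [hP] at hG
    exact (IsCoprime.pow (show IsCoprime (X - 1 : ℤ[X]) X from ⟨-1, 1, by ring⟩)).dvd_of_dvd_mul_left hG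
  have c0 : |(P.coeff 0 : ℝ)| = 1 := by
    rcases c1 0 with h | h | h
    · simp [h]
    · exact absurd (X_dvd_iff.2 h) hX
    · simp [show P.coeff 0 = 1 from h]
  obtain ⟨d, hd'⟩ : ∃ d : ℕ, d + 1 = 2 * s := ⟨2 * s - 1, by omega⟩
  have hs' : (1 : ℝ) ≤ s := by exact_mod_cast hs
  have hT : (0 : ℝ) < (s : ℝ) ^ 2 := by positivity
  have key := moment_poly d1 hdv
    (((Chebyshev.U ℝ d).comp (C (-((s : ℝ) ^ 2)⁻¹) * X + C 1)) ^ 4) (by
      refine natDegree_pow_le.trans_lt ?_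
      have h1 := natDegree_comp_le (p := Chebyshev.U ℝ d) (q := C (-((s : ℝ) ^ 2)⁻¹) * X + C 1)
      have h2 := Nat.mul_le_mul_left d (natDegree_linear_le (a := -((s : ℝ) ^ 2)⁻¹) (b := 1))
      rw [Chebyshev.natDegree_U_natCast] at h1
      omega)
  simp only [eval_pow, eval_comp, eval_add, eval_mul, eval_C, eval_X] at key
  rw [range_eq_Ico, sum_eq_sum_Ico_succ_bot (Nat.succ_pos _), Nat.cast_zero, mul_zero, zero_add,
    Chebyshev.U_eval_one, add_eq_zero_iff_eq_neg] at key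
  have h3 := congrArg abs key
  have e : ((d : ℤ) : ℝ) + 1 = 2 * s := by exact_mod_cast hd'
  rw [abs_mul, c0, one_mul, abs_neg, e, abs_of_nonneg (by positivity)] at h3
  have h4 := h3.trans_le ((abs_sum_le_sum_abs _ _).trans (sum_le_sum
    (g := fun i : ℕ => ((s : ℝ) ^ 2) ^ 2 * ((i : ℝ) ^ 2)⁻¹) fun i hi => ?_))
  · have h5 := sum_Ioo_inv_sq_le (α := ℝ) 0 (s ^ 2 + 1)
    rw [← mul_sum] at h4
    have h6 : Ico (0 + 1) (s ^ 2 + 1) = Ioo 0 (s ^ 2 + 1) := by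
      ext i
      simp only [mem_Ico, mem_Ioo]
      omega
    rw [h6] at h4
    norm_num at h5
    nlinarith [mul_le_mul_of_nonneg_left h5 (sq_nonneg ((s : ℝ) ^ 2)), pow_pos hT 2]
  · obtain ⟨i1, i2⟩ := mem_Ico.1 hi
    have j1 : (1 : ℝ) ≤ i := by exact_mod_cast i1
    have j2 : (i : ℝ) ≤ (s : ℝ) ^ 2 := by exact_mod_cast Nat.lt_succ_iff.1 i2
    have j3 : ((s : ℝ) ^ 2)⁻¹ * i ≤ 1 := by rwa [inv_mul_le_iff₀ hT, mul_one]
    have j4 := cheb_le d (x := -((s : ℝ) ^ 2)⁻¹ * i + 1) (by linarith)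
      (by have : 0 ≤ ((s : ℝ) ^ 2)⁻¹ * i := by positivity
          linarith)
    generalize (Chebyshev.U ℝ d).eval (-((s : ℝ) ^ 2)⁻¹ * i + 1) = y at j4 ⊢
    have j5 : y ^ 2 ≤ (s : ℝ) ^ 2 * (i : ℝ)⁻¹ := by
      rw [le_mul_inv_iff₀ (by linarith), ← div_le_one hT]
      calc y ^ 2 * i / (s : ℝ) ^ 2 = y ^ 2 * (1 - (-((s : ℝ) ^ 2)⁻¹ * i + 1)) := by ring
        _ ≤ 1 := j4
    have j6 : |(P.coeff i : ℝ)| ≤ 1 := by
      rcases c1 i with h | h | h <;> simp [show P.coeff i = _ from h]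
    rw [abs_mul, abs_of_nonneg (show 0 ≤ y ^ 4 by positivity)]
    calc |(P.coeff i : ℝ)| * y ^ 4 ≤ 1 * (y ^ 2) ^ 2 := by rw [← pow_mul]; gcongr
      _ ≤ 1 * ((s : ℝ) ^ 2 * (i : ℝ)⁻¹) ^ 2 := by gcongr
      _ = _ := by rw [one_mul, mul_pow, inv_pow]

/-- the polynomial with exponent set `A` -/
def pol (A : Finset ℕ) : ℤ[X] := ∑ i ∈ A, X ^ i

theorem pol_z01 (A : Finset ℕ) : Z01 (pol A) := z01_sum A id fun _ _ _ _ h => h

theorem pol_deg {A : Finset ℕ} {T : ℕ} (h : A ∈ powerset (range T)) : (pol A).natDegree ≤ T :=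
  deg_sum A id T fun _ hx => (mem_range.1 (mem_powerset.1 h hx)).le

theorem pol_inj {A B : Finset ℕ} (h : pol A = pol B) : A = B := by
  ext i
  have := congrArg (fun P => P.coeff i) h
  simp only [pol, finsetSum_coeff, coeff_X_pow, sum_ite_eq] at this
  split_ifs at this <;> simp_all

/-- Many polynomials with the same jet of order `j` and different next Taylor coefficients. -/
def Fam (T L j : ℕ) : Prop := ∃ (I : Finset ℤ) (G g : ℤ → ℤ[X]) (G₀ : ℤ[X]), L < I.card ∧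
  Z01 G₀ ∧ G₀.natDegree ≤ T ∧ ∀ v ∈ I, Z01 (G v) ∧ (G v).natDegree ≤ T ∧
    G v - G₀ = (X - 1) ^ j * g v ∧ (g v).eval 1 = v

theorem fam_or (T L i : ℕ) : (∃ j < i, Fam T L j) ∨ ∃ 𝒞 ⊆ powerset (range T),
    2 ^ T ≤ 𝒞.card * L ^ i ∧ ∀ A ∈ 𝒞, ∀ B ∈ 𝒞, (X - 1) ^ i ∣ pol A - pol B := by
  induction i with
  | zero => exact .inr ⟨_, Subset.refl _, by simp, by simp⟩
  | succ i ih =>
    rcases ih with ⟨j, hj, h⟩ | ⟨𝒞, h1, h2, h3⟩
    · exact .inl ⟨j, by omega, h⟩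
    obtain ⟨A₀, hA₀⟩ : 𝒞.Nonempty := card_pos.1 (Nat.pos_of_mul_pos_right
      ((show 0 < 2 ^ T by positivity).trans_le h2))
    choose! g hg using fun A (hA : A ∈ 𝒞) => h3 A hA A₀ hA₀
    by_cases hL : L < (𝒞.image fun A => (g A).eval 1).card
    · choose! a ha using fun v (hv : v ∈ 𝒞.image fun A => (g A).eval 1) => mem_image.1 hv
      exact .inl ⟨i, by omega, _, fun v => pol (a v), fun v => g (a v), pol A₀, hL, pol_z01 _,
        pol_deg (h1 hA₀), fun v hv => ⟨pol_z01 _, pol_deg (h1 (ha v hv).1), hg _ (ha v hv).1,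
          (ha v hv).2⟩⟩
    · obtain ⟨v, -, hv⟩ := exists_max_image (𝒞.image fun A => (g A).eval 1)
        (fun v => (𝒞.filter fun A => (g A).eval 1 = v).card) (.image ⟨A₀, hA₀⟩ _)
      have h4 := card_le_mul_card_image 𝒞 _ hv
      refine .inr ⟨𝒞.filter fun A => (g A).eval 1 = v, (filter_subset _ _).trans h1,
        h2.trans ?_, fun A hA B hB => ?_⟩
      · rw [pow_succ', ← mul_assoc]
        exact Nat.mul_le_mul_right _ (h4.trans (Nat.mul_le_mul_left _ (not_lt.1 hL)))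
      · obtain ⟨a1, a2⟩ := mem_filter.1 hA
        obtain ⟨b1, b2⟩ := mem_filter.1 hB
        have e : pol A - pol B = (X - 1) ^ i * (g A - g B) := by
          linear_combination hg A a1 - hg B b1
        rw [e, pow_succ]
        refine mul_dvd_mul_left _ (dvd_iff_isRoot (a := 1).2 ?_)
        rw [IsRoot, eval_sub, a2, b2, sub_self]

theorem exists_fam {w : ℕ} (hw : 1 ≤ w) :
    ∃ j < 8 * (17 * w), Fam ((17 * w) ^ 2) (2 ^ w * 2 ^ w) j := by
  refine (fam_or _ _ _).resolve_right ?_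
  rintro ⟨𝒞, h1, h2, h3⟩
  have h4 : 1 < 𝒞.card := by
    by_contra h
    have h5 := h2.trans (Nat.mul_le_mul_right _ (not_lt.1 h))
    rw [one_mul, ← pow_add, ← pow_mul, Nat.pow_le_pow_iff_right one_lt_two] at h5
    nlinarith
  obtain ⟨A, hA, B, hB, hAB⟩ := one_lt_card.1 h4
  exact order_lt (s := 17 * w) (by omega) (fun h => hAB (pol_inj (sub_eq_zero.1 h)))
    ((natDegree_sub_le _ _).trans (max_le (pol_deg (h1 hA)) (pol_deg (h1 hB))))
    (z01_sub (pol_z01 A) (pol_z01 B)) (h3 A hA B hB)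

end Pool.Agent.Lib.MP_12a475_nt.Neg
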