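import Pool.Agent.Lib.MP_12a475_nt.SqA
import Pool.Agent.Lib.MP_12a475_nt.NegC

/-!
A polynomial of height one with a zero of order `j` at the `q`-th roots of unity whose cofactor
is very small there.
-/

open Polynomial Finset

noncomputable section

namespace Pool.Agent.Lib.MP_12a475_nt.Neg

/-- all coefficients are at most `H` in absolute value -/
def CB (H : ℝ) (P : ℤ[X]) : Prop := ∀ i, |(P.coeff i : ℝ)| ≤ H

/-- multiplication by `Q` raises the height at most by the factor `c` -/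
def MB (c : ℝ) (Q : ℤ[X]) : Prop := ∀ H P, CB H P → CB (c * H) (Q * P)

theorem CB.nonneg {H : ℝ} {P : ℤ[X]} (h : CB H P) : 0 ≤ H := (abs_nonneg _).trans (h 0)

theorem CB.add {H H' : ℝ} {P Q : ℤ[X]} (h : CB H P) (h' : CB H' Q) : CB (H + H') (P + Q) :=
  fun i => by
    rw [coeff_add, Int.cast_add]
    exact (abs_add_le _ _).trans (add_le_add (h i) (h' i))

theorem mb_X_pow (e : ℕ) : MB 1 (X ^ e) := fun H P h i => by
  rw [coeff_X_pow_mul', one_mul]
  split_ifs
  · exact h _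
  · simpa using h.nonneg

theorem mb_sub_one (e : ℕ) : MB 2 (X ^ e - 1) := fun H P h i => by
  rw [sub_mul, one_mul, coeff_sub, Int.cast_sub]
  linarith [abs_sub ((X ^ e * P).coeff i : ℝ) (P.coeff i : ℝ), mb_X_pow e H P h i, h i]

theorem mb_fac (m p : ℕ) : MB p (fac m p) := fun H P h i => by
  rw [fac, sum_mul, finsetSum_coeff, Int.cast_sum]
  refine (abs_sum_le_sum_abs _ _).trans ((sum_le_card_nsmul _ _ H fun a _ => ?_).trans (by simp))
  simpa using mb_X_pow (m * a) H P h i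

theorem mb_prod (A : Finset ℕ) (c : ℕ → ℝ) (f : ℕ → ℤ[X]) (h : ∀ p, MB (c p) (f p)) :
    MB (∏ p ∈ A, c p) (∏ p ∈ A, f p) := by
  induction A using Finset.induction_on with
  | empty => intro H P hP; simpa using hP
  | insert a A ha ih =>
    intro H P hP
    rw [prod_insert ha, prod_insert ha, mul_assoc, mul_assoc]
    exact h a _ _ (ih H P hP)

theorem deg_quot {Q g : ℤ[X]} {T : ℕ} (hQ : Q ≠ 0) (hd : (Q * g).natDegree ≤ T) :
    g.natDegree ≤ T := by
  rcases eq_or_ne g 0 with rfl | hg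
  · simp
  · exact (natDegree_le_of_dvd (dvd_mul_left g Q) (mul_ne_zero hQ hg)).trans hd

theorem X_sub_one_ne : (X - 1 : ℤ[X]) ≠ 0 := X_sub_C_ne_zero 1

theorem cb_quot (T j : ℕ) : ∀ g : ℤ[X], ((X - 1) ^ j * g).natDegree ≤ T →
    CB 1 ((X - 1) ^ j * g) → CB ((T + 1) ^ j) g := by
  induction j with
  | zero => intro g _ h; simpa using h
  | succ j ih =>
    intro g hd h
    have hg := deg_quot (pow_ne_zero _ X_sub_one_ne) hd
    rw [pow_succ, mul_assoc] at hd h
    have h1 := ih _ hd h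
    have h0 := h1.nonneg
    have h2 : ∀ i : ℕ, |(g.coeff i : ℝ)| ≤ (i + 1) * (T + 1) ^ j := fun i => by
      induction i with
      | zero => simpa [sub_mul] using h1 0
      | succ i ih' =>
        have h3 := h1 (i + 1)
        rw [sub_mul, one_mul, coeff_sub, coeff_X_mul, Int.cast_sub] at h3
        have h4 := abs_sub_abs_le_abs_sub (g.coeff (i + 1) : ℝ) (g.coeff i : ℝ)
        rw [abs_sub_comm] at h4
        push_cast
        linarith
    intro i
    by_cases hi : i ≤ T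
    · have h5 : (i : ℝ) ≤ T := by exact_mod_cast hi
      refine (h2 i).trans ?_
      rw [pow_succ']
      gcongr
    · rw [coeff_eq_zero_of_natDegree_lt (by omega), Int.cast_zero, abs_zero]
      positivity

theorem z3_add {P Q : ℤ[X]} (hP : ∀ i, P.coeff i ∈ ({-1, 0, 1} : Set ℤ))
    (hQ : ∀ i, Q.coeff i ∈ ({-1, 0, 1} : Set ℤ)) {s : ℕ} (hs : P.natDegree < s) (i : ℕ) :
    (P + X ^ s * Q).coeff i ∈ ({-1, 0, 1} : Set ℤ) := by
  rw [coeff_add, coeff_X_pow_mul']
  split_ifs with h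
  · rw [coeff_eq_zero_of_natDegree_lt (hs.trans_le h), zero_add]
    exact hQ _
  · rw [add_zero]
    exact hP i

/-- `∑ x ^ r D_r (x ^ q)` -/
def inter (q : ℕ) {d : ℕ} (D : Fin d → ℤ[X]) : ℤ[X] := ∑ r : Fin d, X ^ (r : ℕ) * expand ℤ q (D r)

theorem inter_coeff {q d : ℕ} (hq : 0 < q) (hd : d ≤ q) (D : Fin d → ℤ[X]) (i : ℕ) :
    (inter q D).coeff i = 0 ∨ ∃ r t, (inter q D).coeff i = (D r).coeff t := by
  rw [inter, finsetSum_coeff]
  simp only [coeff_X_pow_mul', coeff_expand hq]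
  by_cases h : ∃ r : Fin d, (r : ℕ) ≤ i ∧ q ∣ i - r
  · obtain ⟨r, h1, h2⟩ := h
    refine .inr ⟨r, (i - r) / q, ?_⟩
    rw [sum_eq_single r, if_pos h1, if_pos h2]
    · intro r' _ hr
      split_ifs with h3 h4
      · have e1 := (Nat.modEq_iff_dvd' h1).2 h2
        have e2 := (Nat.modEq_iff_dvd' h3).2 h4
        exact absurd (Fin.ext (Nat.ModEq.eq_of_lt_of_lt (e2.trans e1.symm) (r'.2.trans_le hd)
          (r.2.trans_le hd))) hr
      all_goals rfl
    · simp
  · refine .inl (sum_eq_zero fun r _ => ?_)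
    split_ifs with h3 h4
    · exact absurd ⟨r, h3, h4⟩ h
    all_goals rfl

theorem inter_eval {q d : ℕ} {z : ℂ} (hz : z ^ q = 1) (D : Fin d → ℤ[X]) :
    aeval z (inter q D) = ∑ r : Fin d, (((D r).eval 1 : ℤ) : ℂ) * z ^ (r : ℕ) := by
  rw [inter, map_sum]
  refine sum_congr rfl fun r _ => ?_
  rw [map_mul, map_pow, aeval_X, expand_aeval, hz, mul_comm]
  exact congrArg (· * _) (by simpa using aeval_algebraMap_apply ℂ (1 : ℤ) (D r))

theorem inter_ok {q d T j : ℕ} (hq : 0 < q) (hd : d ≤ q) (e : Fin d → ℤ[X])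
    (h1 : ∀ r i, ((X - 1) ^ j * e r).coeff i ∈ ({-1, 0, 1} : Set ℤ))
    (h2 : ∀ r, ((X - 1) ^ j * e r).natDegree ≤ T) :
    (∀ i, ((X ^ q - 1) ^ j * inter q e).coeff i ∈ ({-1, 0, 1} : Set ℤ)) ∧
      ((X ^ q - 1) ^ j * inter q e).natDegree ≤ q * (T + 1) ∧ CB ((T + 1) ^ j) (inter q e) := by
  have e1 : (X ^ q - 1) ^ j * inter q e = inter q fun r => (X - 1) ^ j * e r := by
    simp only [inter, mul_sum, map_mul, map_pow, map_sub, expand_X, map_one, mul_left_comm]
  rw [e1]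
  refine ⟨fun i => ?_, natDegree_sum_le_of_forall_le _ _ fun r _ => natDegree_mul_le.trans ?_,
    fun i => ?_⟩
  · rcases inter_coeff hq hd (fun r => (X - 1) ^ j * e r) i with h | ⟨r, t, h⟩ <;> rw [h]
    · simp
    · exact h1 r t
  · rw [natDegree_X_pow, natDegree_expand, mul_add, mul_one, add_comm, mul_comm q]
    exact add_le_add (Nat.mul_le_mul_right q (h2 r)) (r.2.le.trans hd)
  · rcases inter_coeff hq hd e i with h | ⟨r, t, h⟩ <;> rw [h]
    · rw [Int.cast_zero, abs_zero]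
      positivity
    · exact cb_quot T j _ (h2 r) (abs_coeff_le (h1 r)) t

theorem st1 {q T B j : ℕ} (hq : 0 < q) (hB : 2 ≤ B) (hF : Fam T (B * B) j) {z : ℂ}
    (hz : IsPrimitiveRoot z q) (Y : ℤ[X]) : ∃ W : ℤ[X],
      (∀ i, ((X ^ q - 1) ^ j * W).coeff i ∈ ({-1, 0, 1} : Set ℤ)) ∧
      ((X ^ q - 1) ^ j * W).natDegree ≤ q * (3 * T + 3) ∧ CB ((3 * T + 3) ^ j) W ∧
      aeval z W ≠ 0 ∧ ‖aeval z W‖ ≤ 8 * (q * (T + 1) ^ (j + 1)) / (B : ℝ) ^ q.totient ∧
      ‖aeval z Y‖ / 2 ≤ ‖aeval z (Y * W).derivative‖ := by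
  obtain ⟨I, G, g, G₀, hI, z0, d0, hG⟩ := hF
  have hli := linearIndependent_pow (K := ℚ) z
  rw [← cyclotomic_eq_minpoly_rat hz hq, natDegree_cyclotomic] at hli
  set d := q.totient with hd
  have hd0 : 0 < d := Nat.totient_pos.2 hq
  have hdq : d ≤ q := Nat.totient_le q
  have hz1 : ‖z‖ = 1 := Complex.norm_eq_one_of_pow_eq_one hz.pow_eq_one hq.ne'
  have hBd : 2 ≤ B ^ d := hB.trans (Nat.le_self_pow hd0.ne' B)
  obtain ⟨N, hN⟩ : ∃ N, B ^ d = N + 1 := ⟨B ^ d - 1, by omega⟩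
  have hN0 : 0 < N := by omega
  have hM : (0 : ℝ) < q * (T + 1) ^ (j + 1) := by positivity
  have hv : ∀ v ∈ I, |(v : ℝ)| ≤ (T + 1) ^ (j + 1) := fun v hv => by
    obtain ⟨h1, h2, h3, h4⟩ := hG v hv
    have h5 : ((X - 1) ^ j * g v).natDegree ≤ T :=
      h3 ▸ (natDegree_sub_le _ _).trans (max_le h2 d0)
    have h6 := cb_quot T j _ h5 (h3 ▸ abs_coeff_le (z01_sub h1 z0))
    rw [← h4, eval_eq_sum_range' (Nat.lt_succ_of_le (deg_quot (pow_ne_zero _ X_sub_one_ne) h5))]
    simp only [one_pow, mul_one, Int.cast_sum]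
    refine (abs_sum_le_sum_abs _ _).trans ((sum_le_card_nsmul _ _ _ fun i _ => h6 i).trans ?_)
    simp [pow_succ']
  obtain ⟨a, b, hab, hc⟩ := exists_close
    (fun a : Fin d → I => ∑ r : Fin d, (((a r : ℤ)) : ℂ) * z ^ (r : ℕ)) _ hM (fun a => by
      refine (norm_sum_le _ _).trans ?_
      refine (sum_le_card_nsmul _ _ (((T : ℝ) + 1) ^ (j + 1)) fun r _ => ?_).trans ?_
      · rw [norm_mul, norm_pow, hz1, one_pow, mul_one, Complex.norm_intCast]
        exact hv _ (a r).2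
      · have : (d : ℝ) ≤ q := by exact_mod_cast hdq
        rw [card_univ, Fintype.card_fin, nsmul_eq_mul]
        gcongr) N hN0 (by
      rw [← hN, Fintype.card_fun, Fintype.card_fin, Fintype.card_coe, ← mul_pow]
      exact Nat.pow_lt_pow_left hI hd0.ne')
  obtain ⟨e, he⟩ : ∃ e : Fin d → ℤ[X], ∀ r, e r = g (a r) - g (b r) := ⟨_, fun _ => rfl⟩
  have e1 : ∀ r, (X - 1) ^ j * e r = G (a r) - G (b r) := fun r => by
    rw [he]
    linear_combination (hG _ (b r).2).2.2.1 - (hG _ (a r).2).2.2.1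
  have e2 : ∀ r, (e r).eval 1 = a r - b r := fun r => by
    rw [he, eval_sub, (hG _ (a r).2).2.2.2, (hG _ (b r).2).2.2.2]
  have c1 : ∀ r i, ((X - 1) ^ j * e r).coeff i ∈ ({-1, 0, 1} : Set ℤ) := fun r =>
    e1 r ▸ z01_sub (hG _ (a r).2).1 (hG _ (b r).2).1
  have d1 : ∀ r, ((X - 1) ^ j * e r).natDegree ≤ T := fun r =>
    e1 r ▸ (natDegree_sub_le _ _).trans (max_le (hG _ (a r).2).2.1 (hG _ (b r).2).2.1)
  have ev : aeval z (inter q e) = ∑ r : Fin d, (((a r : ℤ)) : ℂ) * z ^ (r : ℕ) -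
      ∑ r : Fin d, (((b r : ℤ)) : ℂ) * z ^ (r : ℕ) := by
    simp only [inter_eval hz.pow_eq_one, e2, Int.cast_sub, sub_mul, sum_sub_distrib]
  have hne : aeval z (inter q e) ≠ 0 := by
    rw [ev, sub_ne_zero]
    intro h
    have := Fintype.linearIndependent_iffₛ.1 hli (fun r => ((a r : ℤ) : ℚ))
      (fun r => ((b r : ℤ) : ℚ)) (by simpa [Algebra.smul_def] using h)
    exact hab (funext fun r => Subtype.ext (by exact_mod_cast this r))
  have hsm : ‖aeval z (inter q e)‖ ≤ 8 * (q * (T + 1) ^ (j + 1)) / (B : ℝ) ^ d := by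
    rw [ev]
    refine hc.trans ?_
    have h1 : (B : ℝ) ^ d = N + 1 := by exact_mod_cast hN
    have h2 : (1 : ℝ) ≤ N := by exact_mod_cast hN0
    rw [h1, div_le_div_iff₀ (by linarith) (by linarith)]
    nlinarith
  have cast : (3 * T + 3 : ℝ) = (3 * T + 2 : ℕ) + 1 := by push_cast; ring
  by_cases hder : ‖aeval z Y‖ / 2 ≤ ‖aeval z (Y * inter q e).derivative‖
  · obtain ⟨k1, k2, k3⟩ := inter_ok (T := 3 * T + 2) hq hdq e c1 fun r => (d1 r).trans (by omega)
    exact ⟨_, k1, k2, cast ▸ k3, hne, hsm, hder⟩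
  obtain ⟨r, hr⟩ := Function.ne_iff.1 hab
  obtain ⟨h, hh⟩ : ∃ h, h = X ^ (T + 1) * (e r + X ^ (T + 1) * -e r) := ⟨_, rfl⟩
  have e3 : (X - 1) ^ j * (e r + h) = (X - 1) ^ j * e r + X ^ (T + 1) *
      ((X - 1) ^ j * e r + X ^ (T + 1) * -((X - 1) ^ j * e r)) := by rw [hh]; ring
  obtain ⟨k1, k2, k3⟩ := inter_ok (T := 3 * T + 2) (j := j) hq hdq
    (fun r' => e r' + if r' = r then h else 0) (fun r' => by
      split_ifs with h'
      · rw [h', e3]
        refine z3_add (c1 r) (z3_add (c1 r) (fun i => ?_) (Nat.lt_succ_of_le (d1 r)))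
          (Nat.lt_succ_of_le (d1 r))
        rw [coeff_neg]
        rcases c1 r i with h | h | h
        · simp [h]
        · simp [h]
        · simp [Set.mem_singleton_iff.1 h]
      · simpa using c1 r') (fun r' => by
      split_ifs with h'
      · rw [h', e3]
        exact deg_add ((d1 r).trans (by omega)) (deg_add (n := 2 * T + 1) ((d1 r).trans (by omega))
          ((natDegree_neg _).trans_le (d1 r)) (by omega)) (by omega)
      · rw [add_zero]
        exact (d1 r').trans (by omega))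
  have e4 : (inter q fun r' => e r' + if r' = r then h else 0) =
      inter q e + X ^ (r : ℕ) * expand ℤ q h := by
    simp [inter, mul_add, sum_add_distrib, apply_ite (expand ℤ q)]
  have e5 : aeval z (expand ℤ q h) = 0 := by simp [hh, hz.pow_eq_one]
  have e6 : ‖aeval z (expand ℤ q h).derivative‖ = (T + 1) * |((a r - b r : ℤ) : ℝ)| * q := by
    have : aeval (1 : ℂ) (e r) = ((a r - b r : ℤ) : ℂ) := by
      rw [← e2]
      simpa using aeval_algebraMap_apply ℂ (1 : ℤ) (e r)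
    have h7 : aeval (1 : ℂ) h.derivative = -((T + 1 : ℕ) * ((a r - b r : ℤ) : ℂ)) := by
      simp only [hh, derivative_mul, derivative_X_pow, map_add,
        map_mul, map_neg, map_pow, aeval_X, one_pow, this, map_natCast]
      ring
    rw [derivative_expand, map_mul, expand_aeval, hz.pow_eq_one, h7, norm_mul, norm_neg, norm_mul,
      Complex.norm_intCast, Complex.norm_natCast]
    simp [hz1]
  rw [e4] at k1 k2 k3
  have e7 : aeval z (inter q e + X ^ (r : ℕ) * expand ℤ q h) = aeval z (inter q e) := by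
    rw [map_add, map_mul, e5, mul_zero, add_zero]
  refine ⟨_, k1, k2, cast ▸ k3, by rwa [e7], by rwa [e7], ?_⟩
  have e8 : aeval z (Y * (inter q e + X ^ (r : ℕ) * expand ℤ q h)).derivative =
      aeval z (Y * inter q e).derivative +
        aeval z Y * z ^ (r : ℕ) * aeval z (expand ℤ q h).derivative := by
    simp only [derivative_mul, map_add, map_mul, e5, map_pow, aeval_X]
    ring
  have h8 : (1 : ℝ) ≤ (T + 1) * |((a r - b r : ℤ) : ℝ)| * q := by
    have h1 : (1 : ℝ) ≤ |((a r - b r : ℤ) : ℝ)| := by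
      exact_mod_cast Int.one_le_abs (sub_ne_zero.2 fun h => hr (Subtype.ext h))
    have h2 : (1 : ℝ) ≤ q := by exact_mod_cast hq
    exact one_le_mul_of_one_le_of_one_le (one_le_mul_of_one_le_of_one_le (by simp) h1) h2
  have h9 := norm_sub_le (aeval z (Y * (inter q e + X ^ (r : ℕ) * expand ℤ q h)).derivative)
    (aeval z (Y * inter q e).derivative)
  rw [e8, add_sub_cancel_left, norm_mul, norm_mul, norm_pow, hz1, one_pow, mul_one, e6, ← e8] at h9
  linarith [not_le.1 hder, le_mul_of_one_le_right (norm_nonneg (aeval z Y)) h8]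

end Pool.Agent.Lib.MP_12a475_nt.Neg
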