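import Pool.Agent.Lib.MP_12a475_nt.SqB

/-!
Two close roots from a family with equal jets.
-/

open Polynomial Finset

noncomputable section

namespace Pool.Agent.Lib.MP_12a475_nt.Neg

theorem cb_der {H : ℝ} {P : ℤ[X]} (h : CB H P) {n : ℕ} (hn : P.natDegree ≤ n) :
    CB (n * H) P.derivative := fun i => by
  rw [coeff_derivative]
  have h0 := h.nonneg
  by_cases hi : i + 1 ≤ n
  · have h2 : (i : ℝ) + 1 ≤ n := by exact_mod_cast hi
    push_cast
    rw [abs_mul, abs_of_nonneg (show (0 : ℝ) ≤ i + 1 by positivity), mul_comm]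
    exact mul_le_mul h2 (h _) (abs_nonneg _) (Nat.cast_nonneg n)
  · rw [coeff_eq_zero_of_natDegree_lt (by omega), zero_mul, Int.cast_zero, abs_zero]
    positivity

theorem CB.mono {H H' : ℝ} {P : ℤ[X]} (h : CB H P) (h' : H ≤ H') : CB H' P :=
  fun i => (h i).trans h'

variable (S : Finset ℕ)

theorem sub_der (hS : ∀ p ∈ S, p.Prime) {A : Finset ℕ} (hA : A ⊆ S) (hk : 2 ≤ A.card) {z : ℂ}
    (hz : IsPrimitiveRoot z (∏ x ∈ S, x)) (s : ℕ) :
    aeval z (X ^ s * ∏ p ∈ A, fac (cof S p) p).derivative = 0 := by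
  obtain ⟨p, hp, p', hp', hpp⟩ := one_lt_card.1 hk
  have h1 := fac_zero S hS hz (hA hp)
  have h2 : aeval z (∏ x ∈ A.erase p, fac (cof S x) x) = 0 := by
    rw [map_prod]
    exact prod_eq_zero (mem_erase.2 ⟨hpp.symm, hp'⟩) (fac_zero S hS hz (hA hp'))
  rw [← mul_prod_erase A _ hp]
  simp only [derivative_mul, map_add, map_mul, h1, h2, mul_zero, zero_mul, add_zero]

theorem fac_mul {p : ℕ} (hp : p ∈ S) :
    fac (cof S p) p * (X ^ cof S p - 1) = X ^ (∏ x ∈ S, x) - 1 := by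
  rw [← cof_mul S hp, pow_mul, ← geom_sum_mul (X ^ cof S p), fac]
  simp only [pow_mul]

theorem st2 (hS : ∀ p ∈ S, p.Prime) {B j n : ℕ} (hB : 2 ≤ B) (hF : Fam S.card (B * B) j)
    (hj : j + 3 ≤ S.card) (hn : n = 8 * (∏ x ∈ S, x) * S.card) (E : ℝ) (hE : 1 ≤ E)
    (hbig : 1152 * ((n : ℝ) ^ S.card) ^ 10 * E ≤ (B : ℝ) ^ (∏ x ∈ S, x).totient) :
    ∃ P₁ P₂ : ℤ[X], P₁ ≠ 0 ∧ P₂ ≠ 0 ∧ P₁.natDegree ≤ n ∧ P₂.natDegree ≤ n ∧
      (∀ i, P₁.coeff i ∈ ({-1, 0, 1} : Set ℤ)) ∧ (∀ i, P₂.coeff i ∈ ({-1, 0, 1} : Set ℤ)) ∧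
      ∃ ξ₁ ξ₂ : ℂ, aeval ξ₁ P₁ = 0 ∧ aeval ξ₂ P₂ = 0 ∧ ξ₁ ≠ ξ₂ ∧
        ‖ξ₁ - ξ₂‖ ≤ (E ^ (S.card - j))⁻¹ := by
  obtain ⟨A, hA, hAj⟩ := exists_subset_card_eq (show j ≤ S.card by omega)
  have hA' : (S \ A).card = S.card - j := by rw [card_sdiff_of_subset hA, hAj]
  set q := ∏ x ∈ S, x with hqd
  set k := S.card with hkd
  have hq : 0 < q := prod_pos fun x hx => (hS x hx).pos
  have hz := Complex.isPrimitiveRoot_exp q hq.ne'
  generalize Complex.exp (2 * Real.pi * Complex.I / q) = z at hz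
  have hz1 : ‖z‖ = 1 := Complex.norm_eq_one_of_pow_eq_one hz.pow_eq_one hq.ne'
  have hc : ∀ p ∈ S, 0 < cof S p := fun p _ => prod_pos fun x hx => (hS x (mem_erase.1 hx).2).pos
  obtain ⟨Y, hY⟩ : ∃ Y : ℤ[X], Y = ∏ p ∈ A, (X ^ cof S p - 1) := ⟨_, rfl⟩
  obtain ⟨F, hFd⟩ : ∃ F : ℤ[X], F = ∏ p ∈ A, fac (cof S p) p := ⟨_, rfl⟩
  obtain ⟨F', hF'⟩ : ∃ F : ℤ[X], F = ∏ p ∈ S \ A, fac (cof S p) p := ⟨_, rfl⟩
  have eF : (X ^ q - 1) ^ j = F * Y := by
    rw [hY, hFd, ← prod_mul_distrib, ← hAj, ← prod_const]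
    exact prod_congr rfl fun p hp => (fac_mul S (hA hp)).symm
  have eB : big S = F * F' := by rw [big, hFd, hF', mul_comm, prod_sdiff hA]
  have hX : ((X ^ q - 1) ^ j : ℤ[X]) ≠ 0 := pow_ne_zero _ (X_pow_sub_C_ne_zero hq 1)
  have hF0 : F ≠ 0 := left_ne_zero_of_mul (eF ▸ hX)
  obtain ⟨W, c1, dW, cW, hne, hsm, hder⟩ := st1 hq hB hF hz Y
  have hqk : q * 2 ≤ q * k := Nat.mul_le_mul_left q (by omega)
  have hkq : k ≤ q * k := Nat.le_mul_of_pos_left k hq
  have hn' : n = 8 * (q * k) := by rw [hn, mul_assoc]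
  have e3 : q * (3 * k + 3) = 3 * (q * k) + 3 * q := by ring
  set s := q * (3 * k + 3) + 1 with hs
  have d1 : ((X ^ q - 1) ^ j * W).natDegree ≤ n := dW.trans (by omega)
  have d2 : ((X ^ q - 1) ^ j * W + X ^ s * big S).natDegree ≤ n :=
    deg_add d1 (big_deg S) (by rw [← hqd, ← hkd, mul_comm k q]; omega)
  have c2 := z3_add (s := s) (Q := big S) c1
    (fun i => by rcases big_z01 S hS i with h | h <;> simp [h]) (Nat.lt_succ_of_le dW)
  have e1 : (X ^ q - 1) ^ j * W = F * (Y * W) := by rw [eF, mul_assoc]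
  have e2 : (X ^ q - 1) ^ j * W + X ^ s * big S = F * (Y * W + X ^ s * F') := by
    rw [e1, eB]
    ring
  have d3 : (Y * W).natDegree ≤ n := deg_quot hF0 (e1 ▸ d1)
  have d4 : (Y * W + X ^ s * F').natDegree ≤ n := deg_quot hF0 (e2 ▸ d2)
  have hN : (1 : ℝ) ≤ n := by exact_mod_cast (show 1 ≤ n by omega)
  have hqN : (q : ℝ) ≤ n := by exact_mod_cast (show q ≤ n by omega)
  have hkN : 2 * (3 * (k : ℝ) + 3) ≤ n := by exact_mod_cast (show 2 * (3 * k + 3) ≤ n by omega)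
  have hk0 : (0 : ℝ) ≤ k := Nat.cast_nonneg k
  have hpow : ∀ (x : ℝ) (i : ℕ), 0 ≤ x → x ≤ n → i ≤ k → x ^ i ≤ (n : ℝ) ^ k := fun x i h0 h1 h2 =>
    (pow_le_pow_left₀ h0 h1 i).trans (pow_le_pow_right₀ hN h2)
  have hNL : (n : ℝ) ≤ (n : ℝ) ^ k := le_self_pow₀ hN (by omega)
  have y1 : ‖aeval z Y‖ ≤ (n : ℝ) ^ k := by
    refine le_trans ?_ (hpow 2 j zero_le_two (by linarith) (by omega))
    rw [hY, map_prod, norm_prod, ← hAj, ← prod_const]
    refine prod_le_prod (fun _ _ => norm_nonneg _) fun p _ => ?_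
    rw [map_sub, map_pow, aeval_X, map_one]
    refine (norm_sub_le _ _).trans ?_
    rw [norm_pow, hz1, one_pow, norm_one, one_add_one_eq_two]
  have y2 : 1 ≤ (n : ℝ) ^ k * ‖aeval z Y‖ := by
    refine le_trans ?_ (mul_le_mul_of_nonneg_right
      (hpow q j (Nat.cast_nonneg q) hqN (by omega)) (norm_nonneg _))
    rw [hY, map_prod, norm_prod, ← hAj, ← prod_const, ← prod_mul_distrib]
    refine (prod_const_one (s := A)).ge.trans (prod_le_prod (fun _ _ => zero_le_one) fun p hp => ?_)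
    rw [map_sub, map_pow, aeval_X, map_one]
    by_contra h
    refine pow_ne_one hq (one_pow q) norm_one (hz.pow_ne_one_of_pos_of_lt (hc p (hA hp)).ne' ?_)
      (not_le.1 h) (by rw [← pow_mul, mul_comm, pow_mul, hz.pow_eq_one, one_pow])
    rw [hqd, ← cof_mul S (hA hp)]
    exact lt_mul_of_one_lt_right (hc p (hA hp)) (hS p (hA hp)).one_lt
  have q1 : CB ((n : ℝ) ^ k) (Y * W) := by
    refine (hY ▸ mb_prod A (fun _ => 2) _ (fun p => mb_sub_one (cof S p)) _ _ cW).mono ?_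
    rw [prod_const, hAj, ← mul_pow]
    exact hpow _ j (by positivity) hkN (by omega)
  have q2 : CB ((n : ℝ) ^ k) (X ^ s * F') := by
    have h1 := mb_X_pow s _ _ (mb_prod (S \ A) (fun p => p) _ (fun p => mb_fac (cof S p) p) 1 1
      fun i => by rw [coeff_one]; split_ifs <;> simp)
    rw [mul_one, mul_one, one_mul, ← hF', ← Nat.cast_prod] at h1
    refine h1.mono (le_trans ?_ (hqN.trans hNL))
    exact_mod_cast Nat.le_of_dvd hq (prod_dvd_prod_of_subset _ _ _ sdiff_subset)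
  have m1 := hpow (k + 1) (j + 1) (by positivity) (by linarith) (by omega)
  generalize (n : ℝ) ^ k = L at hbig hNL y1 y2 q1 q2 m1
  have hL : 1 ≤ L := hN.trans hNL
  have hL0 : 0 < L := by linarith
  have hder1 : 1 / (2 * L) ≤ ‖aeval z (Y * W).derivative‖ := by
    refine le_trans ?_ hder
    rw [div_le_div_iff₀ (by positivity) two_pos]
    linarith
  obtain ⟨ξ, hξ, hu⟩ := root_near (Y * W) z n d3 _ (by positivity) hder1
  have hξz : ξ ≠ z := by
    rintro rfl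
    rw [map_mul, mul_eq_zero] at hξ
    rcases hξ with h | h
    · rw [h, norm_zero, mul_zero] at y2
      linarith
    · exact hne h
  set u := ‖ξ - z‖ with hud
  have hu0 : 0 ≤ u := norm_nonneg _
  have hD : (0 : ℝ) < (B : ℝ) ^ q.totient := by positivity
  have hu1 : 72 * (n : ℝ) ^ 3 * L ^ 2 * u ≤ E⁻¹ := by
    have h1 : u ≤ 16 * L ^ 5 / (B : ℝ) ^ q.totient := by
      calc u ≤ L * (L * (8 * (L * L) / (B : ℝ) ^ q.totient)) / (1 / (2 * L)) := by
            refine hu.trans ?_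
            rw [map_mul, norm_mul]
            gcongr
            refine hsm.trans ?_
            gcongr
            exact hqN.trans hNL
        _ = _ := by field_simp; ring
    calc 72 * (n : ℝ) ^ 3 * L ^ 2 * u
        ≤ 72 * L ^ 3 * L ^ 2 * (16 * L ^ 5 / (B : ℝ) ^ q.totient) := by gcongr
      _ = 1152 * L ^ 10 * E / (B : ℝ) ^ q.totient * E⁻¹ := by field_simp; ring
      _ ≤ 1 * E⁻¹ := by
          gcongr
          exact (div_le_one hD).2 hbig
      _ = E⁻¹ := one_mul _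
  have hu2 : 72 * (n : ℝ) ^ 3 * L ^ 2 * u ≤ 1 := hu1.trans (inv_le_one_of_one_le₀ hE)
  have hn3 : 72 * (n : ℝ) * 1 * u ≤ 72 * (n : ℝ) ^ 3 * L ^ 2 * u := by
    gcongr
    · exact le_self_pow₀ hN (by norm_num)
    · exact one_le_pow₀ hL
  have hnu : (n : ℝ) * u ≤ 1 / 72 := by linarith only [hn3, hu2]
  have hnu1 : (n : ℝ) * u ≤ 1 := by linarith only [hnu]
  have hξq : ξ ^ q ≠ 1 := pow_ne_one hq hz.pow_eq_one hz1 hξz
    ((mul_le_mul_of_nonneg_right hqN hu0).trans_lt (by linarith only [hnu]))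
  have hξ0 : ξ ≠ 0 := by
    rintro rfl
    rw [zero_sub, norm_neg, hz1] at hud
    rw [hud] at hnu
    linarith only [hnu, hN]
  have ev : aeval ξ (Y * W + X ^ s * F') = ξ ^ s * aeval ξ F' := by
    rw [map_add, hξ, zero_add, map_mul, map_pow, aeval_X]
  have hb := big_ne S hξq
  rw [eB, map_mul] at hb
  have hv0 : aeval ξ (Y * W + X ^ s * F') ≠ 0 := by
    rw [ev]
    exact mul_ne_zero (pow_ne_zero _ hξ0) (right_ne_zero_of_mul hb)
  have hv1 : ‖aeval ξ (Y * W + X ^ s * F')‖ ≤ 3 * (6 * (n : ℝ) ^ 2 * u) ^ (k - j) := by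
    rw [ev, norm_mul, norm_pow, hF', map_prod, norm_prod]
    refine mul_le_mul ?_ ?_ (prod_nonneg fun _ _ => norm_nonneg _) (by norm_num)
    · exact (pow_le_pow_left₀ (norm_nonneg _) (norm_le_of_near hz1) s).trans
        (pow_le_three hu0 hnu1 (by omega))
    · rw [← hA', ← prod_const]
      refine prod_le_prod (fun _ _ => norm_nonneg _) fun p hp' => ?_
      have hp := sdiff_subset hp'
      have h1 := lip (fac (cof S p) p) n ((fac_deg _ _).trans (by rw [cof_mul S hp]; omega)) 1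
        (fun i => by rcases fac_z01 (hc p hp) p i with h | h <;> simp [h]) hz1 hnu1
      rw [fac_zero S hS hz hp, sub_zero] at h1
      exact h1.trans (ineq1 hN hu0)
  have hder2 : 1 / (4 * L) ≤ ‖aeval ξ (Y * W + X ^ s * F').derivative‖ := by
    have hb := (natDegree_derivative_le (Y * W + X ^ s * F')).trans ((Nat.sub_le _ _).trans d4)
    have h1 := lip _ n hb _ (cb_der (q1.add q2) d4) hz1 hnu1
    have h2 : aeval z (Y * W + X ^ s * F').derivative = aeval z (Y * W).derivative := by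
      rw [derivative_add, map_add, hF', sub_der S hS sdiff_subset (by omega) hz, add_zero]
    rw [h2] at h1
    have h5 : ((n : ℝ) + 1) * (n * (L + L) * (n * 3 * u)) ≤ 1 / (4 * L) := by
      rw [le_div_iff₀ (by positivity)]
      calc ((n : ℝ) + 1) * (n * (L + L) * (n * 3 * u)) * (4 * L)
          = (n + 1) * (n * (n * 3 * u)) * (8 * L ^ 2) := by ring
        _ ≤ 6 * ((n : ℝ) ^ 3 * u) * (9 * L ^ 2) + 6 * ((n : ℝ) ^ 3 * u) * (3 * L ^ 2) := by
            have := mul_le_mul_of_nonneg_right (ineq2 hN hu0) (show 0 ≤ 8 * L ^ 2 by positivity)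
            have h6 : 0 ≤ (n : ℝ) ^ 3 * u * L ^ 2 := by positivity
            linarith
        _ ≤ 1 := by linarith only [hu2]
    generalize aeval z (Y * W).derivative = a at h1 hder1
    generalize aeval ξ (Y * W + X ^ s * F').derivative = b at h1 ⊢
    have h3 : ‖a‖ - ‖b‖ ≤ ‖b - a‖ := (norm_sub_norm_le a b).trans (norm_sub_rev a b).le
    have h4 : 1 / (2 * L) = 1 / (4 * L) + 1 / (4 * L) := by field_simp; ring
    linarith only [h3, h1, h5, h4, hder1]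
  obtain ⟨ξ', hξ', hu'⟩ := root_near _ ξ n d4 _ (by positivity) hder2
  refine ⟨_, _, mul_ne_zero hX fun h => hne (by rw [h, map_zero]),
    e2 ▸ mul_ne_zero hF0 fun h => hv0 (by rw [h, map_zero]), d1, d2, c1, c2, ξ, ξ',
    by rw [e1, map_mul, hξ, mul_zero], by rw [e2, map_mul, hξ', mul_zero],
    fun h => hv0 (h ▸ hξ'), ?_⟩
  rw [norm_sub_rev]
  calc ‖ξ' - ξ‖ ≤ n * (3 * (6 * (n : ℝ) ^ 2 * u) ^ (k - j)) / (1 / (4 * L)) := by
        refine hu'.trans ?_
        gcongr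
    _ = (12 * n * L) * (6 * (n : ℝ) ^ 2 * u) ^ (k - j) := by field_simp; ring
    _ ≤ (12 * n * L ^ 2) ^ (k - j) * (6 * (n : ℝ) ^ 2 * u) ^ (k - j) := by
        gcongr
        have h1 : L ≤ L ^ 2 := le_self_pow₀ hL two_ne_zero
        refine le_trans ?_ (le_self_pow₀ (by nlinarith) (by omega))
        gcongr
    _ = (72 * (n : ℝ) ^ 3 * L ^ 2 * u) ^ (k - j) := by rw [← mul_pow]; congr 1; ring
    _ ≤ (E⁻¹) ^ (k - j) := by gcongr
    _ = (E ^ (k - j))⁻¹ := inv_pow E _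

end Pool.Agent.Lib.MP_12a475_nt.Neg
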