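import Pool.Agent.Lib.MP_12a475_nt.SqC

/-!
The rate `exp (-c n sqrt (log n / log log n))` for all large `n`.
-/

open Polynomial Finset

noncomputable section

namespace Pool.Agent.Lib.MP_12a475_nt.Neg

theorem many_primes {k : ℕ} (hk : 17 ≤ k) (j : ℕ) (hj : j ≤ k) :
    ∃ S : Finset ℕ, S.card = j ∧ ∀ p ∈ S, p.Prime ∧ 2 * k ≤ p ∧ p ≤ k ^ 3 := by
  have hk' : (17 : ℝ) ≤ k := by exact_mod_cast hk
  have h1 : 3 * k ≤ Nat.primeCounting (k ^ 3) := by
    by_contra h
    have h2 : (Nat.primeCounting (k ^ 3) : ℝ) ≤ 3 * k := by exact_mod_cast (not_le.1 h).le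
    have h3 := (Chebyshev.psi_ge (k ^ 3)).trans (Chebyshev.psi_le_primeCounting_mul_log (k ^ 3))
    push_cast at h3
    have h4 : Real.log ((k : ℝ) ^ 3 + 1) ≤ 3 * k := by
      refine (Real.log_le_log (by positivity) (show _ ≤ ((k : ℝ) + 1) ^ 3 by nlinarith)).trans ?_
      rw [Real.log_pow]
      push_cast
      linarith [Real.log_le_sub_one_of_pos (show (0 : ℝ) < k + 1 by linarith)]
    have h5 : Real.log ((k : ℝ) ^ 3) ≤ 3 * k :=
      (Real.log_le_log (by positivity) (by linarith)).trans h4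
    have h6 := mul_le_mul h2 h5 (Real.log_nonneg (one_le_pow₀ (by linarith))) (by linarith)
    have h7 := mul_le_mul_of_nonneg_left Real.log_two_gt_d9.le (show (0 : ℝ) ≤ k ^ 3 by positivity)
    nlinarith
  have h2 : j ≤ (Nat.primesLE (k ^ 3) \ range (2 * k)).card := by
    have := le_card_sdiff (range (2 * k)) (Nat.primesLE (k ^ 3))
    rw [Nat.primesLE_card_eq_primeCounting, card_range] at this
    omega
  obtain ⟨S, hS, hc⟩ := exists_subset_card_eq h2
  refine ⟨S, hc, fun p hp => ?_⟩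
  obtain ⟨h3, h4⟩ := mem_sdiff.1 (hS hp)
  rw [Nat.mem_primesLE] at h3
  exact ⟨h3.2, not_lt.1 fun h => h4 (mem_range.2 h), h3.1⟩

/-- A set of `k` primes above `2 k` whose product is within a factor two of `n / (8 k)`. -/
theorem fit2 (k n : ℕ) (hk : 17 ≤ k) (hn : k ^ (4 * k) ≤ n) :
    ∃ S : Finset ℕ, S.card = k ∧ (∀ p ∈ S, p.Prime ∧ 2 * k ≤ p) ∧
      8 * (∏ x ∈ S, x) * k ≤ n ∧ n ≤ 16 * (∏ x ∈ S, x) * k := by
  obtain ⟨S, hS, h⟩ := many_primes hk (k - 1) (by omega)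
  set r := ∏ x ∈ S, x with hr
  have hr0 : 0 < r := prod_pos fun x hx => (h x hx).1.pos
  have hr1 : r ≤ (k ^ 3) ^ (k - 1) := by
    rw [← hS]
    exact prod_le_pow_card _ _ _ fun x hx => (h x hx).2.2
  have hD : 0 < 16 * r * k := by positivity
  have hm : k ^ 3 ≤ n / (16 * r * k) := by
    rw [Nat.le_div_iff_mul_le hD]
    calc k ^ 3 * (16 * r * k) ≤ k ^ 3 * (k ^ 1 * (k ^ 3) ^ (k - 1) * k ^ 1) := by
          rw [pow_one]
          gcongr
          omega
      _ = k ^ (3 + (1 + 3 * (k - 1) + 1)) := by rw [← pow_mul, ← pow_add, ← pow_add, ← pow_add]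
      _ ≤ k ^ (4 * k) := Nat.pow_le_pow_right (by omega) (by omega)
      _ ≤ n := hn
  set m := n / (16 * r * k) with hmd
  have hk3 : 2 * k ≤ k ^ 3 := by nlinarith [Nat.mul_le_mul hk hk]
  obtain ⟨p, hp, h1, h2⟩ := Nat.exists_prime_lt_and_le_two_mul m (by omega)
  have hn' : p ∉ S := fun hh => absurd ((h p hh).2.2.trans hm) (not_le.2 h1)
  have e1 : m * (16 * r * k) ≤ n := Nat.div_mul_le_self _ _
  have e2 : n < (m + 1) * (16 * r * k) := by
    rw [mul_comm]
    exact Nat.lt_mul_div_succ n hD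
  refine ⟨insert p S, by rw [card_insert_of_notMem hn', hS]; omega, fun x hx => ?_, ?_, ?_⟩
  · rcases mem_insert.1 hx with rfl | hx
    · exact ⟨hp, by omega⟩
    · exact ⟨(h x hx).1, (h x hx).2.1⟩
  · rw [prod_insert hn', ← hr]
    calc 8 * (p * r) * k ≤ 8 * (2 * m * r) * k := by gcongr
      _ = m * (16 * r * k) := by ring
      _ ≤ n := e1
  · rw [prod_insert hn', ← hr]
    calc n ≤ (m + 1) * (16 * r * k) := e2.le
      _ ≤ p * (16 * r * k) := by gcongr; omega
      _ = 16 * (p * r) * k := by ring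

theorem scale2 (f : ℕ → ℕ) (hf : ∀ w, w ≤ f w) (w₀ n : ℕ) (hn : f w₀ ≤ n) :
    ∃ w, w₀ ≤ w ∧ f w ≤ n ∧ n < f (w + 1) := by
  classical
  have hex : ∃ t, n < f (w₀ + t + 1) := ⟨n, lt_of_lt_of_le (by omega) (hf _)⟩
  refine ⟨w₀ + Nat.find hex, by omega, ?_, Nat.find_spec hex⟩
  rcases h : Nat.find hex with _ | t
  · exact hn
  · exact not_lt.1 (Nat.find_min hex (m := t) (by omega))

theorem rate2 : ∃ N : ℕ, ∀ n ≥ N, ∃ P₁ P₂ : ℤ[X], P₁ ≠ 0 ∧ P₂ ≠ 0 ∧
      P₁.natDegree ≤ n ∧ P₂.natDegree ≤ n ∧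
      (∀ i, P₁.coeff i ∈ ({-1, 0, 1} : Set ℤ)) ∧ (∀ i, P₂.coeff i ∈ ({-1, 0, 1} : Set ℤ)) ∧
      ∃ ξ₁ ξ₂ : ℂ, aeval ξ₁ P₁ = 0 ∧ aeval ξ₂ P₂ = 0 ∧ ξ₁ ≠ ξ₂ ∧
        ‖ξ₁ - ξ₂‖ ≤ Real.exp (-(1 / 30000 * n * √(Real.log n / Real.log (Real.log n)))) := by
  obtain ⟨T, hT⟩ := Filter.eventually_atTop.1
    ((Real.isLittleO_pow_log_id_atTop (n := 2)).bound (show (0 : ℝ) < 1 / 640 by norm_num))
  refine ⟨((17 * max 20000 ⌈T⌉₊) ^ 2) ^ (4 * (17 * max 20000 ⌈T⌉₊) ^ 2), fun n hn => ?_⟩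
  obtain ⟨w, hw, h1, h2⟩ := scale2 (fun w => ((17 * w) ^ 2) ^ (4 * (17 * w) ^ 2)) (fun w => by
    rcases Nat.eq_zero_or_pos w with rfl | h
    · simp
    · exact le_trans (by nlinarith) (Nat.le_self_pow (by positivity) _)) _ n hn
  have hw1 : 20000 ≤ w := (le_max_left _ _).trans hw
  have hwT : ⌈T⌉₊ ≤ w := (le_max_right _ _).trans hw
  obtain ⟨j, hj, hF⟩ := exists_fam (show 1 ≤ w by omega)
  have k1 : 2 * (8 * (17 * w)) ≤ (17 * w) ^ 2 := by nlinarith
  have k2 : (17 * (w + 1)) ^ 2 ≤ 4 * (17 * w) ^ 2 := by nlinarith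
  have k3 : (((17 * w) ^ 2 : ℕ) : ℝ) = (17 * w) ^ 2 := by push_cast; ring
  generalize (17 * w) ^ 2 = k at h1 hF k1 k2 k3
  generalize (17 * (w + 1)) ^ 2 = k' at h2 k2
  obtain ⟨S, hk, hS, e1, e2⟩ := fit2 k n (by omega) h1
  set q := ∏ x ∈ S, x with hq
  have hq2 : (2 * k) ^ k ≤ q := by
    have := pow_card_le_prod S (fun x => x) (2 * k) fun p hp => (hS p hp).2
    rwa [hk] at this
  have hq3 : 2 ^ k ≤ q := (Nat.pow_le_pow_left (by omega) k).trans hq2
  have hq4 : 8 * k ≤ q := by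
    refine le_trans ?_ ((Nat.pow_le_pow_right (by omega) (show 2 ≤ k by omega)).trans hq2)
    nlinarith
  have hwq : (w : ℝ) ≤ q := by exact_mod_cast (show w ≤ q by omega)
  have hw' : (20000 : ℝ) ≤ w := by exact_mod_cast hw1
  have hTq : T ≤ q := (Nat.le_ceil T).trans ((Nat.cast_le.2 hwT).trans hwq)
  have htot : q ≤ 2 * q.totient :=
    totient_ge S (fun p hp => (hS p hp).1) fun p hp => hk ▸ (hS p hp).2
  have l2 : 1 / 2 ≤ Real.log 2 := by linarith [Real.log_two_gt_d9]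
  have hq' : (0 : ℝ) < q := by linarith
  obtain ⟨P₁, P₂, g1, g2, d1, d2, c1, c2, ξ₁, ξ₂, r1, r2, hne, hle⟩ :=
    st2 S (fun p hp => (hS p hp).1) (B := 2 ^ w) (j := j) (Nat.le_self_pow (by omega) 2)
      (hk ▸ hF) (by omega) rfl (Real.exp (q / 4 * (w * Real.log 2)))
      (Real.one_le_exp (by positivity)) (by
        rw [← hq, hk]
        have h3 := hT q hTq
        rw [Real.norm_of_nonneg (sq_nonneg _), id, Real.norm_of_nonneg hq'.le] at h3
        have h4 : (8 * k : ℝ) ≤ q := by exact_mod_cast hq4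
        have h5 : (q : ℝ) ≤ 2 * q.totient := by exact_mod_cast htot
        have h6 : k * Real.log 2 ≤ Real.log q := by
          rw [← Real.log_pow]
          exact Real.log_le_log (by positivity) (by exact_mod_cast hq3)
        have h7 : (0 : ℝ) ≤ k := Nat.cast_nonneg k
        have h8 : (((8 * q * k : ℕ) : ℝ) ^ k) ^ 10 ≤ Real.exp (q / 16) := by
          calc (((8 * q * k : ℕ) : ℝ) ^ k) ^ 10 ≤ ((Real.exp (Real.log q) ^ 2) ^ k) ^ 10 := by
                rw [Real.exp_log hq']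
                gcongr
                push_cast
                nlinarith
            _ = Real.exp (20 * k * Real.log q) := by
                rw [← pow_mul, ← pow_mul, ← Real.exp_nat_mul]
                congr 1
                push_cast
                ring
            _ ≤ Real.exp (q / 16) := Real.exp_le_exp.2 (by
                nlinarith [mul_le_mul_of_nonneg_left l2 h7, mul_nonneg h7 (le_trans (by norm_num) l2)])
        have h9 : 1152 ≤ Real.exp (q / 16) := by linarith [Real.add_one_le_exp ((q : ℝ) / 16)]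
        have h10 : 1 / 2 ≤ w * Real.log 2 := by nlinarith
        calc 1152 * (((8 * q * k : ℕ) : ℝ) ^ k) ^ 10 * Real.exp (q / 4 * (w * Real.log 2))
            ≤ Real.exp (q / 16) * Real.exp (q / 16) * Real.exp (q / 4 * (w * Real.log 2)) := by
              gcongr
          _ ≤ Real.exp (q.totient * (w * Real.log 2)) := by
              rw [← Real.exp_add, ← Real.exp_add]
              gcongr
              nlinarith
          _ = ((2 ^ w : ℕ) : ℝ) ^ q.totient := by
              rw [Real.exp_nat_mul, Real.exp_nat_mul, Real.exp_log two_pos]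
              push_cast
              rfl)
  rw [← hq, hk] at d1 d2
  refine ⟨P₁, P₂, g1, g2, d1.trans e1, d2.trans e1, c1, c2, ξ₁, ξ₂, r1, r2, hne, hle.trans ?_⟩
  rw [hk, ← Real.exp_nat_mul, ← Real.exp_neg]
  have hk4 : (4 : ℝ) ≤ k := by exact_mod_cast (show 4 ≤ k by omega)
  have lk : 1 / 2 ≤ Real.log k := l2.trans (Real.log_le_log two_pos (by linarith))
  have hn0 : (0 : ℝ) < n := by exact_mod_cast (Nat.pow_pos (by omega)).trans_le h1
  have a1 : Real.log n ≤ 36 * k * Real.log k := by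
    have h3 : n ≤ (k ^ 2) ^ (4 * (4 * k)) :=
      h2.le.trans ((Nat.pow_le_pow_left (k2.trans (by nlinarith)) _).trans
        (Nat.pow_le_pow_right (Nat.pow_pos (by omega)) (by omega)))
    refine (Real.log_le_log hn0 (Nat.cast_le.2 h3)).trans ?_
    push_cast
    rw [Real.log_pow, Real.log_pow]
    push_cast
    nlinarith
  have a2 : Real.log k ≤ Real.log (Real.log n) := by
    refine Real.log_le_log (by linarith) (le_trans ?_
      (Real.log_le_log (by positivity) (show (k : ℝ) ^ (4 * k) ≤ n by exact_mod_cast h1)))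
    rw [Real.log_pow]
    push_cast
    nlinarith
  have a3 : √(Real.log n / Real.log (Real.log n)) ≤ 102 * w := by
    refine Real.sqrt_le_iff.2 ⟨by positivity, ?_⟩
    rw [div_le_iff₀ (by linarith)]
    calc Real.log n ≤ 36 * k * Real.log k := a1
      _ ≤ 36 * k * Real.log (Real.log n) := by gcongr
      _ = _ := by rw [k3]; ring
  have e3 : (n : ℝ) ≤ 16 * q * k := by exact_mod_cast e2
  have e4 : (k : ℝ) ≤ 2 * ((k - j : ℕ) : ℝ) := by exact_mod_cast (show k ≤ 2 * (k - j) by omega)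
  refine Real.exp_le_exp.2 (neg_le_neg ?_)
  calc 1 / 30000 * (n : ℝ) * √(Real.log n / Real.log (Real.log n))
      ≤ 1 / 30000 * (16 * q * (2 * ((k - j : ℕ) : ℝ))) * (102 * w) := by
        gcongr
        exact e3.trans (by gcongr)
    _ = ((k - j : ℕ) : ℝ) * (q / 4 * (w * (272 / 625))) := by ring
    _ ≤ ((k - j : ℕ) : ℝ) * (q / 4 * (w * Real.log 2)) := by
        gcongr
        linarith

end Pool.Agent.Lib.MP_12a475_nt.Neg
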